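import Pool.Agent.Lib.KR73.Kit

/-! Capacity of a blob. -/

set_option autoImplicit false

open Filter Topology Set Metric Complex Bornology MeasureTheory N62a1eb23
open scoped Real ENNReal

namespace KR73

open Pool.Agent.Lib.MP_c35c17_an KN

theorem st_BLOB {n : ℕ} (hn : 2 ≤ n) (hEXT : St_EXT n) (hC2 : St_C2) (hC3 : St_C3 n)
    (hSER : St_SER n) (hBSUB : St_BSUB n) : St_BLOB n := by
  intro d T μ w i x hw hQ hd hx
  obtain ⟨M, hM⟩ : ∃ M, NN n d = M + 1 := ⟨NN n d - 1, by have := μ.NN_pos; omega⟩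
  have h1 := hSER d T μ w 0 M hQ (by
    have := μ.Ns_le
    rw [hM, add_mul] at this
    omega)
  obtain ⟨b1, b2, b3⟩ := hBSUB d T μ i x hd hx
  have ho : IsOpen (F n μ.c ⁻¹' μ.Ph 0 d 0) :=
    (μ.Ph_open hEXT 0 d 0).preimage (by unfold F; fun_prop)
  have h2 := (hC2 _ _ _ _ ho b1 b2 (hC3 μ.c _ _ _ h1)).mono Subset.rfl b3
  have hn0 : (0 : ℝ) < n := by exact_mod_cast (by omega : 0 < n)
  have hd0 : (0 : ℝ) < d := by exact_mod_cast μ.dpos
  have e1 : ((M : ℝ) + 1) = n * (2 * d) ^ 2 := by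
    have : ((NN n d : ℕ) : ℝ) = M + 1 := by rw [hM]; push_cast; rfl
    rw [← this, NN]
    push_cast
    ring
  have e2 : √n * (w / √(M + 1)) = w / (2 * d) := by
    rw [e1, Real.sqrt_mul hn0.le, Real.sqrt_sq (by positivity)]
    have := (Real.sqrt_pos.2 hn0).ne'
    field_simp
  rw [e2, ← hM] at h2
  exact h2

end KR73
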