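import Pool.Agent.Lib.KR73.Kit

/-! Branches along a factor of the kneading sequence. -/

set_option autoImplicit false

open Filter Topology Set Metric Complex Bornology MeasureTheory N62a1eb23
open scoped Real ENNReal

namespace KR73

open Pool.Agent.Lib.MP_c35c17_an KN

theorem st_BRW {n : ℕ} (hn : 2 ≤ n) : St_BRW n := by
  have _ := hn
  intro d T μ i x U hx hU
  induction x generalizing i with
  | zero => exact ⟨differentiableOn_id, fun _ _ => rfl, fun _ _ y hy => absurd hy (Nat.not_lt_zero y)⟩
  | succ x ih =>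
    obtain ⟨h1, h2, h3⟩ := ih (i + 1) (by omega) fun i' y a b => hU i' y (by omega) (by omega)
    have h4 : ∀ z ∈ U, μ.Y (i + 1) x z ∉ μ.S 0 := fun z hz h => by
      have h5 := μ.S_iter h x
      rw [h2 z hz, zero_add] at h5
      exact Set.disjoint_left.1 (hU (i + 1) x (Nat.lt_succ_self i) (by omega) fun j hj =>
        μ.V_uniq (h3 hz j hj) (by simpa using μ.S_V (by omega) (μ.S_iter h j))) hz h5
    have h6 : ∀ z ∈ U, F n μ.c (μ.Y i (x + 1) z) = μ.Y (i + 1) x z := fun z hz => by
      rw [μ.Y_succ]
      exact μ.inv _ _ (h4 z hz)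
    refine ⟨((μ.diff _).comp h1 h4).congr fun z _ => μ.Y_succ, fun z hz => ?_, fun z hz => ?_⟩
    · rw [Function.iterate_succ_apply, h6 z hz, h2 z hz]
    · intro y hy
      rcases y with _ | y
      · exact ⟨_, h4 z hz, μ.Y_succ.symm⟩
      · rw [Function.iterate_succ_apply, h6 z hz, show i + (y + 1) = i + 1 + y by omega]
        exact h3 hz y (by omega)

end KR73
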