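import Pool.Agent.Lib.KR73.Kit

/-! The branch on the preimage of the base piece. -/

set_option autoImplicit false

open Filter Topology Set Metric Complex Bornology MeasureTheory N62a1eb23
open scoped Real ENNReal

namespace KR73

open Pool.Agent.Lib.MP_c35c17_an KN

theorem st_BSUB {n : ℕ} (hn : 2 ≤ n) (hEXT : St_EXT n) (hBRW : St_BRW n) (hMISS2 : St_MISS2 n) :
    St_BSUB n := by
  intro d T μ i x hd hx
  obtain ⟨h1, h2, h3⟩ := hBRW d T μ i x (F n μ.c ⁻¹' μ.Ph 0 d 0) (by omega)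
    fun i' y hi hy _ => disjoint_left.mpr fun z hz hs =>
      disjoint_left.mp (hMISS2 d T μ (y + 1) (by omega) (by omega)) (μ.S_map hs) hz.1
  refine ⟨h1, fun z hz z' hz' e => by rw [← h2 z hz, e, h2 z' hz'], ?_⟩
  rintro _ ⟨z, hz, rfl⟩
  refine ⟨μ.P_mono hd (h3 hz), fun h => hz.2 ?_⟩
  have h0 : (0 : ℝ) < ((n : ℝ) ^ 0)⁻¹ := inv_pos.mpr (npow_pos hn 0)
  have h4 := ((hEXT μ.c μ.hc μ.Φ μ.bot).2.2 _ h0 (x + 1) _).mpr h
  rw [Function.iterate_succ_apply', h2 z hz] at h4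
  refine Ext_mono (le_mul_of_one_le_left h0.le ?_) h4
  simpa using npow_mono hn (Nat.zero_le (x + 1))

end KR73
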