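import Pool.Agent.Lib.KR73.Kit

/-! A compact set in an open set has finite capacity. -/

set_option autoImplicit false

open Filter Topology Set Metric Complex Bornology MeasureTheory N62a1eb23
open scoped Real ENNReal

namespace KR73

open Pool.Agent.Lib.MP_c35c17_an KN

theorem st_C0 : St_C0 := by
  intro K O hK hO hKO
  obtain ⟨K', h1, h2, h3⟩ := exists_compact_between hK hO hKO
  obtain ⟨u, h4, h5, h6⟩ := exists_contMDiffMap_one_nhds_of_subset_interior (n := 1)
    (modelWithCornersSelf ℝ ℂ) hK.isClosed h2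
  have hu : ContDiff ℝ 1 u := u.contMDiff.contDiff
  have hs : tsupport u ⊆ K' :=
    closure_minimal (fun z hz => by_contra fun h => hz (h5 z h)) h1.isClosed
  have hc : HasCompactSupport u := h1.of_isClosed_subset (isClosed_tsupport u) hs
  have hi : Integrable fun z => ‖fderiv ℝ u z‖ ^ 2 :=
    ((hu.continuous_fderiv one_ne_zero).norm.pow 2).integrable_of_hasCompactSupport
      (HasCompactSupport.intro hc fun z hz => by simp [fderiv_eq_zero_of_notMem hz])
  have h0 : 0 ≤ ∫ z, ‖fderiv ℝ u z‖ ^ 2 := integral_nonneg fun _ => sq_nonneg _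
  refine ⟨(∫ z, ‖fderiv ℝ u z‖ ^ 2) + 1, by linarith, u, hu, h6, hc, hs.trans h3,
    fun z hz => h4.filter_mono (nhds_le_nhdsSet hz), ?_⟩
  rw [Dir, ← ofReal_integral_eq_lintegral_ofReal hi (Eventually.of_forall fun _ => sq_nonneg _)]
  exact ENNReal.ofReal_le_ofReal (by nlinarith)

end KR73
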