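import Pool.Agent.Lib.KR73.Kit

/-! Conformal invariance of the capacity. -/

set_option autoImplicit false

open Filter Topology Set Metric Complex Bornology MeasureTheory N62a1eb23
open scoped Real ENNReal

namespace KR73

open Pool.Agent.Lib.MP_c35c17_an KN Pool.Agent.Lib.MP_c35c17_an.Q

namespace XC2

variable {χ : ℂ → ℝ}

/-- an injective holomorphic germ has nonzero derivative -/
theorem deriv_ne_zero_of_injOn {f : ℂ → ℂ} {z : ℂ} {O : Set ℂ} (hO : O ∈ 𝓝 z)
    (hf : AnalyticAt ℂ f z) (hi : InjOn f O) : deriv f z ≠ 0 := by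
  intro h0
  have nc : ¬ ∀ᶠ w in 𝓝 z, f w - f z = 0 := fun h => by
    have : ∀ᶠ w in 𝓝[≠] z, False := by
      filter_upwards [self_mem_nhdsWithin, nhdsWithin_le_nhds h, nhdsWithin_le_nhds hO]
        with w a b c
      exact a (hi c (mem_of_mem_nhds hO) (sub_eq_zero.1 b))
    exact this.exists.choose_spec
  obtain ⟨k, u, hu, u0, e⟩ :=
    (hf.sub (analyticAt_const (v := f z))).exists_eventuallyEq_pow_smul_nonzero_iff.2 nc
  simp only [Pi.sub_apply, smul_eq_mul] at e
  have k2 : 2 ≤ k := by
    rcases k with _ | _ | k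
    · exact absurd (by simpa using e.self_of_nhds.symm) u0
    · exfalso
      have d := ((hasDerivAt_id z).sub_const z).mul hu.differentiableAt.hasDerivAt
      have d' : HasDerivAt (fun w => f w - f z) 0 z :=
        (h0 ▸ hf.differentiableAt.hasDerivAt).sub_const _
      have := d'.unique (d.congr_of_eventuallyEq (e.mono fun w a => by simpa using a))
      exact u0 (by simpa using this.symm)
    · omega
  have k0 : (k : ℂ) ≠ 0 := Nat.cast_ne_zero.2 (by omega)
  have ha : AnalyticAt ℂ (fun w => (w - z) * exp (log (u w / u z) / k)) z :=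
    (analyticAt_id.sub analyticAt_const).mul
      (((hu.div_const).clog (by simp [u0])).div_const).cexp
  have e' : ∀ᶠ w in 𝓝 z, f w - f z = ((w - z) * exp (log (u w / u z) / k)) ^ k * u z := by
    filter_upwards [e, hu.continuousAt.eventually_ne u0] with w a b
    rw [a, mul_pow, ← exp_nat_mul, mul_div_cancel₀ _ k0, exp_log (div_ne_zero b u0), mul_assoc,
      div_mul_cancel₀ _ u0]
  rcases ha.eventually_constant_or_nhds_le_map_nhds with c | c
  · refine nc ?_
    filter_upwards [c, e'] with w a b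
    rw [b, a]; simp [show k ≠ 0 by omega]
  · simp only [sub_self, zero_mul] at c
    have hS := c (image_mem_map (e'.and hO))
    have hζ := isPrimitiveRoot_exp k (by omega)
    set ζ := exp (2 * Real.pi * I / k)
    have t : Tendsto (fun t : ℂ => ζ * t) (𝓝 0) (𝓝 0) := by
      simpa using (continuous_const_mul ζ).tendsto 0
    have : ∀ᶠ t : ℂ in 𝓝[≠] 0, False := by
      filter_upwards [self_mem_nhdsWithin, nhdsWithin_le_nhds hS, nhdsWithin_le_nhds (t hS)]
        with t t0 ⟨x, hx, ex⟩ ⟨y, hy, ey⟩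
      simp only at ex ey
      have : x = y := hi hx.2 hy.2 (by
        have := hx.1.trans (hy.1.trans (by rw [ex, ey, mul_pow, hζ.pow_eq_one, one_mul])).symm
        exact sub_left_injective this)
      subst this
      exact hζ.ne_one (by omega) (mul_right_cancel₀ t0 (by rw [← ey, ex, one_mul]))
    exact this.exists.choose_spec

/-- the gradient of a composition with a holomorphic map -/
theorem norm_fderiv_comp {h : ℂ → ℂ} {z a : ℂ} (hd : HasDerivAt h a z)
    (hχ : DifferentiableAt ℝ χ (h z)) :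
    ‖fderiv ℝ (χ ∘ h) z‖ ≤ ‖fderiv ℝ χ (h z)‖ * ‖a‖ := by
  rw [(hχ.hasFDerivAt.comp _ (hd.hasFDerivAt.restrictScalars ℝ)).fderiv]
  refine (ContinuousLinearMap.opNorm_comp_le _ _).trans (le_of_eq ?_)
  simp

/-- pulling back along an injective holomorphic map does not raise the Dirichlet integral -/
theorem dir_comp {h : ℂ → ℂ} {s : Set ℂ} (hs : MeasurableSet s)
    (hd : ∀ z ∈ s, DifferentiableAt ℂ h z) (hi : InjOn h s) (hχ : Differentiable ℝ χ) :
    ∫⁻ z in s, ENNReal.ofReal (‖fderiv ℝ (χ ∘ h) z‖ ^ 2) ≤ Dir χ := by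
  refine le_trans ?_ (setLIntegral_le_lintegral (h '' s) _)
  rw [lintegral_image_holo' hs (fun z hz => (hd z hz).hasDerivAt) hi]
  refine setLIntegral_mono' hs fun z hz => ?_
  rw [← ENNReal.ofReal_mul (by positivity), ← mul_pow, mul_comm]
  exact ENNReal.ofReal_le_ofReal
    (pow_le_pow_left₀ (norm_nonneg _) (norm_fderiv_comp (hd z hz).hasDerivAt (hχ _)) 2)

end XC2

open XC2 in
theorem st_C2 : St_C2 := by
  intro K O w h hO hd hi hc
  have hK := hc.subset
  obtain ⟨χ, a1, a2, a3, a4, a5, hv⟩ := hc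
  have hχ : Cut χ K O := ⟨a1, a3, a4, a2, a5⟩
  have hV : IsOpen (h '' O) := isOpen_image_of_injOn hO hd hi O subset_rfl hO
  have hg := differentiableOn_invFunOn hO hd hi fun z hz =>
    deriv_ne_zero_of_injOn (hO.mem_nhds hz) (hd.analyticAt (hO.mem_nhds hz)) hi
  set g := Function.invFunOn h O
  have hgF : ∀ z ∈ O, g (h z) = z := fun z hz => hi.leftInvOn_invFunOn hz
  have hC : IsCompact (h '' tsupport χ) :=
    IsCompact.image_of_continuousOn hχ.cpt (hd.continuousOn.mono hχ.supp)
  set χ' : ℂ → ℝ := (h '' O).indicator (χ ∘ g) with hχ'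
  have hs : tsupport χ' ⊆ h '' tsupport χ := closure_minimal (fun z hz => by
    obtain ⟨w, hw, rfl⟩ : z ∈ h '' O := by_contra fun h => hz (indicator_of_notMem h _)
    refine mem_image_of_mem h (subset_tsupport _ fun h => hz ?_)
    rw [hχ', indicator_of_mem (mem_image_of_mem _ hw), Function.comp_apply, hgF w hw, h])
    hC.isClosed
  have hev : ∀ z ∈ h '' O, χ' =ᶠ[𝓝 z] χ ∘ g := fun z hz =>
    eventually_of_mem (hV.mem_nhds hz) fun w hw => indicator_of_mem hw _
  refine ⟨χ', contDiff_iff_contDiffAt.mpr fun z => ?_, fun z => ?_,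
    hC.of_isClosed_subset isClosed_closure hs, hs.trans (image_mono hχ.supp), ?_, ?_⟩
  · by_cases hz : z ∈ h '' O
    · exact (hχ.smooth.contDiffAt.comp z
        ((hg.analyticAt (hV.mem_nhds hz)).contDiffAt.restrict_scalars ℝ)).congr_of_eventuallyEq
        (hev z hz)
    · exact contDiffAt_const.congr_of_eventuallyEq (notMem_tsupport_iff_eventuallyEq.mp
        fun h => hz (image_mono hχ.supp (hs h)))
  · by_cases hz : z ∈ h '' O
    · rw [hχ', indicator_of_mem hz]; exact hχ.mem _
    · rw [hχ', indicator_of_notMem hz]; simp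
  · rintro _ ⟨w, hw, rfl⟩
    have h1 := mem_image_of_mem h (hK hw)
    have h2 : Tendsto g (𝓝 (h w)) (𝓝 w) := by
      have := (hg.differentiableAt (hV.mem_nhds h1)).continuousAt
      rwa [ContinuousAt, hgF w (hK hw)] at this
    filter_upwards [hev _ h1, h2.eventually (hχ.one w hw)] with z h3 h4
    rw [h3, Function.comp_apply, h4]
  refine le_trans ?_ hv
  calc Dir χ' = ∫⁻ z in h '' O, ENNReal.ofReal (‖fderiv ℝ χ' z‖ ^ 2) := by
        refine (setLIntegral_eq_of_support_subset fun z hz => by_contra fun h => hz ?_).symm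
        simp [fderiv_zero_of_notMem fun h' => h (image_mono hχ.supp (hs h'))]
    _ = ∫⁻ z in h '' O, ENNReal.ofReal (‖fderiv ℝ (χ ∘ g) z‖ ^ 2) :=
        setLIntegral_congr_fun hV.measurableSet fun z hz => by simp only [(hev z hz).fderiv_eq]
    _ ≤ Dir χ := dir_comp hV.measurableSet (fun z hz => hg.differentiableAt (hV.mem_nhds hz))
        (Function.invFunOn_injOn_image h O) hχ.diff

end KR73
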