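import Pool.Agent.Lib.KR73.Kit

/-! Block C3: pull back of a test function by the unicritical map. -/

set_option autoImplicit false

open Filter Topology Set Metric Complex Bornology MeasureTheory N62a1eb23
open scoped Real ENNReal

namespace KR73

open Pool.Agent.Lib.MP_c35c17_an KN

namespace XC3

theorem norm_fderiv_le {u : ℂ → ℝ} (hu : ContDiff ℝ 1 u) {f : ℂ → ℂ} {a z : ℂ}
    (hf : HasDerivAt f a z) : ‖fderiv ℝ (u ∘ f) z‖ ≤ ‖a‖ * ‖fderiv ℝ u (f z)‖ := by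
  have h1 := (hu.differentiable one_ne_zero (f z)).hasFDerivAt
  have h2 := hf.hasFDerivAt.restrictScalars ℝ
  rw [(h1.comp z h2).fderiv]
  refine ContinuousLinearMap.opNorm_le_bound _ (by positivity) fun v => ?_
  refine ((fderiv ℝ u (f z)).le_opNorm (v * a)).trans (le_of_eq ?_)
  rw [norm_mul]
  ring

theorem energy {n : ℕ} (hn : 2 ≤ n) (c : ℂ) {u : ℂ → ℝ} (hu : ContDiff ℝ 1 u) :
    Dir (u ∘ F n c) ≤ n * Dir u := by
  have hn0 : n ≠ 0 := by omega
  have : NeZero n := ⟨hn0⟩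
  have hω := Complex.isPrimitiveRoot_exp n hn0
  set ω := exp (2 * π * I / n)
  set S : Fin n → Set ℂ := fun t => {w | ω ^ (t : ℕ) * (w ^ n) ^ (n⁻¹ : ℂ) = w} with hS
  have hSm : ∀ t, MeasurableSet (S t) := fun t => measurableSet_eq_fun (by fun_prop) measurable_id
  have hinj : ∀ t, InjOn (F n c) (S t) := fun t w hw w' hw' e => by
    have e' : w ^ n = w' ^ n := add_right_cancel e
    have h1 : ω ^ (t : ℕ) * (w ^ n) ^ (n⁻¹ : ℂ) = w := hw
    have h2 : ω ^ (t : ℕ) * (w' ^ n) ^ (n⁻¹ : ℂ) = w' := hw'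
    rw [← h1, ← h2, e']
  have hcov : (univ : Set ℂ) ⊆ ⋃ t, S t := fun w _ => by
    have e : ((w ^ n) ^ (n⁻¹ : ℂ)) ^ n = w ^ n := cpow_nat_inv_pow _ hn0
    by_cases h0 : (w ^ n) ^ (n⁻¹ : ℂ) = 0
    · rw [h0, zero_pow hn0] at e
      refine mem_iUnion.mpr ⟨0, ?_⟩
      show ω ^ ((0 : Fin n) : ℕ) * (w ^ n) ^ (n⁻¹ : ℂ) = w
      rw [h0, mul_zero, pow_eq_zero_iff hn0 |>.mp e.symm]
    · obtain ⟨t, ht, e1⟩ := hω.eq_pow_of_pow_eq_one (ξ := w / (w ^ n) ^ (n⁻¹ : ℂ)) (by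
        rw [div_pow, e, div_self (by rw [← e]; exact pow_ne_zero _ h0)])
      refine mem_iUnion.mpr ⟨⟨t, ht⟩, ?_⟩
      show ω ^ t * (w ^ n) ^ (n⁻¹ : ℂ) = w
      rw [e1, div_mul_cancel₀ _ h0]
  have hd : ∀ z, HasDerivAt (F n c) ((n : ℂ) * z ^ (n - 1)) z := fun z =>
    (hasDerivAt_pow n z).add_const c
  calc Dir (u ∘ F n c) ≤ ∫⁻ z in ⋃ t, S t, ENNReal.ofReal (‖fderiv ℝ (u ∘ F n c) z‖ ^ 2) := by
        rw [Dir, ← setLIntegral_univ]
        exact lintegral_mono_set hcov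
    _ ≤ ∑' t, ∫⁻ z in S t, ENNReal.ofReal (‖fderiv ℝ (u ∘ F n c) z‖ ^ 2) := lintegral_iUnion_le _ _
    _ ≤ ∑ _t : Fin n, Dir u := by
        rw [tsum_fintype]
        refine Finset.sum_le_sum fun t _ => ?_
        calc _ ≤ ∫⁻ z in S t, ENNReal.ofReal (‖(n : ℂ) * z ^ (n - 1)‖ ^ 2) *
              ENNReal.ofReal (‖fderiv ℝ u (F n c z)‖ ^ 2) := by
              refine lintegral_mono fun z => ?_
              rw [← ENNReal.ofReal_mul (by positivity), ← mul_pow]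
              exact ENNReal.ofReal_le_ofReal
                (pow_le_pow_left₀ (norm_nonneg _) (norm_fderiv_le hu (hd z)) 2)
          _ = ∫⁻ x in F n c '' S t, ENNReal.ofReal (‖fderiv ℝ u x‖ ^ 2) :=
              (Q.lintegral_image_holo' (hSm t) (fun z _ => hd z) (hinj t)
                (fun x => ENNReal.ofReal (‖fderiv ℝ u x‖ ^ 2))).symm
          _ ≤ Dir u := setLIntegral_le_lintegral _ _
    _ = n * Dir u := by simp

end XC3

theorem st_C3 {n : ℕ} (hn : 2 ≤ n) : St_C3 n := by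
  rintro c K O w ⟨u, h1, h2, h3, h4, h5, h6⟩
  have hn0 : n ≠ 0 := by omega
  have hF : Continuous (F n c) := by fun_prop
  have hsup : tsupport (u ∘ F n c) ⊆ F n c ⁻¹' tsupport u :=
    closure_minimal (fun z hz => subset_tsupport u hz) ((isClosed_tsupport u).preimage hF)
  refine ⟨u ∘ F n c, h1.comp (by unfold F; fun_prop), fun z => h2 _, ?_,
    hsup.trans (preimage_mono h4), fun z hz => hF.continuousAt.eventually (h5 _ hz), ?_⟩
  · obtain ⟨R, hR⟩ := h3.isCompact.isBounded.subset_closedBall 0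
    refine HasCompactSupport.intro (isCompact_closedBall (0 : ℂ) (max 1 (R + ‖c‖))) fun z hz => ?_
    rw [mem_closedBall_zero_iff, not_le, max_lt_iff] at hz
    refine image_eq_zero_of_notMem_tsupport (f := u) fun h => ?_
    have h7 := mem_closedBall_zero_iff.mp (hR h)
    have h8 : ‖z‖ ≤ ‖z‖ ^ n := le_self_pow₀ hz.1.le hn0
    have h9 : ‖z‖ ^ n ≤ ‖F n c z‖ + ‖c‖ := by
      rw [← norm_pow]
      simpa using norm_sub_le (F n c z) c
    linarith [hz.2]
  · refine (XC3.energy hn c h1).trans ?_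
    rw [mul_pow, Real.sq_sqrt (Nat.cast_nonneg n), ENNReal.ofReal_mul (Nat.cast_nonneg n),
      ENNReal.ofReal_natCast]
    exact mul_le_mul_right h6 _

end KR73
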