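import Pool.Agent.Lib.KR73.Kit

/-! Block C4: the series law for nested test functions. -/

set_option autoImplicit false

open Filter Topology Set Metric Complex Bornology MeasureTheory N62a1eb23
open scoped Real ENNReal

namespace KR73

open Pool.Agent.Lib.MP_c35c17_an KN

namespace XC4

theorem sq_sum {E : Type} [NormedAddCommGroup E] (s : Finset ℕ) (v : ℕ → E)
    (h : ∀ i ∈ s, ∀ j ∈ s, i < j → v i = 0 ∨ v j = 0) :
    ‖∑ i ∈ s, v i‖ ^ 2 ≤ ∑ i ∈ s, ‖v i‖ ^ 2 := by
  by_cases h0 : ∀ i ∈ s, v i = 0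
  · rw [Finset.sum_eq_zero h0, norm_zero, zero_pow two_ne_zero]
    exact Finset.sum_nonneg fun _ _ => sq_nonneg _
  · push Not at h0
    obtain ⟨i, hi, h1⟩ := h0
    rw [Finset.sum_eq_single_of_mem i hi fun j hj hne => ?_]
    · exact Finset.single_le_sum (f := fun i => ‖v i‖ ^ 2) (fun _ _ => sq_nonneg _) hi
    · rcases lt_or_gt_of_ne hne with h2 | h2
      · exact (h j hj i hi h2).resolve_right h1
      · exact (h i hi j hj h2).resolve_left h1

theorem anti {A : ℕ → Set ℂ} {M : ℕ} (h : ∀ q < M, A (q + 1) ⊆ A q) {q q' : ℕ} (h1 : q ≤ q')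
    (h2 : q' ≤ M) : A q' ⊆ A q := by
  induction q', h1 using Nat.le_induction with
  | base => exact Subset.rfl
  | succ k _ ih => exact (h k h2).trans (ih (by omega))

end XC4

open XC4 in
theorem st_C4 : St_C4 := by
  intro K O M w h hn
  have hKO : ∀ q ≤ M, K q ⊆ O q := fun q hq => (h q hq).subset
  have hO : ∀ q < M, O (q + 1) ⊆ O q := fun q hq => (hn q hq).trans (hKO q hq.le)
  have hK : ∀ q < M, K (q + 1) ⊆ K q := fun q hq => (hKO _ hq).trans (hn q hq)
  choose! u h1 h2 h3 h4 h5 h6 using h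
  have hr : ∀ q ∈ Finset.range (M + 1), q ≤ M := fun q hq => Finset.mem_range_succ_iff.mp hq
  have hM : (0 : ℝ) < M + 1 := by positivity
  have hs : tsupport (fun z => ((M : ℝ) + 1)⁻¹ * ∑ q ∈ Finset.range (M + 1), u q z) ⊆
      ⋃ q ∈ Finset.range (M + 1), tsupport (u q) := by
    refine closure_minimal (fun z hz => ?_)
      (isClosed_biUnion_finset fun q _ => isClosed_tsupport _)
    obtain ⟨q, hq, h0⟩ := Finset.exists_ne_zero_of_sum_ne_zero (right_ne_zero_of_mul hz)
    exact mem_biUnion hq (subset_tsupport _ h0)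
  refine ⟨fun z => ((M : ℝ) + 1)⁻¹ * ∑ q ∈ Finset.range (M + 1), u q z,
    contDiff_const.mul (ContDiff.sum fun q hq => h1 q (hr q hq)), fun z => ⟨?_, ?_⟩, ?_, ?_,
    fun z hz => ?_, ?_⟩
  · exact mul_nonneg (by positivity) (Finset.sum_nonneg fun q hq => (h2 q (hr q hq) z).1)
  · rw [inv_mul_le_iff₀ hM]
    refine (Finset.sum_le_card_nsmul _ _ 1 fun q hq => (h2 q (hr q hq) z).2).trans_eq ?_
    simp
  · exact ((Finset.range (M + 1)).isCompact_biUnion fun q hq => h3 q (hr q hq)).of_isClosed_subset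
      (isClosed_tsupport _) hs
  · exact hs.trans (iUnion₂_subset fun q hq =>
      (h4 q (hr q hq)).trans (anti hO (Nat.zero_le q) (hr q hq)))
  · have : ∀ᶠ y in 𝓝 z, ∀ q ∈ Finset.range (M + 1), u q y = 1 :=
      (eventually_all_finset _).mpr fun q hq => h5 q (hr q hq) z (anti hK (hr q hq) le_rfl hz)
    filter_upwards [this] with y hy
    rw [Finset.sum_congr rfl hy]
    simp [hM.ne']
  · have hd : ∀ q ∈ Finset.range (M + 1), ∀ z, DifferentiableAt ℝ (u q) z := fun q hq z =>
      (h1 q (hr q hq)).differentiable one_ne_zero z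
    have hp : ∀ z, ENNReal.ofReal (‖fderiv ℝ
        (fun z => ((M : ℝ) + 1)⁻¹ * ∑ q ∈ Finset.range (M + 1), u q z) z‖ ^ 2) ≤
        ENNReal.ofReal (((M : ℝ) + 1)⁻¹ ^ 2) *
          ∑ q ∈ Finset.range (M + 1), ENNReal.ofReal (‖fderiv ℝ (u q) z‖ ^ 2) := by
      intro z
      rw [fderiv_const_mul (DifferentiableAt.fun_sum fun q hq => hd q hq z),
        fderiv_fun_sum fun q hq => hd q hq z, norm_smul, mul_pow, Real.norm_eq_abs, sq_abs,
        ENNReal.ofReal_mul (sq_nonneg _), ← ENNReal.ofReal_sum_of_nonneg fun _ _ => sq_nonneg _]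
      refine mul_le_mul_right (ENNReal.ofReal_le_ofReal (sq_sum _ _ fun i hi j hj hij => ?_)) _
      by_cases hz : z ∈ tsupport (u j)
      · have hj' := hr j hj
        exact .inl (fderiv_eq_zero_of_one (h5 i (hr i hi) z
          (hn i (by omega) (anti hO hij hj' (h4 j hj' hz)))))
      · exact .inr (fderiv_eq_zero_of_notMem hz)
    have hm : ∀ q ∈ Finset.range (M + 1),
        Measurable fun z => ENNReal.ofReal (‖fderiv ℝ (u q) z‖ ^ 2) := fun q hq =>
      (((h1 q (hr q hq)).continuous_fderiv one_ne_zero).norm.pow 2).measurable.ennreal_ofReal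
    refine (lintegral_mono hp).trans ?_
    rw [lintegral_const_mul' _ _ ENNReal.ofReal_ne_top, lintegral_finsetSum _ hm]
    refine (mul_le_mul_right (Finset.sum_le_sum fun q hq => h6 q (hr q hq)) _).trans_eq ?_
    rw [← ENNReal.ofReal_sum_of_nonneg fun _ _ => sq_nonneg _, ← ENNReal.ofReal_mul (sq_nonneg _),
      div_pow, Real.sq_sqrt hM.le]
    congr 1
    simp only [Finset.sum_const, Finset.card_range, nsmul_eq_mul]
    push_cast
    field_simp

end KR73
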