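import Pool.Agent.Lib.KR73.Kit

/-! Subadditivity of the square root of capacity. -/

set_option autoImplicit false

open Filter Topology Set Metric Complex Bornology MeasureTheory N62a1eb23
open scoped Real ENNReal

namespace KR73

open Pool.Agent.Lib.MP_c35c17_an KN

namespace XC5

theorem sq_le {a b w w' : ℝ} (hw : 0 < w) (hw' : 0 < w') :
    (a + b) ^ 2 ≤ (1 + w' / w) * a ^ 2 + (1 + w / w') * b ^ 2 := by
  have h : (1 + w' / w) * a ^ 2 + (1 + w / w') * b ^ 2 - (a + b) ^ 2 =
      (w' * a - w * b) ^ 2 / (w * w') := by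
    field_simp
    ring
  have h2 : 0 ≤ (w' * a - w * b) ^ 2 / (w * w') := by positivity
  linarith

theorem norm_le {u v : ℂ → ℝ} (hu : ContDiff ℝ 1 u) (hv : ContDiff ℝ 1 v)
    (h1 : ∀ z, u z ∈ Icc (0 : ℝ) 1) (h2 : ∀ z, v z ∈ Icc (0 : ℝ) 1) (z : ℂ) :
    ‖fderiv ℝ (fun z => u z + v z - u z * v z) z‖ ≤ ‖fderiv ℝ u z‖ + ‖fderiv ℝ v z‖ := by
  have du := (hu.differentiable one_ne_zero z).hasFDerivAt
  have dv := (hv.differentiable one_ne_zero z).hasFDerivAt
  have d : HasFDerivAt (fun z => u z + v z - u z * v z)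
      ((1 - v z) • fderiv ℝ u z + (1 - u z) • fderiv ℝ v z) z := by
    refine ((du.add dv).sub (du.mul dv)).congr_fderiv ?_
    ext1 t
    simp
    ring
  rw [d.fderiv]
  refine (norm_add_le _ _).trans (add_le_add ?_ ?_)
  · rw [norm_smul, Real.norm_of_nonneg (by linarith [(h2 z).2])]
    exact mul_le_of_le_one_left (norm_nonneg _) (by linarith [(h2 z).1])
  · rw [norm_smul, Real.norm_of_nonneg (by linarith [(h1 z).2])]
    exact mul_le_of_le_one_left (norm_nonneg _) (by linarith [(h1 z).1])

theorem meas {u : ℂ → ℝ} (hu : ContDiff ℝ 1 u) :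
    Measurable fun z => ENNReal.ofReal (‖fderiv ℝ u z‖ ^ 2) :=
  ((hu.continuous_fderiv one_ne_zero).norm.pow 2).measurable.ennreal_ofReal

end XC5

theorem st_C5 : St_C5 := by
  rintro K K' O w w' hw hw' ⟨u, a1, a2, a3, a4, a5, a6⟩ ⟨v, b1, b2, b3, b4, b5, b6⟩
  have hsup : Function.support (fun z => u z + v z - u z * v z) ⊆ tsupport u ∪ tsupport v := by
    intro z hz
    by_contra h
    rw [mem_union, not_or] at h
    apply hz
    simp [image_eq_zero_of_notMem_tsupport h.1, image_eq_zero_of_notMem_tsupport h.2]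
  have hts : tsupport (fun z => u z + v z - u z * v z) ⊆ tsupport u ∪ tsupport v :=
    closure_minimal hsup ((isClosed_tsupport u).union (isClosed_tsupport v))
  refine ⟨fun z => u z + v z - u z * v z, (a1.add b1).sub (a1.mul b1), fun z => ?_, ?_,
    hts.trans (union_subset a4 b4), ?_, ?_⟩
  · obtain ⟨p1, p2⟩ := a2 z
    obtain ⟨q1, q2⟩ := b2 z
    constructor <;> nlinarith
  · exact (IsCompact.union a3 b3).of_isClosed_subset (isClosed_tsupport _) hts
  · rintro z (hz | hz)
    · filter_upwards [a5 z hz] with y hy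
      rw [hy]; ring
    · filter_upwards [b5 z hz] with y hy
      rw [hy]; ring
  · have c1 : 0 ≤ 1 + w' / w := by positivity
    have c2 : 0 ≤ 1 + w / w' := by positivity
    calc Dir (fun z => u z + v z - u z * v z)
        ≤ ∫⁻ z, (ENNReal.ofReal (1 + w' / w) * ENNReal.ofReal (‖fderiv ℝ u z‖ ^ 2) +
            ENNReal.ofReal (1 + w / w') * ENNReal.ofReal (‖fderiv ℝ v z‖ ^ 2)) := by
          refine lintegral_mono fun z => ?_
          rw [← ENNReal.ofReal_mul c1, ← ENNReal.ofReal_mul c2,
            ← ENNReal.ofReal_add (by positivity) (by positivity)]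
          refine ENNReal.ofReal_le_ofReal (le_trans ?_ (XC5.sq_le hw hw'))
          exact pow_le_pow_left₀ (norm_nonneg _) (XC5.norm_le a1 b1 a2 b2 z) 2
      _ = ENNReal.ofReal (1 + w' / w) * Dir u + ENNReal.ofReal (1 + w / w') * Dir v := by
          rw [lintegral_add_left ((XC5.meas a1).const_mul _), lintegral_const_mul _ (XC5.meas a1),
            lintegral_const_mul _ (XC5.meas b1)]
          rfl
      _ ≤ ENNReal.ofReal (1 + w' / w) * ENNReal.ofReal (w ^ 2) +
            ENNReal.ofReal (1 + w / w') * ENNReal.ofReal (w' ^ 2) := by gcongr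
      _ = ENNReal.ofReal ((w + w') ^ 2) := by
          rw [← ENNReal.ofReal_mul c1, ← ENNReal.ofReal_mul c2,
            ← ENNReal.ofReal_add (by positivity) (by positivity)]
          congr 1
          field_simp
          ring

end KR73
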