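import Pool.Agent.Lib.KR73.Kit

/-! Filling in a bounded open set: a test function for the frontier gives one for the set. -/

set_option autoImplicit false

open Filter Topology Set Metric Complex Bornology MeasureTheory N62a1eb23
open scoped Real ENNReal

namespace KR73

open Pool.Agent.Lib.MP_c35c17_an KN

theorem st_C6 : St_C6 := by
  classical
  intro P O w hP hb hO h
  have hf := h.subset
  obtain ⟨u, h1, h2, h3, h4, h5, h6⟩ := h
  have hc : ∀ z, z ∈ closure P → z ∈ P ∨ z ∈ frontier P := fun z hz =>
    (em (z ∈ P)).imp id fun h => by rw [hP.frontier_eq]; exact ⟨hz, h⟩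
  set v : ℂ → ℝ := fun z => if z ∈ P then 1 else u z with hv
  have e1 : ∀ z ∈ closure P, v =ᶠ[𝓝 z] fun _ => 1 := fun z hz => by
    rcases hc z hz with h | h
    · filter_upwards [hP.mem_nhds h] with y hy
      exact if_pos hy
    · filter_upwards [h5 z h] with y hy
      simp only [hv]
      split_ifs
      · rfl
      · exact hy
  have e2 : ∀ z ∉ closure P, v =ᶠ[𝓝 z] u := fun z hz => by
    filter_upwards [isClosed_closure.isOpen_compl.mem_nhds hz] with y hy
    exact if_neg fun h => hy (subset_closure h)
  have e3 : tsupport v ⊆ closure P ∪ tsupport u := by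
    refine closure_minimal (fun z hz => ?_) (isClosed_closure.union (isClosed_tsupport u))
    by_cases h : z ∈ P
    · exact Or.inl (subset_closure h)
    · refine Or.inr (subset_tsupport u ?_)
      simpa [hv, h] using hz
  refine ⟨v, contDiff_iff_contDiffAt.mpr fun z => ?_, fun z => ?_, ?_, ?_,
    fun z hz => e1 z (subset_closure hz), le_trans (lintegral_mono fun z => ?_) h6⟩
  · by_cases hz : z ∈ closure P
    · exact contDiffAt_const.congr_of_eventuallyEq (e1 z hz)
    · exact h1.contDiffAt.congr_of_eventuallyEq (e2 z hz)
  · simp only [hv]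
    split_ifs
    · exact ⟨zero_le_one, le_rfl⟩
    · exact h2 z
  · exact (hb.isCompact_closure.union h3).of_isClosed_subset (isClosed_tsupport v) e3
  · exact e3.trans (union_subset (fun z hz => (hc z hz).elim (fun h => hO h) fun h => hf h) h4)
  · by_cases hz : z ∈ closure P
    · simp [fderiv_eq_zero_of_one (e1 z hz)]
    · rw [(e2 z hz).fderiv_eq]

end KR73
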