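import Pool.Agent.Lib.KR73.Kit

/-! Block COL: angles near a corner angle have the letters of the cylinder. -/

set_option autoImplicit false

open Filter Topology Set Metric Complex Bornology MeasureTheory N62a1eb23
open scoped Real ENNReal

namespace KR73

open Pool.Agent.Lib.MP_c35c17_an KN

theorem st_COL (hGAP : St_GAP) : St_COL := by
  intro n θ d T i α ξ hn hNR hT ⟨x, hx1, _, _, hx4⟩ hξ y hy
  unfold ss at hT
  unfold ee at hξ
  have hN := npow_pos hn (y + 1)
  have h3 := npow_pos hn (3 * d)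
  have close : (n : ℝ) ^ (y + 1) * |ξ - α| < ((n : ℝ) ^ (3 * d))⁻¹ / 2 := by
    have h1 : (n : ℝ) ^ (y + 1) * (n : ℝ) ^ (3 * d) ≤ (n : ℝ) ^ (4 * d + 2) := by
      rw [← pow_add]
      exact npow_mono hn (by omega)
    have h2 := mul_le_mul_of_nonneg_right h1 (abs_nonneg (ξ - α))
    rw [← one_div, div_right_comm, lt_div_iff₀ h3]
    linarith
  have key : ∀ m : ℤ, ¬ |(n : ℝ) ^ (y + 1) * α - θ - m| ≤ (n : ℝ) ^ (y + 1) * |ξ - α| := by
    intro m hm
    obtain ⟨j, hj, hne⟩ := hNR (i + (y + 1)) (by omega) (by omega)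
    have h1 := hGAP n θ d ((n : ℝ) ^ (y + 1) * α) m hn (hNR.mono (by omega)) ⟨j, hj, by
      rwa [lts_pow, hx4 _ (by omega), ← add_assoc]⟩
    linarith
  refine ⟨fun ⟨m, hm⟩ => key m (le_of_eq ?_), ?_⟩
  · rw [abs_sub_comm ξ, ← abs_of_pos hN, ← abs_mul, abs_of_pos hN, mul_sub, hm, sub_sub]
  rw [← hx4 y (by omega)]
  by_contra hne
  rcases le_total ξ α with h | h
  · obtain ⟨m, h1, h2⟩ := exists_cut h hne
    refine key m ?_
    rw [abs_of_nonneg (by linarith), abs_of_nonpos (by linarith)]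
    linarith
  · obtain ⟨m, h1, h2⟩ := exists_cut h (Ne.symm hne)
    refine key m ?_
    rw [abs_of_nonpos (by linarith), abs_of_nonneg (by linarith)]
    linarith

end KR73
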