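import Pool.Agent.Lib.KR73.Kit

/-! Block COLC: the collar pieces have bounded capacity. -/

set_option autoImplicit false

open Filter Topology Set Metric Complex Bornology MeasureTheory N62a1eb23
open scoped Real ENNReal

namespace KR73

open Pool.Agent.Lib.MP_c35c17_an KN

namespace XCOLC

/-- an open box -/
def Ob (n : ℕ) (α N : ℝ) : Set ℂ := {ζ | 1 / 2 < N * ζ.re ∧ N * ζ.re < n + 1 ∧ N * |ζ.im - α| < 1 / 2}

/-- a closed box -/
def Kb (n : ℕ) (α N : ℝ) : Set ℂ := {ζ | 1 ≤ N * ζ.re ∧ N * ζ.re ≤ n ∧ N * |ζ.im - α| ≤ 1 / 4}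

theorem Ob_open (n : ℕ) (α N : ℝ) : IsOpen (Ob n α N) := by
  unfold Ob
  refine IsOpen.and (isOpen_lt ?_ ?_) (IsOpen.and (isOpen_lt ?_ ?_) (isOpen_lt ?_ ?_)) <;> fun_prop

theorem Kb_compact (n : ℕ) : IsCompact (Kb n 0 1) := by
  have hc : IsClosed (Kb n 0 1) := by
    unfold Kb
    refine IsClosed.and (isClosed_le ?_ ?_)
      (IsClosed.and (isClosed_le ?_ ?_) (isClosed_le ?_ ?_)) <;> fun_prop
  refine isCompact_of_isClosed_isBounded hc
    ((isBounded_closedBall (x := (0 : ℂ)) (r := n + 1)).subset fun ζ ⟨h1, h2, h3⟩ => ?_)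
  rw [one_mul] at h1 h2
  rw [one_mul, sub_zero] at h3
  rw [mem_closedBall_zero_iff]
  refine (norm_le_abs_re_add_abs_im ζ).trans ?_
  rw [abs_of_nonneg (by linarith)]
  linarith

theorem cap_box (hC2 : St_C2) {n : ℕ} {w : ℝ} (h : Cap (Kb n 0 1) (Ob n 0 1) w) (α : ℝ) {N : ℝ}
    (hN : 0 < N) : Cap (Kb n α N) (Ob n α N) w := by
  have h0 : (N : ℂ) ≠ 0 := by exact_mod_cast hN.ne'
  refine (hC2 _ _ w (fun z => z / N + α * I) (Ob_open n 0 1) (by fun_prop)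
    (fun z _ z' _ e => by simpa [h0] using e) h).mono (fun ζ ⟨h1, h2, h3⟩ => ?_) ?_
  · refine ⟨N * (ζ - α * I), ⟨by simpa using h1, by simpa using h2, ?_⟩, ?_⟩
    · simpa [abs_mul, abs_of_pos hN] using h3
    · simp only
      field_simp
      ring
  · rintro _ ⟨z, ⟨h1, h2, h3⟩, rfl⟩
    have e1 : N * (z / N + α * I).re = z.re := by simp; field_simp
    have e2 : N * |(z / N + α * I).im - α| = |z.im| := by
      simp [abs_div, abs_of_pos hN]; field_simp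
    rw [one_mul] at h1 h2
    rw [one_mul, sub_zero] at h3
    exact ⟨by rwa [e1], by rwa [e1], by rwa [e2]⟩

end XCOLC

open XCOLC in
theorem st_COLC {n : ℕ} (hn : 2 ≤ n) (hC0 : St_C0) (hC2 : St_C2) (hCOL : St_COL)
    (hLET : St_LET n) : St_COLC n := by
  obtain ⟨w, hw, h⟩ := hC0 _ _ (Kb_compact n) (Ob_open n 0 1) fun ζ ⟨h1, h2, h3⟩ =>
    ⟨by linarith, by linarith, by linarith⟩
  refine ⟨w, hw, fun d T μ i hi α q hα hq hT => ?_⟩
  have hN := npow_pos hn q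
  have h1 : (1 : ℝ) ≤ (n : ℝ) ^ q := by simpa using npow_mono hn (Nat.zero_le q)
  have hre : ∀ ζ ∈ Ob n α ((n : ℝ) ^ q), 0 < ζ.re := fun ζ hζ =>
    (mul_pos_iff_of_pos_left hN).1 (lt_trans one_half_pos hζ.1)
  refine (hC2 _ _ w (Bc μ.Φ) (Ob_open n α _) ((Bc_diff μ.cj).mono hre)
    (Bc_injOn μ.cj (α := α - 1 / 2) fun ζ hζ => ?_) (cap_box hC2 h α hN)).mono Subset.rfl ?_
  · have h2 := abs_lt.1 ((le_mul_of_one_le_left (abs_nonneg _) h1).trans_lt hζ.2.2)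
    exact ⟨hre ζ hζ, by linarith [h2.1], by linarith [h2.2]⟩
  · rintro _ ⟨ζ, hζ, rfl⟩
    have h0 := hre ζ hζ
    obtain ⟨h2, h3, h4⟩ := hζ
    have h5 := μ.g_lt (l := 0) (q := q) (by omega)
    rw [pow_zero, one_mul, inv_eq_one_div, div_div, lt_div_iff₀ (by positivity)] at h5
    have h6 : μ.g < ζ.re := by
      by_contra h6
      nlinarith [mul_le_mul_of_nonneg_left (not_lt.1 h6) hN.le]
    have h7 : (n : ℝ) ^ 2 ≤ (n : ℝ) ^ q := npow_mono hn (by unfold ee at hq; omega)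
    have h8 : (2 : ℝ) ≤ n := by exact_mod_cast hn
    have h9 : ζ.re < 1 := by
      by_contra h9
      nlinarith [mul_le_mul_of_nonneg_left (not_lt.1 h9) hN.le]
    refine ⟨(hLET d T μ i d ζ.re ζ.im h6).2 (hCOL n μ.ϑ d (2 * T) i α ζ.im hn μ.nr
      (by have := μ.ss_le; omega) hα ((mul_le_mul_of_nonneg_right (npow_mono hn hq)
        (abs_nonneg _)).trans_lt h4)), fun h10 => ?_⟩
    rw [pow_zero, inv_one] at h10
    exact h9.not_ge ((mem_Ext (t := ζ.re) (x := ζ.im) μ.cj one_pos h0).1 h10)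

end KR73
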