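import Pool.Agent.Lib.KR73.Kit

/-! Block CORN: there are few corner angles modulo one. -/

set_option autoImplicit false

open Set

namespace KR73

open Pool.Agent.Lib.MP_c35c17_an KN

theorem st_CORN : St_CORN := by
  classical
  intro n θ d i hn
  have : NeZero n := ⟨by omega⟩
  have hv : ∀ y < ss d, vv n θ (i + ss d) (i + y) = nu n θ (i + y) := fun y hy => by
    rw [vv, Nat.mod_eq_of_lt (by omega)]
  refine ⟨((Finset.Ico (3 * d + 4) (ss d)) ×ˢ (Finset.univ : Finset (ZMod n))).image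
    fun p => bh n θ (i + ss d) i p.1 (gh n θ p.2 θ), ?_, ?_, ?_⟩
  · refine Finset.card_image_le.trans (le_of_eq ?_)
    rw [Finset.card_product, Nat.card_Ico, Finset.card_univ, ZMod.card, ss, mul_comm]
    congr 1
    omega
  · intro α hα
    obtain ⟨⟨x, a⟩, hp, rfl⟩ := Finset.mem_image.mp hα
    obtain ⟨h1, h2⟩ := Finset.mem_Ico.mp (Finset.mem_product.mp hp).1
    refine ⟨x, h1, h2, ?_, fun y hy => (lts_bh hn hy).trans (hv y (hy.trans h2))⟩
    rw [pow_succ', mul_assoc]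
    exact ((bh_cg hn).mul_nat n).trans (gh_cg hn)
  · rintro α ⟨x, h1, h2, ⟨m, hm⟩, h3⟩
    refine ⟨_, Finset.mem_image.mpr ⟨(x, lt n θ ((n : ℝ) ^ x * α)), Finset.mem_product.mpr
      ⟨Finset.mem_Ico.mpr ⟨h1, h2⟩, Finset.mem_univ _⟩, rfl⟩, ?_⟩
    have h4 := gh_back (θ := θ) hn ((n : ℝ) ^ x * α)
    rw [← mul_assoc, ← pow_succ', hm, gh_add_int hn] at h4
    exact (bh_back hn fun y hy => (h3 y hy).trans (hv y (hy.trans h2)).symm).symm.trans
      ((h4.symm.trans (cg_add_int _ m)).bh hn)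

end KR73
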