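import Pool.Agent.Lib.KR73.Kit

/-! Constants of the parameter. -/

set_option autoImplicit false

open Filter Topology Set Metric Complex Bornology MeasureTheory N62a1eb23
open scoped Real ENNReal

namespace KR73

open Pool.Agent.Lib.MP_c35c17_an KN

namespace XCST

variable {n : ℕ} {c : ℂ} {Φ : ℂ → ℂ}

theorem level (h : L.Bot n c 1 Φ) : ∃ M : ℝ, 0 ≤ M ∧ ∀ ζ : ℂ, ζ.re = 1 → ‖Bc Φ ζ‖ ≤ M := by
  have h1 : (1 : ℝ) < Real.exp (2 * π) := Real.one_lt_exp_iff.mpr (by positivity)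
  have h2 : sphere (0 : ℂ) (Real.exp (2 * π)) ⊆ {w | 1 < ‖w‖} := fun w hw => by
    rw [mem_sphere_zero_iff_norm] at hw
    exact h1.trans_eq hw.symm
  obtain ⟨M, hM⟩ := (isCompact_sphere (0 : ℂ) (Real.exp (2 * π))).exists_bound_of_continuousOn
    (h.diff.continuousOn.mono h2)
  refine ⟨max M 0, le_max_right _ _, fun ζ hζ => (hM _ ?_).trans (le_max_left _ _)⟩
  rw [mem_sphere_zero_iff_norm, norm_chart, hζ, mul_one]

theorem outside (h : L.Bot n c 1 Φ) (h1 : IsClosed (Ext Φ 1))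
    (h2 : IsOpen (Bc Φ '' {ζ | 1 < ζ.re})) : ∃ R : ℝ, 1 ≤ R ∧ (Ext Φ 1)ᶜ ⊆ ball 0 R := by
  obtain ⟨M, h0, hM⟩ := level h
  have hsub : Bc Φ '' {ζ | 1 < ζ.re} ⊆ Ext Φ 1 :=
    image_mono fun ζ (hζ : 1 < ζ.re) => (hζ.le : 1 ≤ ζ.re)
  have h3 : {z : ℂ | M < ‖z‖} ⊆ Bc Φ '' {ζ | 1 < ζ.re} := by
    refine (L.ext_conn h0).subset_left_of_subset_union h2 h1.isOpen_compl
      (disjoint_compl_right.mono_left hsub) (fun z hz => ?_) ?_
    · by_cases hz1 : z ∈ Ext Φ 1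
      · obtain ⟨ζ, hζ, rfl⟩ := hz1
        rcases eq_or_lt_of_le (show 1 ≤ ζ.re from hζ) with e | e
        · exact absurd (hM ζ e.symm) (not_le.mpr hz)
        · exact Or.inl ⟨ζ, e, rfl⟩
      · exact Or.inr hz1
    · obtain ⟨t, h4, h5⟩ := (((Bc_tendsto h 0).eventually (eventually_gt_atTop M)).and
        (eventually_gt_atTop 1)).exists
      exact ⟨_, h4, ⟨t, 0⟩, h5, rfl⟩
  refine ⟨M + 1, by linarith, fun z hz => ?_⟩
  rw [mem_ball_zero_iff]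
  by_contra h4
  exact hz (hsub (h3 (show M < ‖z‖ by linarith)))

end XCST

theorem st_CST {n : ℕ} (hn : 2 ≤ n) (hEXT : St_EXT n) : St_CST n := by
  intro c hc Φ h
  obtain ⟨h1, h2, -⟩ := hEXT c hc Φ h
  obtain ⟨R, hR, hb⟩ := XCST.outside h (h1 1 one_pos) (h2 1 zero_le_one)
  have hK : IsCompact (closedBall (0 : ℂ) R \ Bc Φ '' {ζ | 1 / 4 < ζ.re}) :=
    (isCompact_closedBall 0 R).diff (h2 _ (by norm_num))
  have hd : Disjoint (closedBall (0 : ℂ) R \ Bc Φ '' {ζ | 1 / 4 < ζ.re}) (Ext Φ (1 / 2)) := by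
    refine disjoint_left.mpr fun z hz hz' => hz.2 (image_mono (fun ζ hζ => ?_) hz')
    have h3 : 1 / 2 ≤ ζ.re := hζ
    show 1 / 4 < ζ.re
    linarith
  obtain ⟨δ, hδ, hd'⟩ := hd.exists_thickenings hK (h1 _ (by norm_num))
  refine ⟨R, δ, hR, hδ, hb, fun j p hp => ?_⟩
  have hm : (F n c)^[j] c ∈ closedBall (0 : ℂ) R \ Bc Φ '' {ζ | 1 / 4 < ζ.re} := by
    refine ⟨ball_subset_closedBall (hb ?_), ?_⟩
    · rintro ⟨ζ, hζ, e⟩
      exact orbit_notMem hn hc h j (one_pos.trans_le hζ) e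
    · rintro ⟨ζ, hζ, e⟩
      exact orbit_notMem hn hc h j (lt_trans (by norm_num) hζ) e
  by_contra h3
  refine disjoint_left.mp hd' (mem_thickening_iff.mpr ⟨_, hm, ?_⟩) (self_subset_thickening hδ _ hp)
  rw [dist_eq_norm]
  exact not_le.mp h3

end KR73
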