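import Pool.Agent.Lib.KR73.Kit

/-! The final estimates. -/

set_option autoImplicit false

open Filter Topology Set Metric Complex Bornology MeasureTheory N62a1eb23
open scoped Real ENNReal

namespace KR73

open Pool.Agent.Lib.MP_c35c17_an KN

namespace END73

theorem log_sep {n : ℕ} (hn : 2 ≤ n) {R r₀ : ℝ} (C : ℝ) (hR : 1 ≤ R) (hr : 0 < r₀) :
    ∃ K > 0, ∀ d : ℕ, 1 ≤ d → 0 < sep n d R r₀ (C * (d : ℝ) ^ 4) ∧
      Real.log (8 * R) - K * (d : ℝ) ^ 8 ≤ Real.log (sep n d R r₀ (C * (d : ℝ) ^ 4)) := by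
  have h1 : (1 : ℝ) ≤ n * R ^ (n - 1) :=
    one_le_mul_of_one_le_of_one_le (by linarith [ntwo hn]) (one_le_pow₀ hR)
  have h2 := Real.log_nonneg h1
  have h3 : 0 ≤ Real.log (8 * R) := Real.log_nonneg (by linarith)
  refine ⟨1 + Real.log (8 * R) + |Real.log r₀| + 6 * Real.log (n * R ^ (n - 1)) + 2 * π * C ^ 2,
    by positivity, fun d hd => ⟨by rw [sep]; positivity, ?_⟩⟩
  have h4 : (1 : ℝ) ≤ d := by exact_mod_cast hd
  have h5 : (d : ℝ) ≤ (d : ℝ) ^ 8 := le_self_pow₀ h4 (by norm_num)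
  rw [sep, Real.log_mul (by positivity) (Real.exp_ne_zero _), Real.log_exp,
    Real.log_div hr.ne' (by positivity), Real.log_pow, ee]
  push_cast
  have h6 := mul_le_mul_of_nonneg_left (h4.trans h5) h3
  have h7 := mul_le_mul_of_nonneg_left (h4.trans h5) (abs_nonneg (Real.log r₀))
  have h8 := mul_le_mul_of_nonneg_left (show 4 * (d : ℝ) + 2 ≤ 6 * (d : ℝ) ^ 8 by linarith) h2
  have h9 := neg_abs_le (Real.log r₀)
  nlinarith

theorem quot {d : ℕ} (hd : 9 ≤ d) {a : ℕ} (ha : 1 ≤ a) :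
    (d : ℝ) ^ a / 9 ≤ ((d ^ (a + 1) / ss d : ℕ) : ℝ) := by
  have h1 : d ^ a ≤ 9 * (d ^ (a + 1) / ss d) := by
    have h2 : 0 < ss d := by rw [ss]; omega
    have h3 := Nat.lt_div_mul_add (a := d ^ (a + 1)) h2
    have h4 : ss d ≤ 5 * d := by rw [ss]; omega
    have h5 : d ≤ d ^ a := Nat.le_self_pow (by omega) d
    have h6 : d ^ a * d < (d ^ (a + 1) / ss d + 1) * (5 * d) := by
      rw [← pow_succ]
      exact h3.trans_le (by rw [← add_one_mul]; exact Nat.mul_le_mul_left _ h4)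
    have h7 : d ^ a < (d ^ (a + 1) / ss d + 1) * 5 :=
      lt_of_mul_lt_mul_right (by rwa [mul_assoc]) (Nat.zero_le d)
    omega
  rw [div_le_iff₀' (by norm_num)]
  exact_mod_cast h1

theorem st {n : ℕ} (hn : 2 ≤ n) : St_END n := by
  intro c hc R r₀ C hR hr hC h
  obtain ⟨K, hK, hs⟩ := log_sep hn C hR hr
  refine cor_jump hn hc fun ε hε => ?_
  obtain ⟨d, ⟨h1, h2⟩, h3, h4⟩ := (h.and_eventually ((eventually_ge_atTop 9).and
    (tendsto_natCast_atTop_atTop.eventually_ge_atTop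
      (9 * C ^ 2 * (100 + 2 * K + 1000 + 2 / ε))))).exists
  have hd : (9 : ℝ) ≤ d := by exact_mod_cast h3
  have hd1 : (1 : ℝ) ≤ d := by linarith
  obtain ⟨h5, h6⟩ := hs d (by omega)
  have h8R : 0 ≤ Real.log (8 * R) := Real.log_nonneg (by linarith)
  have hε' : 0 < 2 / ε := by positivity
  have key : ∀ a : ℕ, a + 10 ≤ 28 → 0 < ‖dF n c (d ^ (a + 10)) c‖ ∧
      (K + 1000 + 2 / ε) * (d : ℝ) ^ (a + 8) / (d : ℝ) ^ 8 + K * (d : ℝ) ^ (a + 8) / (d : ℝ) ^ 8 -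
        K * (d : ℝ) ^ 8 ≤ Real.log ‖dF n c (d ^ (a + 10)) c‖ ∨ a < 8 := fun a ha => by
    rcases lt_or_ge a 8 with h0 | h0
    · exact Or.inr h0
    have h7 := quot h3 (a := a + 9) (by omega)
    set M := d ^ (a + 9 + 1) / ss d with hM
    have h9 : 0 < (d : ℝ) ^ (a + 8) := by positivity
    have h10 : C ^ 2 * (100 + 2 * K + 1000 + 2 / ε) * (d : ℝ) ^ (a + 8) ≤ M := by
      refine le_trans ?_ h7
      rw [le_div_iff₀ (by norm_num), pow_succ (d : ℝ) (a + 8)]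
      nlinarith
    have h11 : (d : ℝ) ^ 8 ≤ (d : ℝ) ^ (a + 8) := pow_le_pow_right₀ hd1 (by omega)
    have h12 := h2 (d ^ (a + 10)) M (Nat.pow_le_pow_right (by omega) ha) (Nat.div_mul_le_self _ _)
      (by
        refine le_trans ?_ h10
        have h13 : 100 * (C * (d : ℝ) ^ 4) ^ 2 = C ^ 2 * 100 * (d : ℝ) ^ 8 := by ring
        rw [h13]
        gcongr
        linarith)
    have h14 : 0 < ‖dF n c (d ^ (a + 10)) c‖ :=
      pos_of_mul_pos_right (h5.trans_le h12) (by positivity)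
    refine Or.inl ⟨h14, ?_⟩
    have h15 := Real.log_le_log h5 h12
    rw [Real.log_mul (by positivity) h14.ne', Real.log_mul (by positivity) (Real.exp_ne_zero _),
      Real.log_exp] at h15
    have h16 : (2 * K + 1000 + 2 / ε) * (d : ℝ) ^ (a + 8) / (d : ℝ) ^ 8 ≤
        M / (C * (d : ℝ) ^ 4) ^ 2 := by
      rw [show (C * (d : ℝ) ^ 4) ^ 2 = C ^ 2 * (d : ℝ) ^ 8 by ring, ← div_div]
      gcongr
      rw [le_div_iff₀' (by positivity)]
      nlinarith [mul_pos (pow_pos hC 2) h9]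
    have h17 : (2 * K + 1000 + 2 / ε) * (d : ℝ) ^ (a + 8) / (d : ℝ) ^ 8 =
      (K + 1000 + 2 / ε) * (d : ℝ) ^ (a + 8) / (d : ℝ) ^ 8 +
        K * (d : ℝ) ^ (a + 8) / (d : ℝ) ^ 8 := by ring
    linarith
  obtain ⟨k1, k2⟩ := (key 8 (by norm_num)).resolve_right (lt_irrefl 8)
  obtain ⟨-, k4⟩ := (key 18 le_rfl).resolve_right (by norm_num)
  have e1 : ∀ y : ℝ, y * (d : ℝ) ^ (8 + 8) / (d : ℝ) ^ 8 = y * (d : ℝ) ^ 8 := fun y => by
    field_simp
  have e2 : ∀ y : ℝ, y * (d : ℝ) ^ (18 + 8) / (d : ℝ) ^ 8 = y * (d : ℝ) ^ 18 := fun y => by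
    field_simp
  rw [e1, e1] at k2
  rw [e2, e2] at k4
  obtain ⟨N, hN⟩ : ∃ N, N + 1 = d ^ 28 := ⟨d ^ 28 - 1, Nat.sub_add_cancel (Nat.one_le_pow _ _ (by omega))⟩
  have hN' : (N : ℝ) + 1 = (d : ℝ) ^ 28 := by exact_mod_cast hN
  have p8 : (d : ℝ) ≤ (d : ℝ) ^ 8 := le_self_pow₀ hd1 (by norm_num)
  have p18 : (d : ℝ) ^ 8 ≤ (d : ℝ) ^ 18 := pow_le_pow_right₀ hd1 (by norm_num)
  refine ⟨d ^ 18, N, fun k hk hk' => ?_, ?_⟩
  · refine le_trans ?_ (mul_le_mul_of_nonneg_left (h1 k hk (by omega)) k1.le)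
    calc (N : ℝ) ^ 34 ≤ ((d : ℝ) ^ 28) ^ 34 := by gcongr; linarith
      _ = Real.exp (952 * Real.log d) := by
          rw [← pow_mul, show (952 : ℝ) = ((28 * 34 : ℕ) : ℝ) by norm_num, Real.exp_nat_mul,
            Real.exp_log (by linarith)]
      _ ≤ Real.exp (Real.log ‖dF n c (d ^ (8 + 10)) c‖ +
            Real.log (sep n d R r₀ (C * (d : ℝ) ^ 4))) := by
          have h18 := Real.log_le_sub_one_of_pos (show (0 : ℝ) < d by linarith)
          have h19 : 0 ≤ 2 / ε * (d : ℝ) ^ 8 := by positivity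
          exact Real.exp_le_exp.mpr (by nlinarith)
      _ = _ := by rw [Real.exp_add, Real.exp_log k1, Real.exp_log h5]
  · rw [hN]
    push_cast
    have h20 : 2 / ε * (d : ℝ) ^ 18 ≤ Real.log ‖dF n c (d ^ (18 + 10)) c‖ := by
      nlinarith [mul_le_mul_of_nonneg_left p18 hK.le, mul_pos hK (pow_pos (show (0 : ℝ) < d by linarith) 18)]
    have h21 := mul_le_mul_of_nonneg_left h20 hε.le
    rw [← mul_assoc, mul_div_cancel₀ _ hε.ne'] at h21
    linarith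

end END73

end KR73
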