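import Pool.Agent.Lib.KR73.Kit

/-! Topology and invariance of the exteriors of equipotentials. -/

set_option autoImplicit false

open Filter Topology Set Metric Complex Bornology MeasureTheory N62a1eb23
open scoped Real ENNReal

namespace KR73

open Pool.Agent.Lib.MP_c35c17_an KN

namespace XEXT

variable {n : ℕ} {c : ℂ} {Φ : ℂ → ℂ} {τ ρ : ℝ}

theorem img {p : ℝ → Prop} (hp : ∀ t, p t → 0 < t) : Bc Φ '' {ζ | p ζ.re} =
    Φ '' {w | ∃ t, p t ∧ ‖w‖ = Real.exp (2 * π * t)} := by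
  refine Subset.antisymm ?_ ?_
  · rintro _ ⟨ζ, h, rfl⟩
    exact ⟨_, ⟨_, h, norm_chart ζ⟩, rfl⟩
  · rintro _ ⟨w, ⟨t, h, e⟩, rfl⟩
    obtain ⟨ζ, -, rfl⟩ := exists_chart (w := w) (by
      rw [e, Real.one_lt_exp_iff]; have := hp t h; positivity)
    rw [norm_chart, Real.exp_eq_exp] at e
    exact ⟨ζ, by rwa [mem_ofPred_eq, mul_left_cancel₀ (by positivity) e], rfl⟩

theorem ex {w : ℂ} (h : 0 < ‖w‖) : ∃ t, ‖w‖ = Real.exp (2 * π * t) :=
  ⟨Real.log ‖w‖ / (2 * π), by rw [mul_div_cancel₀ _ (by positivity), Real.exp_log h]⟩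

theorem le_eq : {w : ℂ | ∃ t, τ ≤ t ∧ ‖w‖ = Real.exp (2 * π * t)} =
    {w | Real.exp (2 * π * τ) ≤ ‖w‖} := by
  refine Subset.antisymm (fun w ⟨t, h, e⟩ => ?_) fun w h => ?_
  · rw [mem_ofPred_eq, e]; gcongr
  · obtain ⟨t, e⟩ := ex ((Real.exp_pos _).trans_le h)
    rw [mem_ofPred_eq, e, Real.exp_le_exp] at h
    exact ⟨t, le_of_mul_le_mul_left h (by positivity), e⟩

theorem lt_eq : {w : ℂ | ∃ t, τ < t ∧ ‖w‖ = Real.exp (2 * π * t)} =
    {w | Real.exp (2 * π * τ) < ‖w‖} := by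
  refine Subset.antisymm (fun w ⟨t, h, e⟩ => ?_) fun w h => ?_
  · rw [mem_ofPred_eq, e]; gcongr
  · obtain ⟨t, e⟩ := ex ((Real.exp_pos _).trans h)
    rw [mem_ofPred_eq, e, Real.exp_lt_exp] at h
    exact ⟨t, lt_of_mul_lt_mul_left h (by positivity), e⟩

theorem closed (h : L.Bot n c 1 Φ) (hρ : 1 < ρ) : IsClosed (Φ '' {w | ρ ≤ ‖w‖}) := by
  obtain ⟨R, hR⟩ := L.UI.far h one_half_pos
  refine isClosed_of_closure_subset fun z hz => ?_
  have k : IsCompact (Φ '' ({w | ρ ≤ ‖w‖} ∩ closedBall 0 (max R (2 * (‖z‖ + 1))))) :=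
    ((isCompact_closedBall _ _).inter_left (isClosed_le continuous_const continuous_norm)).image_of_continuousOn
      (h.diff.continuousOn.mono fun w hw => hρ.trans_le hw.1)
  refine image_mono inter_subset_left (k.isClosed.closure_subset (closure_mono ?_
    (isOpen_ball.inter_closure ⟨mem_ball_self one_pos, hz⟩)))
  rintro _ ⟨a, w, hw, rfl⟩
  refine ⟨w, ⟨hw, mem_closedBall_zero_iff.2 (not_lt.1 fun b => ?_)⟩, rfl⟩
  obtain ⟨b1, b2⟩ := max_lt_iff.1 b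
  have w0 : 0 < ‖w‖ := by have := norm_nonneg z; linarith
  have e1 := norm_sub_norm_le 1 (Φ w / w)
  rw [norm_sub_rev, norm_one, norm_div] at e1
  have e2 : 1 / 2 < ‖Φ w‖ / ‖w‖ := by linarith [hR w b1]
  rw [lt_div_iff₀ w0] at e2
  have e3 := norm_sub_norm_le (Φ w) z
  rw [mem_ball_iff_norm] at a
  linarith

end XEXT

theorem st_EXT {n : ℕ} (hn : 2 ≤ n) : St_EXT n := fun c hc Φ h => by
  have cj := cj_of_bot hn hc h
  refine ⟨fun τ hτ => ?_, fun τ hτ => ?_, fun τ hτ j z => ⟨?_, ?_⟩⟩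
  · rw [Ext, XEXT.img (p := fun t => τ ≤ t) fun t a => hτ.trans_le a, XEXT.le_eq]
    exact XEXT.closed h (by rw [Real.one_lt_exp_iff]; positivity)
  · rw [XEXT.img (p := fun t => τ < t) fun t a => hτ.trans_lt a, XEXT.lt_eq]
    exact Q.isOpen_image_of_injOn (isOpen_lt continuous_const continuous_norm) cj.diff cj.inj _
      (fun w hw => lt_of_le_of_lt (Real.one_le_exp (by positivity)) hw)
      (isOpen_lt continuous_const continuous_norm)
  · rintro ⟨ζ, a, e⟩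
    have p := npow_pos hn j
    obtain ⟨ζ', b, rfl⟩ := pre_range hn hc h j ((mul_pos p hτ).trans_le a) e.symm
    exact ⟨ζ', le_of_mul_le_mul_left (a.trans_eq b) p, rfl⟩
  · rintro ⟨ζ, a, rfl⟩
    refine ⟨_, ?_, (Bc_iter hn cj (hτ.trans_le a) j).symm⟩
    rw [mem_ofPred_eq, ← ofReal_pow, re_ofReal_mul]
    exact mul_le_mul_of_nonneg_left a (npow_pos hn j).le

end KR73
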