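import Pool.Agent.Lib.KR73.Kit

/-! Some finite capacity bound for all base annuli. -/

set_option autoImplicit false

open Filter Topology Set Metric Complex Bornology MeasureTheory N62a1eb23
open scoped Real ENNReal

namespace KR73

open Pool.Agent.Lib.MP_c35c17_an KN

theorem st_FIN {n : ℕ} (hn : 2 ≤ n) (hC0 : St_C0) (hEXT : St_EXT n) (hCST : St_CST n)
    (hFRO : St_FRO n) (hCOLC : St_COLC n) (hBSUB : St_BSUB n) : St_FIN n := by
  intro d T μ
  obtain ⟨R, r₀, hR⟩ := hCST μ.c μ.hc μ.Φ μ.bot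
  obtain ⟨w₀, -, hw₀⟩ := hCOLC
  have hss := μ.ss_le
  have hN := μ.NN_pos
  have hone : ∀ i ≤ T, ∃ w > 0, Cap (μ.Ph i (ss d) (ee d)) (μ.Ph i d 0) w := by
    intro i hi
    have hsub : closure (μ.Ph i (ss d) (ee d)) ⊆ μ.Ph i d 0 := by
      rw [closure_eq_self_union_frontier]
      refine union_subset (μ.Ph_mono (by unfold ss; omega) (Nat.zero_le _)) fun z hz => ?_
      rcases hFRO d T μ i hi z hz with ⟨α, q, h1, h2, h3, h4⟩ | ⟨x, h1, h2, h3⟩
      · exact (hw₀ d T μ i hi α q h1 h2 (h3.trans μ.big)).subset h4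
      · refine (hBSUB d T μ i x (by omega) (by omega)).2.2 (image_mono (preimage_mono ?_) h3)
        refine μ.Ph_mono ?_ (Nat.zero_le _)
        exact le_trans (by unfold ss; omega) (Nat.le_mul_of_pos_left _ hN)
    have hc : IsCompact (closure (μ.Ph i (ss d) (ee d))) :=
      (isBounded_ball.subset (μ.Ph_ball hR i _ _)).isCompact_closure
    obtain ⟨w, hw, h⟩ := hC0 _ _ hc (μ.Ph_open hEXT i d 0) hsub
    exact ⟨w, hw, h.mono subset_closure Subset.rfl⟩
  choose! w hw using hone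
  have h0 : ∀ i ∈ Finset.range (T + 1), 0 ≤ w i := fun i hi =>
    (hw i (Nat.lt_succ_iff.mp (Finset.mem_range.mp hi))).1.le
  refine ⟨∑ i ∈ Finset.range (T + 1), w i, ?_, fun i hi => ?_⟩
  · exact Finset.sum_pos (fun i hi => (hw i (Nat.lt_succ_iff.mp (Finset.mem_range.mp hi))).1)
      Finset.nonempty_range_add_one
  · exact (hw i hi).2.le (hw i hi).1.le
      (Finset.single_le_sum h0 (Finset.mem_range.mpr (Nat.lt_succ_iff.mpr hi)))

end KR73
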