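import Pool.Agent.Lib.KR73.Kit

/-! The boundary of a cylinder: first exit time. -/

set_option autoImplicit false

open Filter Topology Set Metric Complex Bornology MeasureTheory N62a1eb23
open scoped Real ENNReal

namespace KR73

open Pool.Agent.Lib.MP_c35c17_an KN

theorem st_FRO1 {n : ℕ} (hn : 2 ≤ n) : St_FRO1 n := by
  classical
  intro d T μ i hi z hz hz'
  have _ := hn
  have hcl : ∀ y < ss d, (F n μ.c)^[y] z ∈ closure (μ.V (nu n μ.ϑ (i + y))) := fun y hy =>
    map_mem_closure (differentiable_iter n μ.c y).continuous hz fun w hw => hw y hy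
  have hex : ∃ x, x < ss d ∧ (F n μ.c)^[x] z ∉ μ.V (nu n μ.ϑ (i + x)) := by
    by_contra h
    exact hz' fun x hx => by_contra fun h1 => h ⟨x, hx, h1⟩
  obtain ⟨hx1, hx2⟩ := Nat.find_spec hex
  set x := Nat.find hex with hx
  have hS : (F n μ.c)^[x + 1] z ∈ μ.S 0 := by
    by_contra h
    rw [Function.iterate_succ_apply'] at h
    obtain ⟨a, ha⟩ := μ.exists_V h
    exact hx2 (μ.V_uniq' ha (hcl x hx1) ▸ ha)
  refine ⟨x, ?_, hx1, fun y hy => ?_, hS⟩
  · by_contra h
    have hs := μ.ss_le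
    have hs' : ss d = 4 * d + 4 := rfl
    obtain ⟨j, hj, hne⟩ := μ.nr (i + x + 1) (by omega) (by omega)
    have h1 := μ.S_V (l := 0 + j) (by omega) (μ.S_iter hS j)
    rw [← Function.iterate_add_apply, zero_add] at h1
    have h2 := μ.V_uniq' h1 (hcl (j + (x + 1)) (by omega))
    exact hne (by rw [h2]; congr 1; omega)
  · by_contra h
    exact Nat.find_min hex hy ⟨hy.trans hx1, h⟩

end KR73
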