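import Pool.Agent.Lib.KR73.Kit

/-! An angle whose first letters differ from the kneading sequence is far from it. -/

set_option autoImplicit false

open Filter Topology Set Metric Complex Bornology MeasureTheory N62a1eb23
open scoped Real ENNReal

namespace KR73

open Pool.Agent.Lib.MP_c35c17_an KN

theorem st_GAP (hGAP0 : St_GAP0) : St_GAP := by
  rintro n θ d b m hn hNR ⟨x, hx, h⟩
  have hc : Cg b (b - m) := ⟨m, by ring⟩
  rw [hc.lts_eq, nu] at h
  have p := npow_pos hn (x + 1)
  have g := fun k : ℤ => hGAP0 n θ d (x + 1) k hn (by omega) hx (hNR (x + 1) (by omega) hx)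
  have key : ((n : ℝ) ^ (2 * d))⁻¹ / 2 ≤ (n : ℝ) ^ (x + 1) * |b - θ - m| := by
    rcases le_total (b - m) θ with h1 | h1
    · obtain ⟨k, k1, k2⟩ := exists_cut h1 h
      refine (g k).trans ?_
      rw [abs_of_nonneg (by linarith), abs_of_nonpos (by linarith)]
      linarith
    · obtain ⟨k, k1, k2⟩ := exists_cut h1 h.symm
      refine (g k).trans ?_
      rw [abs_of_nonpos (by linarith), abs_of_nonneg (by linarith)]
      linarith
  have k2 := key.trans (mul_le_mul_of_nonneg_right (npow_mono hn (show x + 1 ≤ d from hx))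
    (abs_nonneg _))
  have q := npow_pos hn d
  refine le_of_mul_le_mul_left (le_of_eq_of_le ?_ k2) q
  rw [show 3 * d = d + 2 * d by ring, pow_add]
  field_simp

end KR73
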