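import Pool.Agent.Lib.KR73.Kit

/-! Growth of the derivative along the orbit of the critical value. -/

set_option autoImplicit false

open Filter Topology Set Metric Complex Bornology MeasureTheory N62a1eb23
open scoped Real ENNReal

namespace KR73

open Pool.Agent.Lib.MP_c35c17_an KN

namespace XGROW

theorem sep_pos {n d : ℕ} {R r₀ w : ℝ} (hn : 2 ≤ n) (hR : 1 ≤ R) (hr : 0 < r₀) :
    0 < sep n d R r₀ w ∧ sep n d R r₀ w ≤ r₀ := by
  have h1 : (1 : ℝ) ≤ (n * R ^ (n - 1)) ^ ee d :=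
    one_le_pow₀ (one_le_mul_of_one_le_of_one_le (by linarith [ntwo hn]) (one_le_pow₀ hR))
  refine ⟨by rw [sep]; positivity, ?_⟩
  rw [sep]
  exact (mul_le_of_le_one_right (by positivity)
    (Real.exp_le_one_iff.mpr (neg_nonpos.mpr (by positivity)))).trans (div_le_self hr.le h1)

end XGROW

theorem st_GROW {n : ℕ} (hn : 2 ≤ n) (hEXT : St_EXT n) (hLA2 : St_LA2) (hBRW : St_BRW n)
    (hMISS : St_MISS n) (hSER : St_SER n) (hSEP : St_SEP n) : St_GROW n := by
  intro d T μ R r₀ w hK hw hQ m M hm hM hMw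
  obtain ⟨hs0, hs1⟩ := XGROW.sep_pos (d := d) (w := w) hn hK.one hK.pos
  have hd := μ.ss_le
  set ρ := sep n d R r₀ w with hρ
  set p := (F n μ.c)^[m] μ.c with hp
  have hM0 : (0 : ℝ) < M := lt_of_lt_of_le (by positivity) hMw
  obtain ⟨M, rfl⟩ : ∃ M', M = M' + 1 :=
    ⟨M - 1, by have : 0 < M := (by exact_mod_cast hM0); omega⟩
  obtain ⟨h1, h2, h3⟩ := hBRW d T μ 0 m (ball p ρ) (by omega) fun i' y hi e hy => by
    have e' : i' + y = m := by omega
    refine disjoint_left.mpr fun z hz hz' => ?_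
    have h4 := hSEP d T μ R r₀ w hK hQ m hm (μ.S y) (μ.conn y (by omega)) (μ.unb y (by omega))
      (e' ▸ (hMISS d T μ i' y hi (by omega) hy).symm) z hz'
    exact absurd (mem_ball_iff_norm.mp hz) (not_lt.mpr h4)
  have hc : μ.Y 0 m p = μ.c := μ.P_back (μ.S_P (by omega) (μ.c_mem 0))
  have h5 : μ.Y 0 m '' ball p ρ ⊆ μ.Ph 0 ((M + 1) * ss d) ((M + 1) * ss d) := by
    rintro _ ⟨z, hz, rfl⟩
    refine ⟨μ.P_mono hM (h3 hz), fun h => ?_⟩
    have h6 := ((hEXT μ.c μ.hc μ.Φ μ.bot).2.2 _ (inv_pos.mpr (npow_pos hn _)) m _).mpr h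
    rw [h2 z hz] at h6
    have h7 := hK.far m z (Ext_mono (by
      rw [← div_eq_mul_inv, le_div_iff₀ (npow_pos hn _)]
      linarith [npow_mono hn hM, npow_pos hn ((M + 1) * ss d)]) h6)
    linarith [mem_ball_iff_norm.mp hz]
  have h8 := (hSER d T μ w 0 M hQ (by nlinarith)).mono h5 (μ.Ph_ball hK 0 d 0)
  have hq : 0 < √((M : ℝ) + 1) := Real.sqrt_pos.mpr (by positivity)
  have hq2 : √((M : ℝ) + 1) ^ 2 = M + 1 := Real.sq_sqrt (by positivity)
  push_cast at hMw hM0 ⊢
  have h9 : ∀ z ∈ ball p ρ, ‖μ.Y 0 m z - μ.c‖ ≤ 4 * R * Real.exp (-((M + 1) / w ^ 2)) :=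
    fun z hz => by
      have h10 := hLA2 _ _ R _ μ.c (μ.Y 0 m z) h8 (div_pos hw hq) (by
        rw [div_le_iff₀ hq]
        exact (abs_le_of_sq_le_sq' (by rw [mul_pow, hq2]; linarith) (by positivity)).2) Subset.rfl
        ((convex_ball p ρ).isPreconnected.image _ h1.continuousOn) ⟨p, mem_ball_self hs0, hc⟩
        ⟨z, hz, rfl⟩
      rwa [div_pow, hq2, one_div_div] at h10
  have hsub : closedBall p (ρ / 2) ⊆ ball p ρ := closedBall_subset_ball (half_lt_self hs0)
  have h11 := norm_deriv_le_of_forall_mem_sphere_norm_le (f := fun z => μ.Y 0 m z - μ.c)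
    (half_pos hs0) (DifferentiableOn.diffContOnCl (by
      rw [closure_ball p (half_pos hs0).ne']
      exact (h1.mono hsub).sub_const _)) fun z hz => h9 z (hsub (sphere_subset_closedBall hz))
  have hnb := ball_mem_nhds p hs0
  have h12 := (h1.differentiableAt hnb).hasDerivAt
  have h13 : dF n μ.c m μ.c * deriv (μ.Y 0 m) p = 1 := by
    have h14 := (hasDerivAt_iter n μ.c m (μ.Y 0 m p)).comp p h12
    rw [hc] at h14
    exact h14.unique ((hasDerivAt_id p).congr_of_eventuallyEq (mem_of_superset hnb h2))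
  rw [deriv_sub_const, le_div_iff₀ (half_pos hs0)] at h11
  have h15 := congrArg norm h13
  rw [norm_mul, norm_one] at h15
  have h16 := mul_le_mul_of_nonneg_left h11 (norm_nonneg (dF n μ.c m μ.c))
  rw [← mul_assoc, h15] at h16
  linarith

end KR73
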