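import Pool.Agent.Lib.KR73.Kit

/-! The improvement step of the capacity bound. -/

set_option autoImplicit false

open Filter Topology Set Metric Complex Bornology MeasureTheory N62a1eb23
open scoped Real ENNReal

namespace KR73

open Pool.Agent.Lib.MP_c35c17_an KN

namespace XIMP

theorem col_cg {n q : ℕ} {Φ : ℂ → ℂ} {α α' : ℝ} (h : Cg α α') : Col n Φ α q ⊆ Col n Φ α' q := by
  obtain ⟨m, rfl⟩ := h
  rintro z ⟨ζ, ⟨h1, h2, h3⟩, rfl⟩
  refine ⟨⟨ζ.re, ζ.im - m⟩, ⟨h1, h2, ?_⟩, ?_⟩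
  · rwa [show ζ.im - m - α' = ζ.im - (α' + m) by ring]
  · rw [← Bc_add_int m, sub_add_cancel]

theorem card_le {n d : ℕ} (hn : 2 ≤ n) (hd : 0 < d) :
    n * d * ((NN n d + 1) * ss d + 1) ≤ 41 * n ^ 2 * d ^ 4 := by
  have h1 : 0 < n * d ^ 2 := by positivity
  have h2 : NN n d + 1 ≤ 5 * (n * d ^ 2) := by
    rw [NN, mul_assoc]
    omega
  have h3 : ss d ≤ 8 * d := by
    rw [ss]
    omega
  have h4 : 0 < n * d ^ 2 * d := by positivity
  have h5 : (NN n d + 1) * ss d ≤ 40 * (n * d ^ 2 * d) :=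
    (Nat.mul_le_mul h2 h3).trans (le_of_eq (by ring))
  have h6 : (NN n d + 1) * ss d + 1 ≤ 41 * (n * d ^ 2 * d) := by omega
  exact (Nat.mul_le_mul_left _ h6).trans (le_of_eq (by ring))

end XIMP

theorem st_IMP {n : ℕ} (hn : 2 ≤ n) (hC5 : St_C5) (hC6 : St_C6) (hEXT : St_EXT n)
    (hCST : St_CST n) (hCORN : St_CORN) (hFRO : St_FRO n) (hCOLC : St_COLC n)
    (hBLOB : St_BLOB n) : St_IMP n := by
  obtain ⟨w₀, hw₀, hC⟩ := hCOLC
  refine ⟨2 + 41 * (n : ℝ) ^ 2 * w₀, by positivity, fun d T μ w hw hQ i hi => ?_⟩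
  obtain ⟨A, hA, hA1, hA2⟩ := hCORN n μ.ϑ d i hn
  obtain ⟨R, r₀, hR⟩ := hCST μ.c μ.hc μ.Φ μ.bot
  have hd := μ.dpos
  have hd' : (1 : ℝ) ≤ d := by exact_mod_cast hd
  have hs := μ.ss_le
  have h1 := cap_biUnion hC5 (A ×ˢ Finset.Icc (ee d) ((NN n d + 1) * ss d))
    (fun p => Col n μ.Φ p.1 p.2) (O := μ.Ph i d 0) hw₀ one_pos fun p hp => by
      obtain ⟨e1, e2⟩ := Finset.mem_product.mp hp
      obtain ⟨e3, e4⟩ := Finset.mem_Icc.mp e2
      exact hC d T μ i hi p.1 p.2 (hA1 _ e1) e3 (e4.trans μ.big)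
  have hw' : 0 < w / (2 * d) := by positivity
  have h2 := cap_biUnion hC5 (Finset.Ico (3 * d + 4) (ss d)) (fun x => μ.Bl i x)
    (O := μ.Ph i d 0) hw' one_pos fun x hx => by
      obtain ⟨e1, e2⟩ := Finset.mem_Ico.mp hx
      exact hBLOB d T μ w i x hw hQ (by omega) (by omega)
  have h3 := hC5 _ _ _ _ _ (by positivity) (by positivity) h1 h2
  have h4 := hC6 (μ.Ph i (ss d) (ee d)) (μ.Ph i d 0) _ (μ.Ph_open hEXT _ _ _)
    (isBounded_ball.subset (μ.Ph_ball hR _ _ _))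
    (μ.Ph_mono (by rw [ss]; omega) (Nat.zero_le _)) (h3.mono (fun z hz => by
      rcases hFRO d T μ i hi z hz with ⟨α, q, e1, e2, e3, e4⟩ | ⟨x, e1, e2, e3⟩
      · obtain ⟨α', e5, e6⟩ := hA2 α e1
        exact Or.inl (mem_biUnion (x := (α', q))
          (Finset.mem_product.mpr ⟨e5, Finset.mem_Icc.mpr ⟨e2, e3⟩⟩) (XIMP.col_cg e6 e4))
      · exact Or.inr (mem_biUnion (Finset.mem_Ico.mpr ⟨e1, e2⟩) e3)) Subset.rfl)
  refine h4.le (by positivity) ?_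
  have h5 : (A ×ˢ Finset.Icc (ee d) ((NN n d + 1) * ss d)).card ≤ 41 * n ^ 2 * d ^ 4 := by
    rw [Finset.card_product, Nat.card_Icc]
    exact (Nat.mul_le_mul hA (Nat.sub_le _ _)).trans (XIMP.card_le hn hd)
  have h6 : (((A ×ˢ Finset.Icc (ee d) ((NN n d + 1) * ss d)).card : ℕ) : ℝ) ≤
      41 * (n : ℝ) ^ 2 * (d : ℝ) ^ 4 := by exact_mod_cast h5
  have h7 : (Finset.Ico (3 * d + 4) (ss d)).card = d := by
    rw [Nat.card_Ico, ss]
    omega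
  have h8 : (d : ℝ) * (w / (2 * d)) = w / 2 := by field_simp
  have h9 : (1 : ℝ) ≤ (d : ℝ) ^ 4 := one_le_pow₀ hd'
  have h10 := mul_le_mul_of_nonneg_right h6 hw₀.le
  rw [h7, h8]
  nlinarith

end KR73
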