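import Pool.Agent.Lib.KR73.Kit

/-! Branches carry truncated cylinders onto truncated cylinders. -/

set_option autoImplicit false

open Filter Topology Set Metric Complex Bornology MeasureTheory N62a1eb23
open scoped Real ENNReal

namespace KR73

open Pool.Agent.Lib.MP_c35c17_an KN

theorem st_ISO {n : ℕ} (hn : 2 ≤ n) (hEXT : St_EXT n) (hBRW : St_BRW n) (hMISS : St_MISS n) :
    St_ISO n := by
  intro d T μ i x s q hd hi
  obtain ⟨h1, h2, h3⟩ := hBRW d T μ i x (μ.Ph (i + x) s q) (by omega) fun i' y h1 h2 h3 =>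
    (hMISS d T μ i' y (by omega) (by omega) h3).mono_left fun z hz => h2 ▸ μ.P_mono hd hz.1
  have h4 : ∀ z, (F n μ.c)^[x] z ∈ Ext μ.Φ ((n : ℝ) ^ q)⁻¹ ↔ z ∈ Ext μ.Φ ((n : ℝ) ^ (q + x))⁻¹ :=
    fun z => by
      rw [← (hEXT μ.c μ.hc μ.Φ μ.bot).2.2 _ (inv_pos.mpr (npow_pos hn (q + x))) x z, pow_add,
        mul_inv, mul_left_comm, mul_inv_cancel₀ (npow_pos hn x).ne', mul_one]
  refine ⟨h1, fun z hz z' hz' e => by rw [← h2 z hz, e, h2 z' hz'], Subset.antisymm ?_ ?_⟩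
  · rintro _ ⟨z, hz, rfl⟩
    refine ⟨μ.P_add.mpr ⟨h3 hz, ?_⟩, fun h => hz.2 ?_⟩
    · rw [h2 z hz]; exact hz.1
    · rw [← h2 z hz]; exact (h4 _).mpr h
  · intro z hz
    obtain ⟨h5, h6⟩ := μ.P_add.mp hz.1
    exact ⟨_, ⟨h6, fun h => hz.2 ((h4 z).mp h)⟩, μ.P_back h5⟩

end KR73
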