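import Pool.Agent.Lib.KR73.Kit

/-! The two length-area inequalities. -/

set_option autoImplicit false

open Filter Topology Set Metric Complex Bornology MeasureTheory N62a1eb23
open scoped Real ENNReal

namespace KR73

open Pool.Agent.Lib.MP_c35c17_an KN

namespace XLA

theorem cont_pol {h : ℂ → ℝ} (hc : Continuous h) (x : ℂ) :
    Continuous fun p : ℝ × ℝ => p.1 * h (circleMap x p.1 p.2) := by
  unfold circleMap; fun_prop

theorem int_pol {h : ℂ → ℝ} (hc : Continuous h) (x : ℂ) (a b : ℝ) :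
    IntegrableOn (fun p : ℝ × ℝ => p.1 * h (circleMap x p.1 p.2)) (Ioc a b ×ˢ Ioo (-π) π) :=
  ((cont_pol hc x).continuousOn.integrableOn_compact (isCompact_Icc.prod isCompact_Icc)).mono_set
    (prod_mono Ioc_subset_Icc_self Ioo_subset_Icc_self)

theorem rect_le {h : ℂ → ℝ} (hc : Continuous h) (h0 : ∀ z, 0 ≤ h z) (x : ℂ) {a : ℝ} (b : ℝ)
    (ha : 0 ≤ a) : ENNReal.ofReal (∫ p in Ioc a b ×ˢ Ioo (-π) π, p.1 * h (circleMap x p.1 p.2)) ≤
      ∫⁻ z, ENNReal.ofReal (h z) := by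
  rw [ofReal_integral_eq_lintegral_ofReal (int_pol hc x a b) ((ae_restrict_iff'
    (measurableSet_Ioc.prod measurableSet_Ioo)).mpr (Eventually.of_forall fun p hp =>
      mul_nonneg (ha.trans hp.1.1.le) (h0 _))),
    ← lintegral_add_left_eq_self (fun z => ENNReal.ofReal (h z)) x,
    ← Complex.lintegral_comp_polarCoord_symm]
  refine (setLIntegral_mono' (measurableSet_Ioc.prod measurableSet_Ioo) fun p hp => ?_).trans
    (lintegral_mono_set (prod_mono (fun _ hr => ha.trans_lt hr.1) subset_rfl))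
  rw [ENNReal.ofReal_mul (ha.trans hp.1.1.le), smul_eq_mul, Complex.polarCoord_symm_apply,
    circleMap, exp_mul_I, ofReal_cos, ofReal_sin]

/-- radius outside, angle inside -/
theorem rt_le {h : ℂ → ℝ} (hc : Continuous h) (h0 : ∀ z, 0 ≤ h z) (x : ℂ) {a b : ℝ}
    (ha : 0 ≤ a) (hab : a ≤ b) :
    ENNReal.ofReal (∫ r in a..b, ∫ t in (-π)..π, r * h (circleMap x r t)) ≤
      ∫⁻ z, ENNReal.ofReal (h z) := by
  refine le_of_eq_of_le (congrArg _ ?_) (rect_le hc h0 x b ha)
  rw [Measure.volume_eq_prod, setIntegral_prod _ (int_pol hc x a b),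
    intervalIntegral.integral_of_le hab]
  simp only [intervalIntegral.integral_of_le (neg_le_self Real.pi_pos.le),
    integral_Ioc_eq_integral_Ioo (x := -π)]

/-- angle outside, radius inside -/
theorem tr_le {h : ℂ → ℝ} (hc : Continuous h) (h0 : ∀ z, 0 ≤ h z) (x : ℂ) {a b : ℝ}
    (ha : 0 ≤ a) (hab : a ≤ b) :
    ENNReal.ofReal (∫ t in (-π)..π, ∫ r in a..b, r * h (circleMap x r t)) ≤
      ∫⁻ z, ENNReal.ofReal (h z) := by
  refine le_of_eq_of_le (congrArg _ ?_) (rt_le hc h0 x ha hab)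
  refine (intervalIntegral_intervalIntegral_swap ?_).symm
  exact ((cont_pol hc x).continuousOn.integrableOn_compact
    (isCompact_uIcc.prod isCompact_uIcc)).mono_set (prod_mono uIoc_subset_uIcc uIoc_subset_uIcc)

/-- the change of a function along a path -/
theorem path_le {u : ℂ → ℝ} (hu : ContDiff ℝ 1 u) {γ γ' : ℝ → ℂ} (hγ : ∀ t, HasDerivAt γ (γ' t) t)
    (hγ' : Continuous γ') {a b s t : ℝ} (hs : s ∈ Icc a b) (ht : t ∈ Icc a b) :
    u (γ s) - u (γ t) ≤ ∫ y in a..b, ‖fderiv ℝ u (γ y)‖ * ‖γ' y‖ := by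
  have hc : Continuous γ := continuous_iff_continuousAt.mpr fun t => (hγ t).continuousAt
  have hD : Continuous fun y => fderiv ℝ u (γ y) := (hu.continuous_fderiv one_ne_zero).comp hc
  have h1 : ∫ y in t..s, fderiv ℝ u (γ y) (γ' y) = u (γ s) - u (γ t) :=
    intervalIntegral.integral_eq_sub_of_hasDerivAt (f := fun y => u (γ y))
      (fun y _ => (hu.differentiable one_ne_zero (γ y)).hasFDerivAt.comp_hasDerivAt y (hγ y))
      ((hD.clm_apply hγ').intervalIntegrable _ _)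
  have h2 : Continuous fun y => ‖fderiv ℝ u (γ y)‖ * ‖γ' y‖ := hD.norm.mul hγ'.norm
  rw [← h1]
  refine (Real.le_norm_self _).trans (intervalIntegral.norm_integral_le_integral_norm_uIoc.trans ?_)
  rw [intervalIntegral.integral_of_le (hs.1.trans hs.2)]
  refine (setIntegral_mono_on ((hD.clm_apply hγ').norm.intervalIntegrable t s).def'
    (h2.intervalIntegrable t s).def' measurableSet_uIoc fun y _ =>
      ContinuousLinearMap.le_opNorm _ _).trans (setIntegral_mono_set
        (h2.intervalIntegrable a b).1 (Eventually.of_forall fun y => by positivity)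
        (LE.le.eventuallyLE ?_))
  exact Ioc_subset_Ioc (le_min ht.1 hs.1) (max_le ht.2 hs.2)

/-- the oscillation on a circle -/
theorem osc_le {u : ℂ → ℝ} (hu : ContDiff ℝ 1 u) (x : ℂ) {r l : ℝ} (hr : 0 < r) (hl : 0 < l)
    {p q : ℂ} (hp : ‖p - x‖ = r) (hq : ‖q - x‖ = r) : u p - u q ≤
      l * r * (∫ t in (-π)..π, r * ‖fderiv ℝ u (circleMap x r t)‖ ^ 2) + π / (2 * l) := by
  have h0 : ∀ y : ℂ, ‖y - x‖ = r → circleMap x r (arg (y - x)) = y := fun y hy => by
    rw [circleMap, ← hy, norm_mul_exp_arg_mul_I, add_sub_cancel]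
  have hD : Continuous fun t => ‖fderiv ℝ u (circleMap x r t)‖ :=
    ((hu.continuous_fderiv one_ne_zero).comp (continuous_circleMap x r)).norm
  have h1 := path_le hu (hasDerivAt_circleMap x r) (by fun_prop)
    (Ioc_subset_Icc_self (arg_mem_Ioc (p - x))) (Ioc_subset_Icc_self (arg_mem_Ioc (q - x)))
  rw [h0 p hp, h0 q hq] at h1
  have h2 : π / (2 * l) = ∫ _ in (-π)..π, 1 / (4 * l) := by
    rw [intervalIntegral.integral_const, smul_eq_mul]; field_simp; ring
  rw [h2, ← intervalIntegral.integral_const_mul, ← intervalIntegral.integral_add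
    (Continuous.intervalIntegrable (by fun_prop) _ _) intervalIntegrable_const]
  refine h1.trans (intervalIntegral.integral_mono_on (neg_le_self Real.pi_pos.le)
    (Continuous.intervalIntegrable (by fun_prop) _ _)
    (Continuous.intervalIntegrable (by fun_prop) _ _) fun t _ => ?_)
  rw [norm_mul, norm_circleMap_zero, norm_I, mul_one, abs_of_pos hr, ← sub_nonneg]
  have h3 : l * r * (r * ‖fderiv ℝ u (circleMap x r t)‖ ^ 2) + 1 / (4 * l) -
      ‖fderiv ℝ u (circleMap x r t)‖ * r =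
      (2 * l * r * ‖fderiv ℝ u (circleMap x r t)‖ - 1) ^ 2 / (4 * l) := by
    field_simp; ring
  rw [h3]; positivity

/-- the change along a radius -/
theorem rad_le {u : ℂ → ℝ} (hu : ContDiff ℝ 1 u) (x : ℂ) {a b l : ℝ} (ha : 0 < a) (hab : a ≤ b)
    (hl : 0 < l) (t : ℝ) : u (circleMap x a t) - u (circleMap x b t) ≤
      l * (∫ r in a..b, r * ‖fderiv ℝ u (circleMap x r t)‖ ^ 2) + Real.log (b / a) / (4 * l) := by
  have hγ : ∀ r : ℝ, HasDerivAt (fun r : ℝ => circleMap x r t) (exp (t * I)) r := fun r => by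
    simpa [circleMap] using ((hasDerivAt_id r).ofReal_comp.mul_const (exp (t * I))).const_add x
  have hD : Continuous fun r : ℝ => ‖fderiv ℝ u (circleMap x r t)‖ :=
    ((hu.continuous_fderiv one_ne_zero).comp (by unfold circleMap; fun_prop)).norm
  have h1 := path_le hu hγ continuous_const (left_mem_Icc.mpr hab) (right_mem_Icc.mpr hab)
  have hi : IntervalIntegrable (fun r : ℝ => 1 / r / (4 * l)) volume a b :=
    (intervalIntegral.intervalIntegrable_one_div (f := fun r => r) (fun r hr => by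
      rw [uIcc_of_le hab] at hr; exact (ha.trans_le hr.1).ne') continuousOn_id).div_const _
  rw [← integral_one_div_of_pos ha (ha.trans_le hab), ← intervalIntegral.integral_div,
    ← intervalIntegral.integral_const_mul, ← intervalIntegral.integral_add
      (Continuous.intervalIntegrable (by fun_prop) _ _) hi]
  refine h1.trans (intervalIntegral.integral_mono_on hab
    (Continuous.intervalIntegrable (by fun_prop) _ _)
    ((Continuous.intervalIntegrable (by fun_prop) _ _).add hi) fun r hr => ?_)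
  have h2 := ha.trans_le hr.1
  rw [norm_exp_ofReal_mul_I, mul_one, ← sub_nonneg]
  have h3 : l * (r * ‖fderiv ℝ u (circleMap x r t)‖ ^ 2) + 1 / r / (4 * l) -
      ‖fderiv ℝ u (circleMap x r t)‖ =
      (2 * l * r * ‖fderiv ℝ u (circleMap x r t)‖ - 1) ^ 2 / (4 * l * r) := by
    field_simp; ring
  rw [h3]; positivity

/-- if every circle carries much energy, the ring is short -/
theorem ring_le {u : ℂ → ℝ} (hu : ContDiff ℝ 1 u) {w : ℝ}
    (hw : ∫⁻ z, ENNReal.ofReal (‖fderiv ℝ u z‖ ^ 2) ≤ ENNReal.ofReal (w ^ 2)) (x : ℂ)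
    {a b k : ℝ} (ha : 0 < a) (hab : a ≤ b)
    (h : ∀ r ∈ Icc a b, k ≤ r * ∫ t in (-π)..π, r * ‖fderiv ℝ u (circleMap x r t)‖ ^ 2) :
    k * Real.log (b / a) ≤ w ^ 2 := by
  have hc : Continuous fun z => ‖fderiv ℝ u z‖ ^ 2 := (hu.continuous_fderiv one_ne_zero).norm.pow 2
  have h1 := (ENNReal.ofReal_le_ofReal_iff (sq_nonneg w)).mp
    ((rt_le hc (fun _ => sq_nonneg _) x ha.le hab).trans hw)
  refine le_trans ?_ h1
  rw [← integral_one_div_of_pos ha (ha.trans_le hab), ← intervalIntegral.integral_const_mul]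
  refine intervalIntegral.integral_mono_on hab
    ((intervalIntegral.intervalIntegrable_one_div (f := fun r => r) (fun r hr => by
      rw [uIcc_of_le hab] at hr; exact (ha.trans_le hr.1).ne') continuousOn_id).const_mul _)
    ((intervalIntegral.continuous_parametric_intervalIntegral_of_continuous'
      (f := fun r t => r * ‖fderiv ℝ u (circleMap x r t)‖ ^ 2) (cont_pol hc x) _ _).intervalIntegrable
        _ _) fun r hr => ?_
  rw [mul_one_div, div_le_iff₀' (ha.trans_le hr.1)]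
  exact h r hr

theorem meet {E : Set ℂ} (hE : IsPreconnected E) {x p q : ℂ} (hp : p ∈ E) (hq : q ∈ E) {r : ℝ}
    (h1 : ‖p - x‖ ≤ r) (h2 : r ≤ ‖q - x‖) : ∃ y ∈ E, ‖y - x‖ = r :=
  hE.intermediate_value hp hq (f := fun y => ‖y - x‖) (by fun_prop) ⟨h1, h2⟩

theorem la1 {u : ℂ → ℝ} (hu : ContDiff ℝ 1 u) {w : ℝ}
    (hw : ∫⁻ z, ENNReal.ofReal (‖fderiv ℝ u z‖ ^ 2) ≤ ENNReal.ofReal (w ^ 2)) {E F : Set ℂ}
    (hE : IsPreconnected E) (hF : IsPreconnected F) (h1 : ∀ z ∈ E, u z = 1) (h0 : ∀ z ∈ F, u z = 0)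
    {x : ℂ} {a b : ℝ} (ha : 0 < a) (hab : a ≤ b) (e1 : ∃ p ∈ E, ‖p - x‖ ≤ a)
    (e2 : ∃ p ∈ E, b ≤ ‖p - x‖) (f1 : ∃ p ∈ F, ‖p - x‖ ≤ a) (f2 : ∃ p ∈ F, b ≤ ‖p - x‖) :
    Real.log (b / a) ≤ 2 * π * w ^ 2 := by
  have hπ := Real.pi_pos
  have h := ring_le hu hw x (k := 1 / (2 * π)) ha hab fun r hr => by
    obtain ⟨p, hp, h2⟩ := e1
    obtain ⟨p', hp', h3⟩ := e2
    obtain ⟨q, hq, h4⟩ := f1
    obtain ⟨q', hq', h5⟩ := f2
    obtain ⟨y, hy, h6⟩ := meet hE hp hp' (h2.trans hr.1) (hr.2.trans h3)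
    obtain ⟨y', hy', h7⟩ := meet hF hq hq' (h4.trans hr.1) (hr.2.trans h5)
    have h8 := osc_le hu x (ha.trans_le hr.1) hπ h6 h7
    rw [h1 y hy, h0 y' hy', show π / (2 * π) = 1 / 2 by field_simp, mul_assoc] at h8
    rw [div_le_iff₀ (by positivity)]
    linarith
  rw [one_div_mul_eq_div, div_le_iff₀ (by positivity)] at h
  linarith

theorem la2 {u : ℂ → ℝ} (hu : ContDiff ℝ 1 u) {w R : ℝ} (hw0 : w ^ 2 ≤ 1 / 100)
    (hw : ∫⁻ z, ENNReal.ofReal (‖fderiv ℝ u z‖ ^ 2) ≤ ENNReal.ofReal (w ^ 2)) {E : Set ℂ}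
    (hE : IsPreconnected E) (h1 : ∀ z ∈ E, u z = 1) (h0 : ∀ z, R ≤ ‖z‖ → u z = 0) {x y : ℂ}
    (hx : x ∈ E) (hy : y ∈ E) (hxy : x ≠ y) : 1 ≤ w ^ 2 * Real.log (4 * R / ‖x - y‖) := by
  have hπ := Real.pi_gt_three
  have hR : ∀ z ∈ E, ‖z‖ < R := fun z hz => not_le.mp fun h => by
    have := h1 z hz
    rw [h0 z h] at this
    exact zero_ne_one this
  have hρ : 0 < ‖x - y‖ := norm_pos_iff.mpr (sub_ne_zero.mpr hxy)
  have hρR : ‖x - y‖ < 2 * R := by linarith [norm_sub_le x y, hR x hx, hR y hy]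
  obtain ⟨r, hr, h2⟩ : ∃ r ∈ Icc (‖x - y‖ / 2) ‖x - y‖,
      r * ∫ t in (-π)..π, r * ‖fderiv ℝ u (circleMap x r t)‖ ^ 2 < 1 / 50 := by
    by_contra h
    have h3 := ring_le hu hw x (k := 1 / 50) (half_pos hρ) (half_le_self hρ.le) fun r hr =>
      not_lt.mp fun h4 => h ⟨r, hr, h4⟩
    rw [show ‖x - y‖ / (‖x - y‖ / 2) = 2 by field_simp] at h3
    linarith [Real.log_two_gt_d9]
  have hr0 : 0 < r := (half_pos hρ).trans_le hr.1
  have hr1 : r < 2 * R := hr.2.trans_lt hρR
  obtain ⟨p, hp, h3⟩ := meet hE hx hy (x := x) (r := r) (by simpa using hr0.le)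
    (by rw [norm_sub_rev]; exact hr.2)
  have hl : 0 < Real.log (2 * R / r) := Real.log_pos ((one_lt_div hr0).mpr hr1)
  have h4 : ∀ t : ℝ, 1 / (4 * Real.log (2 * R / r)) ≤
      ∫ s in r..2 * R, s * ‖fderiv ℝ u (circleMap x s t)‖ ^ 2 := fun t => by
    have h5 := osc_le hu x hr0 (l := 10) (by norm_num) h3 (q := circleMap x r t)
      (by rw [circleMap_sub_center, norm_circleMap_zero, abs_of_pos hr0])
    have h6 := rad_le hu x hr0 hr1.le hl t
    have h7 : u (circleMap x (2 * R) t) = 0 := h0 _ (by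
      have h8 := norm_sub_le (circleMap x (2 * R) t) x
      rw [circleMap_sub_center, norm_circleMap_zero, abs_of_pos (hr0.trans hr1)] at h8
      linarith [hR x hx])
    rw [h7, show Real.log (2 * R / r) / (4 * Real.log (2 * R / r)) = 1 / 4 by field_simp] at h6
    rw [h1 p hp, mul_assoc] at h5
    rw [div_le_iff₀ (by positivity)]
    linarith [Real.pi_lt_four]
  have hc : Continuous fun z => ‖fderiv ℝ u z‖ ^ 2 := (hu.continuous_fderiv one_ne_zero).norm.pow 2
  have h5 := (ENNReal.ofReal_le_ofReal_iff (sq_nonneg w)).mp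
    ((tr_le hc (fun _ => sq_nonneg _) x hr0.le hr1.le).trans hw)
  have h6 := intervalIntegral.integral_mono_on (neg_le_self Real.pi_pos.le) (μ := volume)
    intervalIntegrable_const
    ((intervalIntegral.continuous_parametric_intervalIntegral_of_continuous'
      (f := fun t s => s * ‖fderiv ℝ u (circleMap x s t)‖ ^ 2)
      ((cont_pol hc x).comp continuous_swap) r (2 * R)).intervalIntegrable _ _) fun t _ => h4 t
  rw [intervalIntegral.integral_const, smul_eq_mul, mul_one_div,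
    div_le_iff₀ (by positivity)] at h6
  have h7 : Real.log (2 * R / r) ≤ Real.log (4 * R / ‖x - y‖) :=
    Real.log_le_log (div_pos (hr0.trans hr1) hr0) (by
      rw [div_le_div_iff₀ hr0 hρ]; nlinarith [hr.1])
  nlinarith [mul_le_mul_of_nonneg_right h5 hl.le, mul_le_mul_of_nonneg_left h7 (sq_nonneg w)]

end XLA

theorem st_LA1 : St_LA1 := by
  rintro K O E E' w x a b ⟨u, h1, -, -, h4, h5, h6⟩ hK hO hE hE' ha hab e1 e2 f1 f2
  exact XLA.la1 h1 h6 hE hE' (fun z hz => (h5 z (hK hz)).eq_of_nhds)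
    (fun z hz => image_eq_zero_of_notMem_tsupport fun h => disjoint_left.mp hO hz (h4 h))
    ha hab e1 e2 f1 f2

theorem st_LA2 : St_LA2 := by
  rintro K E R w x y hC hw hw' hK hE hx hy
  have hR : 0 < R := pos_of_mem_ball (hC.subset (hK hx))
  obtain ⟨u, h1, -, -, h4, h5, h6⟩ := hC
  by_cases hxy : y = x
  · rw [hxy, sub_self, norm_zero]
    positivity
  have h0 : 0 < ‖y - x‖ := norm_pos_iff.mpr (sub_ne_zero.mpr hxy)
  have h := XLA.la2 (R := R) h1 (by nlinarith) h6 hE (fun z hz => (h5 z (hK hz)).eq_of_nhds)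
    (fun z hz => image_eq_zero_of_notMem_tsupport fun h =>
      not_lt.mpr hz (mem_ball_zero_iff.mp (h4 h))) hy hx hxy
  rw [← div_le_iff₀' (by positivity), Real.le_log_iff_exp_le (by positivity),
    le_div_iff₀' h0] at h
  rw [Real.exp_neg, ← div_eq_mul_inv, le_div_iff₀ (Real.exp_pos _)]
  exact h

end KR73
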