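import Pool.Agent.Lib.KR73.Kit

/-! Letters of external points. -/

set_option autoImplicit false

open Filter Topology Set Metric Complex Bornology MeasureTheory N62a1eb23
open scoped Real ENNReal

namespace KR73

open Pool.Agent.Lib.MP_c35c17_an KN

namespace XLET

theorem one {n d T : ℕ} (μ : Mo n d T) {t x : ℝ} (ht : μ.g < t) (a : ZMod n) :
    Bc μ.Φ ⟨t, x⟩ ∈ μ.V a ↔ ¬ Cg ((n : ℝ) * x) μ.ϑ ∧ lt n μ.ϑ x = a := by
  have h0 : 0 < t := μ.gpos.trans ht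
  have h2 := ntwo μ.hn
  have h3 : μ.g < n * t := by nlinarith
  have e : F n μ.c (Bc μ.Φ ⟨t, x⟩) = Bc μ.Φ ⟨n * t, n * x⟩ := by
    simpa using Bc_iter' (x := x) μ.hn μ.cj h0 1
  have key : ¬ Cg ((n : ℝ) * x) μ.ϑ → Bc μ.Φ ⟨t, x⟩ ∈ μ.V (lt n μ.ϑ x) := fun h => by
    rw [μ.mem_V, e, μ.chart _ _ _ h3 h, mul_div_cancel_left₀ _ (npos μ.hn).ne']
    exact ⟨fun h1 => h (by simpa using μ.off (l := 0) (by simpa using h3) h1), (gh_back μ.hn x).Bc⟩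
  refine ⟨fun h => ?_, fun h => h.2 ▸ key h.1⟩
  have h4 : ¬ Cg ((n : ℝ) * x) μ.ϑ := fun h1 => (μ.mem_V.1 h).1
    (e ▸ μ.ray_mem (l := 0) (by simpa using h3.le) (by simpa using h1))
  exact ⟨h4, μ.V_uniq (key h4) h⟩

end XLET

theorem st_LET {n : ℕ} (hn : 2 ≤ n) : St_LET n := by
  intro d T μ i s t ξ ht
  have h0 : 0 < t := μ.gpos.trans ht
  refine forall₂_congr fun y _ => ?_
  have h1 : (1 : ℝ) ≤ (n : ℝ) ^ y := one_le_pow₀ (by linarith [ntwo hn])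
  rw [Bc_iter' hn μ.cj h0, XLET.one μ (by nlinarith), pow_succ', mul_assoc, lts]

end KR73
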