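import Pool.Agent.Lib.KR73.Kit

/-! Slits miss the cylinders, by non recurrence of the letters. -/

set_option autoImplicit false

open Filter Topology Set Metric Complex Bornology MeasureTheory N62a1eb23
open scoped Real ENNReal

namespace KR73

open Pool.Agent.Lib.MP_c35c17_an KN

theorem st_MISS {n : ℕ} (hn : 2 ≤ n) : St_MISS n := by
  intro d T μ i' y h1 h2 h
  obtain ⟨x, hx, hne⟩ := μ.nr i' h1 h2
  have hd : d ≤ T := le_trans (by unfold ss; omega) μ.ss_le
  obtain ⟨e, rfl⟩ := Nat.exists_eq_add_of_le (not_lt.mp fun hlt => hne (h x hlt))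
  refine disjoint_left.mpr fun z hz hS => hne ?_
  rw [← add_assoc]
  exact μ.V_uniq (hz e (by omega)) (μ.S_V (by omega) (μ.S_iter hS e))

theorem st_MISS2 {n : ℕ} (hn : 2 ≤ n) : St_MISS2 n := by
  intro d T μ k h1 h2
  obtain ⟨x, hx, hne⟩ := μ.nr k h1 h2
  have hd : d ≤ T := le_trans (by unfold ss; omega) μ.ss_le
  refine disjoint_left.mpr fun z hS hz => hne ?_
  have h := hz x hx
  rw [zero_add] at h
  exact μ.V_uniq (μ.S_V (by omega) (μ.S_iter hS x)) h

end KR73
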