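import Pool.Agent.Lib.KR73.Kit

/-! Block MOD: the exact slit model. -/

set_option autoImplicit false

open Filter Topology Set Metric Complex Bornology MeasureTheory N62a1eb23
open scoped Real ENNReal

namespace KR73

open Pool.Agent.Lib.MP_c35c17_an KN

theorem XMOD.near {n d L : ℕ} {θ : ℝ} (h : NR n θ d L) :
    ∀ᶠ ϑ in 𝓝 θ, ∀ j ∈ Iio L, nu n ϑ j = nu n θ j := by
  refine (eventually_all_finite (finite_Iio L)).mpr fun j hj => ?_
  obtain ⟨x, -, hx⟩ := h (j + 1) (by omega) hj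
  have h1 : (⌊n * ((n : ℝ) ^ j * θ) - θ⌋ : ℝ) < n * ((n : ℝ) ^ j * θ) - θ :=
    (Int.floor_le _).lt_of_ne fun e => hx (Cg.lts_nu (Cg.symm
      ⟨⌊n * ((n : ℝ) ^ j * θ) - θ⌋, by rw [e, pow_succ']; ring⟩) x).symm
  have h2 : ContinuousAt (fun ϑ : ℝ => n * ((n : ℝ) ^ j * ϑ) - ϑ) θ := by fun_prop
  filter_upwards [h2 (Ioo_mem_nhds h1 (Int.lt_floor_add_one _))] with ϑ h3
  rw [nu, nu, lts, lts, lt, lt, Int.floor_eq_iff.mpr ⟨h3.1.le, h3.2⟩]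

theorem st_MOD {n : ℕ} (hn : 2 ≤ n) (hJAN : KN.St_JAN) (hARC : KN.St_ARC) (hSLIT : KN.St_SLIT n)
    (hBR : KN.St_BR n) : St_MOD n := by
  intro c hc Φ h hinj θ hθ d T hd hT hnr
  have hj := cj_of_bot hn hc h
  obtain ⟨δ, hδ, hnear⟩ := Metric.eventually_nhds_iff.mp (XMOD.near hnr)
  have hN := npow_pos hn (2 * T)
  obtain ⟨ε, g, ϑ, hε, hg, hge, hϑ, hb, hi, hp, hdis⟩ :=
    hSLIT c hc Φ h hinj θ hθ (3 * T + 1) (min δ (1 / (2 * (n : ℝ) ^ (2 * T)))) (by positivity)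
  have hnu := hnear (y := ϑ) (hϑ.trans_le (min_le_left _ _))
  have hdT : d ≤ T := by
    refine le_trans ?_ (le_trans (Nat.le_mul_of_pos_left _ (Nat.succ_pos _)) hT)
    rw [ss]
    omega
  have ha := fun l hl => XMODEL.arc hn hARC hc h hε hg hb (hi l hl) (hp l)
  obtain ⟨G, hdf, hinv, hdj, hsur, hch⟩ := hBR c hc Φ h (slit n c Φ ε g ϑ 0) g ϑ
    (ha 0 (by omega)).1 (ha 0 (by omega)).2.1 (ha 0 (by omega)).2.2.1
    (by
      have h1 := hJAN (slit n c Φ ε g ϑ) {0} (finite_singleton 0)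
        (fun l hl => hl ▸ (ha 0 (by omega)).1) (fun l hl => hl ▸ (ha 0 (by omega)).2.2.2)
        fun l hl l' hl' e => (e (hl.trans hl'.symm)).elim
      rwa [show Om (slit n c Φ ε g ϑ) {0} = (slit n c Φ ε g ϑ 0)ᶜ by ext; simp [Om]] at h1)
    (Or.inl ⟨c, mem_closedBall_self hε.le, rfl⟩) hg
    fun t x ht h1 h2 => XMODEL.off hn hj hg (hp 0) (by simpa using ht) fun e => by
      rw [pow_zero, one_mul] at e
      exact h1.ne' (e.eq_of_abs (abs_lt.mpr ⟨by linarith, by linarith⟩))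
  have hchart : ∀ a, ∀ t x : ℝ, g < t → ¬ Cg x ϑ →
      G a (Bc Φ ⟨t, x⟩) = Bc Φ ⟨t / n, gh n ϑ a x⟩ := fun a t x ht hx => by
    have h3 : (⌊x - ϑ⌋ : ℝ) < x - ϑ :=
      (Int.floor_le _).lt_of_ne fun e => hx ⟨⌊x - ϑ⌋, by rw [e]; ring⟩
    have h4 := Int.lt_floor_add_one (x - ϑ)
    have h6 := (npos hn).ne'
    rw [← (cg_sub_int x ⌊x - ϑ⌋).Bc, hch a t _ ht (by linarith) (by linarith)]
    refine (Cg.Bc ⟨⌊x - ϑ⌋, ?_⟩).symm
    rw [gh]
    field_simp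
    ring
  have hout : ∀ l ≤ 3 * T, ∀ y ∈ slit n c Φ ε g ϑ l, F n c y ∉ slit n c Φ ε g ϑ 0 :=
    fun l hl y hy => disjoint_left.mp (hdis (l + 1) (by omega) 0 (by omega) (by omega))
      (XMODEL.map hn hj hg l hy)
  refine ⟨⟨c, Φ, ϑ, ε, g, G, hn, hc, h, hε, hg, hd, hT, ?_, fun i h1 h2 => ?_, hb, hp,
    fun l hl => (ha l (by omega)).1, fun l hl => (ha l (by omega)).2.1,
    fun l hl => (ha l (by omega)).2.2.1, hdf, hinv, hdj, hsur, fun l hl => ?_, hchart⟩, rfl, rfl⟩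
  · have h1 := (lt_div_iff₀ (by positivity)).mp (hge.trans_le (min_le_right _ _))
    linarith
  · obtain ⟨x, h3, h4⟩ := hnr i h1 (by omega)
    exact ⟨x, h3, by rwa [hnu _ (by rw [mem_Iio]; omega), hnu _ (by rw [mem_Iio]; omega)]⟩
  · have h0 := mul_pos (npow_pos hn l) hg
    have h1 : Bc Φ ⟨(n : ℝ) ^ l * g + g, (n : ℝ) ^ l * ϑ⟩ ∈ slit n c Φ ε g ϑ l :=
      Or.inr ⟨_, le_add_of_nonneg_right hg.le, rfl⟩
    refine XMODEL.sector (ha 0 (by omega)).1 hdf hinv hdj hsur (ha l (by omega)).2.1 (hout l hl)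
      ⟨_, h1, _, hout l hl _ h1, ?_⟩
    have h2 := Bc_iter' (x := (n : ℝ) ^ l * ϑ) hn hj (add_pos h0 hg) 1
    have h3 := hout l hl _ h1
    have h4 : g < n * ((n : ℝ) ^ l * g + g) := by nlinarith [ntwo hn]
    rw [Function.iterate_one, pow_one] at h2
    rw [h2] at h3
    rw [h2, nu, lts, hchart _ _ _ h4 fun e => h3 (Or.inr ⟨_, by simpa using h4.le, by
      simpa using e.Bc.symm⟩), mul_div_cancel_left₀ _ (npos hn).ne']
    exact (gh_back hn _).Bc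

end KR73
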