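import Pool.Agent.Lib.KR73.Kit

/-! Separation of the postcritical points from unbounded continua off the cylinder. -/

set_option autoImplicit false

open Filter Topology Set Metric Complex Bornology MeasureTheory N62a1eb23
open scoped Real ENNReal

namespace KR73

open Pool.Agent.Lib.MP_c35c17_an KN

namespace XSEP

theorem pow_lip {a b : ℂ} {R : ℝ} (ha : ‖a‖ ≤ R) (hb : ‖b‖ ≤ R) (m : ℕ) :
    ‖a ^ (m + 1) - b ^ (m + 1)‖ ≤ (m + 1) * R ^ m * ‖a - b‖ := by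
  have hR : 0 ≤ R := (norm_nonneg _).trans ha
  induction m with
  | zero => simp
  | succ m ih =>
    rw [show a ^ (m + 1 + 1) - b ^ (m + 1 + 1) =
      a * (a ^ (m + 1) - b ^ (m + 1)) + (a - b) * b ^ (m + 1) by ring]
    refine (norm_add_le _ _).trans ?_
    rw [norm_mul, norm_mul, norm_pow]
    calc _ ≤ R * ((m + 1) * R ^ m * ‖a - b‖) + ‖a - b‖ * R ^ (m + 1) := by gcongr
      _ = _ := by push_cast; ring

theorem iter_lip {n : ℕ} (hn : 2 ≤ n) {c a b : ℂ} {R : ℝ} (hR : 0 ≤ R) (e : ℕ)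
    (ha : ∀ j < e, ‖(F n c)^[j] a‖ ≤ R) (hb : ∀ j < e, ‖(F n c)^[j] b‖ ≤ R) :
    ‖(F n c)^[e] a - (F n c)^[e] b‖ ≤ (n * R ^ (n - 1)) ^ e * ‖a - b‖ := by
  induction e with
  | zero => simp
  | succ e ih =>
    obtain ⟨m, rfl⟩ : ∃ m, n = m + 1 := ⟨n - 1, by omega⟩
    have h1 := ih (fun j hj => ha j (by omega)) (fun j hj => hb j (by omega))
    have h2 := pow_lip (ha e (by omega)) (hb e (by omega)) m
    rw [iter_succ, iter_succ, add_sub_add_right_eq_sub]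
    rw [Nat.add_sub_cancel] at h1 ⊢
    push_cast at h1 ⊢
    calc _ ≤ (m + 1) * R ^ m * (((m + 1) * R ^ m) ^ e * ‖a - b‖) := h2.trans (by gcongr)
      _ = _ := by ring

variable {n d T : ℕ} (μ : Mo n d T)

/-- the truncated slit -/
def E0 (i : ℕ) : Set ℂ := (F n μ.c)^[i] '' closedBall μ.c μ.ε ∪
  (fun t : ℝ => Bc μ.Φ ⟨t, (n : ℝ) ^ i * μ.ϑ⟩) '' Icc ((n : ℝ) ^ i * μ.g) (((n : ℝ) ^ ee d)⁻¹ / 2)

theorem tip_lt {i : ℕ} (hi : i ≤ T) : (n : ℝ) ^ i * μ.g < ((n : ℝ) ^ ee d)⁻¹ / 2 := by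
  have h1 := μ.ss_le
  refine μ.g_lt ?_
  unfold ss at h1
  unfold ee
  omega

theorem E0_conn {i : ℕ} (hi : i ≤ T) : IsPreconnected (E0 μ i) := by
  have h0 := mul_pos (npow_pos μ.hn i) μ.gpos
  refine IsPreconnected.union (Bc μ.Φ ⟨(n : ℝ) ^ i * μ.g, (n : ℝ) ^ i * μ.ϑ⟩)
    ⟨_, μ.base, Bc_iter' μ.hn μ.cj μ.gpos i⟩ ⟨_, ⟨le_rfl, (tip_lt μ hi).le⟩, rfl⟩
    ((convex_closedBall _ _).isPreconnected.image _
      (differentiable_iter n μ.c i).continuous.continuousOn) (isPreconnected_Icc.image _ ?_)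
  have h1 : Continuous fun t : ℝ => (⟨t, (n : ℝ) ^ i * μ.ϑ⟩ : ℂ) := by
    simp only [Complex.mk_eq_add_mul_I]
    fun_prop
  exact (Bc_diff μ.cj).continuousOn.comp h1.continuousOn fun t ht => h0.trans_le ht.1

theorem E0_sub {i : ℕ} (hi : i ≤ T) : E0 μ i ⊆ μ.Ph i (ss d) (ee d) := by
  have h0 := mul_pos (npow_pos μ.hn i) μ.gpos
  have h1 := μ.ss_le
  have h2 := tip_lt μ hi
  have h3 := inv_pos.mpr (npow_pos μ.hn (ee d))
  rintro z (hz | ⟨t, ht, rfl⟩)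
  · refine ⟨μ.S_P (by omega) (Or.inl hz), ?_⟩
    rintro ⟨ζ, h4, rfl⟩
    have h5 : ((n : ℝ) ^ ee d)⁻¹ ≤ ζ.re := h4
    have h6 := μ.top i ζ (h3.trans_le h5) hz
    linarith
  · refine ⟨μ.S_P (by omega) (μ.ray_mem ht.1 (Cg.refl _)), fun h4 => ?_⟩
    have h5 := (mem_Ext μ.cj h3 (h0.trans_le ht.1)).mp h4
    linarith [ht.2]

theorem far {R r₀ : ℝ} (h : Cst n μ.c μ.Φ R r₀) (i : ℕ) (x : ℝ) :
    r₀ / (n * R ^ (n - 1)) ^ ee d ≤
      ‖Bc μ.Φ ⟨((n : ℝ) ^ ee d)⁻¹ / 2, x⟩ - (F n μ.c)^[i] μ.c‖ := by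
  have h1 := npow_pos μ.hn (ee d)
  have h3 : 0 < ((n : ℝ) ^ ee d)⁻¹ / 2 := by positivity
  have hR : 0 < R := one_pos.trans_le h.one
  have hn := npos μ.hn
  have h4 := iter_lip μ.hn (c := μ.c) (a := Bc μ.Φ ⟨((n : ℝ) ^ ee d)⁻¹ / 2, x⟩)
    (b := (F n μ.c)^[i] μ.c) hR.le (ee d) (fun j hj => ?_) (fun j _ => ?_)
  · have h5 := h.far (ee d + i) (Bc μ.Φ ⟨1 / 2, (n : ℝ) ^ ee d * x⟩)
      ((mem_Ext μ.cj one_half_pos one_half_pos).mpr le_rfl)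
    rw [Bc_iter' μ.hn μ.cj h3, ← Function.iterate_add_apply, ← mul_div_assoc,
      mul_inv_cancel₀ h1.ne'] at h4
    rw [div_le_iff₀ (by positivity), mul_comm]
    exact h5.trans h4
  · rw [Bc_iter' μ.hn μ.cj h3]
    refine (mem_ball_zero_iff.mp (h.ball fun h5 => ?_)).le
    have h6 := (mem_Ext μ.cj one_pos (mul_pos (npow_pos μ.hn j) h3)).mp h5
    have h7 := mul_le_mul_of_nonneg_right (npow_mono μ.hn hj.le) h3.le
    rw [← mul_div_assoc ((n : ℝ) ^ ee d), mul_inv_cancel₀ h1.ne'] at h7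
    linarith
  · rw [← Function.iterate_add_apply]
    refine (mem_ball_zero_iff.mp (h.ball ?_)).le
    rintro ⟨ζ, h5, h6⟩
    exact orbit_notMem μ.hn μ.hc μ.bot _ (one_pos.trans_le h5) h6

end XSEP

theorem st_SEP {n : ℕ} (hn : 2 ≤ n) (hLA1 : St_LA1) : St_SEP n := by
  intro d T μ R r₀ w hC hQ i hi E hE hU hD p hp
  have h0 := XSEP.far μ hC i ((n : ℝ) ^ i * μ.ϑ)
  set p0 := Bc μ.Φ ⟨((n : ℝ) ^ ee d)⁻¹ / 2, (n : ℝ) ^ i * μ.ϑ⟩ with hp0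
  set x := (F n μ.c)^[i] μ.c with hx
  have hR : 0 < R := one_pos.trans_le hC.one
  have hn' := npos hn
  have hr := hC.pos
  have h1 : 0 ≤ r₀ / (n * R ^ (n - 1)) ^ ee d := by positivity
  have h2 : Real.exp (-(2 * π * w ^ 2)) ≤ 1 := Real.exp_le_one_iff.mpr (neg_nonpos.mpr (by positivity))
  have h3 := Real.exp_pos (-(2 * π * w ^ 2))
  unfold sep
  rcases le_total ‖p0 - x‖ ‖p - x‖ with h4 | h4
  · exact (mul_le_of_le_one_right h1 h2).trans (h0.trans h4)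
  have hs := μ.ss_le
  have h5 : x ∈ μ.P i d := μ.S_P (by unfold ss at hs; omega) (μ.c_mem i)
  have h6 : 0 < ‖p - x‖ := norm_pos_iff.mpr (sub_ne_zero.mpr fun e =>
    Set.disjoint_left.mp hD hp (e ▸ h5))
  have h7 : ∃ q ∈ E, ‖p0 - x‖ ≤ ‖q - x‖ := by
    by_contra h8
    refine hU ((isBounded_ball (x := x) (r := ‖p0 - x‖)).subset fun q hq => ?_)
    rw [mem_ball_iff_norm]
    exact not_le.mp fun h9 => h8 ⟨q, hq, h9⟩
  have h8 := hLA1 _ _ (XSEP.E0 μ i) E w x ‖p - x‖ ‖p0 - x‖ (hQ i hi) (XSEP.E0_sub μ hi)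
    (hD.mono_right fun z hz => hz.1) (XSEP.E0_conn μ hi) hE h6 h4
    ⟨x, Or.inl ⟨μ.c, mem_closedBall_self μ.εpos.le, rfl⟩, by simp⟩
    ⟨p0, Or.inr ⟨_, ⟨(XSEP.tip_lt μ hi).le, le_rfl⟩, rfl⟩, le_rfl⟩ ⟨p, hp, le_rfl⟩ h7
  rw [Real.log_le_iff_le_exp (div_pos (h6.trans_le h4) h6), div_le_iff₀ h6] at h8
  refine (mul_le_mul_of_nonneg_right (h0.trans h8) h3.le).trans (le_of_eq ?_)
  rw [mul_right_comm, ← Real.exp_add, add_neg_cancel, Real.exp_zero, one_mul]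

end KR73
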