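import Pool.Agent.Lib.KR73.Kit

/-! Block SER: the series law along nested pull-backs of the base annuli. -/

set_option autoImplicit false

open Filter Topology Set Metric Complex Bornology MeasureTheory N62a1eb23
open scoped Real ENNReal

namespace KR73

open Pool.Agent.Lib.MP_c35c17_an KN

theorem st_SER {n : ℕ} (hn : 2 ≤ n) (hC2 : St_C2) (hC4 : St_C4) (hISO : St_ISO n)
    (hEXT : St_EXT n) : St_SER n := by
  intro d T μ w j M hQ hj
  have hd : d ≤ ss d := by unfold ss; omega
  have he : ee d ≤ ss d := by unfold ss ee; omega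
  have h := hC4 (fun q => μ.Ph j (q * ss d + ss d) (ee d + q * ss d))
    (fun q => μ.Ph j (q * ss d + d) (0 + q * ss d)) M w (fun q hq => ?_) (fun q _ => ?_)
  · refine h.mono (μ.Ph_mono ?_ ?_) (μ.Ph_mono ?_ ?_)
    · rw [add_mul, one_mul]
    · rw [add_mul, one_mul]; omega
    · omega
    · omega
  · have h1 : q * ss d ≤ M * ss d := Nat.mul_le_mul_right _ hq
    have h2 := hISO d T μ j (q * ss d) d 0 le_rfl (by omega)
    have h3 := hISO d T μ j (q * ss d) (ss d) (ee d) hd (by omega)
    have h4 := hC2 _ _ w _ (μ.Ph_open hEXT _ _ _) h2.1 h2.2.1 (hQ (j + q * ss d) (by omega))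
    rwa [h2.2.2, h3.2.2] at h4
  · refine μ.Ph_mono ?_ ?_
    · rw [add_mul, one_mul]; omega
    · rw [add_mul, one_mul]; omega

end KR73
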