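import Pool.Agent.Lib.KR73.Kit

/-! The corner angle next to an angle with prescribed letters. -/

set_option autoImplicit false

open Filter Topology Set Metric Complex Bornology MeasureTheory N62a1eb23
open scoped Real ENNReal

namespace KR73

open Pool.Agent.Lib.MP_c35c17_an KN

theorem st_TOP : St_TOP := by
  intro n θ d T i ξ hn hN hT hl
  set a : ℕ → ℝ := fun x => (θ + (⌊(n : ℝ) ^ (x + 1) * ξ - θ⌋ : ℤ)) / (n : ℝ) ^ (x + 1) with ha
  have hs : ss d = 4 * d + 4 := rfl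
  obtain ⟨x, hx, hm⟩ := Finset.exists_max_image (Finset.range (ss d)) a ⟨0, by simp [hs]⟩
  rw [Finset.mem_range] at hx
  have e0 : ∀ y, (n : ℝ) ^ (y + 1) * a y = θ + (⌊(n : ℝ) ^ (y + 1) * ξ - θ⌋ : ℤ) := fun y =>
    mul_div_cancel₀ _ (npow_pos hn _).ne'
  have le : ∀ y, a y ≤ ξ := fun y => by
    refine le_of_mul_le_mul_left ?_ (npow_pos hn (y + 1))
    rw [e0]
    linarith [Int.floor_le ((n : ℝ) ^ (y + 1) * ξ - θ)]
  have hc : Cg ((n : ℝ) ^ (x + 1) * a x) θ := ⟨_, e0 x⟩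
  have key : ∀ y < ss d, lts n θ (a x) y = nu n θ (i + y) := fun y hy => by
    rw [← hl y hy, lts, lts, KN.lt, KN.lt, ← mul_assoc, ← mul_assoc, ← pow_succ']
    congr 1
    have h0 := npow_pos hn (y + 1)
    refine le_antisymm (Int.floor_mono (by gcongr; exact le x)) (Int.le_floor.2 ?_)
    have h1 := mul_le_mul_of_nonneg_left (hm y (Finset.mem_range.2 hy)) h0.le
    rw [e0] at h1
    linarith
  refine ⟨a x, ⟨x, ?_, hx, hc, fun y hy => key y (hy.trans hx)⟩, ?_⟩
  · by_contra h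
    obtain ⟨j, hj, hne⟩ := hN (i + (x + 1)) (by omega) (by omega)
    apply hne
    rw [add_assoc, ← key _ (by omega), ← lts_pow, hc.lts_eq, nu]
  · have h0 := npow_pos hn (4 * d + 3 + 1)
    have h1 := mul_le_mul_of_nonneg_left (hm (4 * d + 3) (Finset.mem_range.2 (by omega))) h0.le
    rw [e0] at h1
    rw [abs_of_nonneg (sub_nonneg.2 (le x)), show ss d = 4 * d + 3 + 1 from rfl, mul_sub]
    linarith [Int.lt_floor_add_one ((n : ℝ) ^ (4 * d + 3 + 1) * ξ - θ)]

end KR73
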