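import Pool.Agent.Lib.KR73.Kit
import Pool.Agent.Lib.MP_c35c17_an.QMain

/-! Parameters with a finite critical orbit. -/

set_option autoImplicit false

open Filter Topology Set Metric Complex Bornology MeasureTheory N62a1eb23
open scoped Real ENNReal

namespace KR73

open Pool.Agent.Lib.MP_c35c17_an KN

theorem finite_orbit {n : ℕ} (hn : 2 ≤ n) {c : ℂ} (hc : c ∈ multibrotSet n)
    (h : ¬ Function.Injective fun j => (F n c)^[j] 0) :
    c ∈ closure {c | ∃ m z, IsAttractingCycle (fun z ↦ z ^ n + c) m z} := by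
  by_contra hH
  obtain ⟨h0, -⟩ := base0 hn hc hH
  obtain ⟨a, k, hk, hz⟩ : ∃ a k, 0 < k ∧ (F n c)^[k] (orb n c a) = orb n c a := by
    obtain ⟨a, b, e, hab⟩ := Function.not_injective_iff.mp h
    wlog hlt : a < b generalizing a b
    · exact this b a e.symm hab.symm (by omega)
    obtain ⟨k, rfl⟩ := Nat.exists_eq_add_of_lt hlt
    refine ⟨a, k + 1, k.succ_pos, ?_⟩
    rw [orb_eq hn, ← Function.iterate_add_apply, show k + 1 + (a + 1) = a + k + 1 + 1 by ring,
      Function.iterate_succ_apply', ← e, Function.iterate_succ_apply']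
  set ρ := ‖dF n c k (orb n c a)‖ with hρ
  have h1 : 1 ≤ ρ := not_lt.mp fun h1 => hH (subset_closure ⟨k, orb n c a, hk, hz,
    differentiable_iter n c k _, by rwa [(hasDerivAt_iter n c k _).deriv]⟩)
  have h2 : 1 < ρ := lt_of_le_of_ne h1 fun e => by
    obtain ⟨C, hC⟩ := Q.main_bound hn
    have h3 := hC c (L.norm_le_two hn hc) k _ hk hz h1
    rw [← hρ, ← e, sub_self, mul_zero] at h3
    refine hH ((mem_closure_iff_infDist_zero ?_).mpr
      ((pow_eq_zero_iff (n := 576) (by norm_num)).mp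
        (le_antisymm h3 (pow_nonneg infDist_nonneg _))))
    refine ⟨0, 1, 0, one_pos, ?_, differentiable_iter n 0 1 0, ?_⟩
    · simp [Function.IsPeriodicPt, Function.IsFixedPt]; omega
    · rw [(hasDerivAt_iter n 0 1 0).deriv]
      simp [dF, zero_pow (show n - 1 ≠ 0 by omega)]
  have hD : ∀ e, ‖dF n c (a + k * e) c‖ = ρ ^ e * ‖dF n c a c‖ := fun e => by
    rw [dF_add, norm_mul, show (F n c)^[a] c = orb n c a from rfl, Q.dF_mul hz, norm_pow]
  have hA : 0 < ‖dF n c a c‖ := norm_pos_iff.mpr (dF_ne hn h0 a)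
  obtain ⟨s, hs, hs'⟩ : ∃ s > 0, ∀ j, s ≤ ‖orb n c j‖ := by
    obtain ⟨i, -, hi⟩ := (Finset.range (a + k)).exists_min_image (fun j => ‖orb n c j‖)
      ⟨0, Finset.mem_range.mpr (by omega)⟩
    refine ⟨_, norm_pos_iff.mpr (h0 i), fun j => ?_⟩
    induction j using Nat.strong_induction_on with
    | _ j ih =>
      rcases lt_or_ge j (a + k) with h3 | h3
      · exact hi j (Finset.mem_range.mpr h3)
      · obtain ⟨e, rfl⟩ := Nat.exists_eq_add_of_le h3
        have h4 : orb n c (a + k + e) = orb n c (a + e) := by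
          rw [show a + k + e = e + (k + a) by ring, add_comm a e, ← orb_iter, ← orb_iter, hz,
            orb_iter]
        rw [h4]
        exact ih _ (by omega)
  refine hH (cor_jump hn hc fun ε hε => ?_)
  have hl := Real.log_pos h2
  have hk' : (0 : ℝ) < a + k := by positivity
  obtain ⟨e, ⟨e1, e2⟩, e3⟩ := ((((tendsto_pow_const_div_const_pow_of_one_lt 68 h2).eventually
    (gt_mem_nhds (show 0 < ‖dF n c a c‖ * s ^ n / (a + k) ^ 34 by positivity))).and
    (tendsto_natCast_atTop_atTop.eventually_ge_atTop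
      ((a + k + 1 + ε * |Real.log ‖dF n c a c‖|) / (ε * Real.log ρ)))).and
    (eventually_ge_atTop 1)).exists
  have e4 : (1 : ℝ) ≤ e := by exact_mod_cast e3
  obtain ⟨N, hN⟩ : ∃ N, N + 1 = a + k * e ^ 2 :=
    ⟨a + k * e ^ 2 - 1, Nat.sub_add_cancel (by nlinarith [Nat.mul_pos hk (pow_pos e3 2)])⟩
  have hN' : (N : ℝ) + 1 = a + k * e ^ 2 := by exact_mod_cast hN
  refine ⟨a + k * e, N, fun j hj _ => ?_, ?_⟩
  · obtain ⟨j, rfl⟩ := Nat.exists_eq_add_of_le' hj
    rw [orb_succ, add_sub_cancel_right, norm_pow, hD]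
    rw [div_lt_div_iff₀ (by positivity) (by positivity)] at e1
    calc (N : ℝ) ^ 34 ≤ (((a : ℝ) + k) * (e : ℝ) ^ 2) ^ 34 := by
          gcongr
          nlinarith [mul_nonneg (Nat.cast_nonneg a : (0 : ℝ) ≤ a)
            (show (0 : ℝ) ≤ (e : ℝ) ^ 2 - 1 by nlinarith)]
      _ = (e : ℝ) ^ 68 * ((a : ℝ) + k) ^ 34 := by rw [mul_pow, ← pow_mul, mul_comm]
      _ ≤ ‖dF n c a c‖ * s ^ n * ρ ^ e := e1.le
      _ ≤ ‖dF n c a c‖ * ‖orb n c j‖ ^ n * ρ ^ e := by gcongr; exact hs' j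
      _ = _ := by ring
  · rw [hN, hD, Real.log_mul (by positivity) hA.ne', Real.log_pow]
    rw [div_le_iff₀ (by positivity)] at e2
    push_cast
    have h5 := mul_le_mul_of_nonneg_left e2 (show (0 : ℝ) ≤ e by positivity)
    have h6 := mul_le_mul_of_nonneg_left (neg_abs_le (Real.log ‖dF n c a c‖)) hε.le
    have h7 : 0 ≤ ε * |Real.log ‖dF n c a c‖| := by positivity
    nlinarith [mul_nonneg (sub_nonneg.mpr e4) h7, mul_nonneg (sub_nonneg.mpr e4)
      (Nat.cast_nonneg a : (0 : ℝ) ≤ a)]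

end KR73
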