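import Pool.Agent.Lib.KR73.Kit

/-! Assembly of the recurrence bound. -/

set_option autoImplicit false

open Filter Topology Set Metric Complex Bornology MeasureTheory N62a1eb23
open scoped Real ENNReal

namespace KR73

open Pool.Agent.Lib.MP_c35c17_an KN

theorem qq {n : ℕ} (hI : St_IMP n) (hF : St_FIN n) :
    ∃ C > 0, ∀ (d T : ℕ) (μ : Mo n d T), μ.Q (C * (d : ℝ) ^ 4) := by
  obtain ⟨C, hC, h⟩ := hI
  refine ⟨3 * C, by positivity, fun d T μ => ?_⟩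
  obtain ⟨w, hw, h0⟩ := hF d T μ
  have hd : (0 : ℝ) < d := by exact_mod_cast μ.dpos
  have ha : 0 < C * (d : ℝ) ^ 4 := by positivity
  have h1 : ∀ j : ℕ, μ.Q (2 * (C * (d : ℝ) ^ 4) + w * (1 / 2) ^ j) := fun j => by
    induction j with
    | zero => exact fun i hi => (h0 i hi).le hw.le (by simp only [pow_zero]; linarith)
    | succ j ih =>
      exact fun i hi => (h d T μ _ (by positivity) ih i hi).le (by positivity)
        (le_of_eq (by ring))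
  obtain ⟨j, hj⟩ := exists_pow_lt_of_lt_one (div_pos ha hw) (by norm_num : (1 / 2 : ℝ) < 1)
  rw [lt_div_iff₀' hw] at hj
  exact fun i hi => (h1 j i hi).le (by positivity) (by linarith)

theorem nu_eq (n : ℕ) (θ : ℝ) (i j : ℕ) : nu n θ i = nu n θ j ↔
    ⌊((n : ℝ) ^ (i + 1) - 1) * θ⌋ ≡ ⌊((n : ℝ) ^ (j + 1) - 1) * θ⌋ [ZMOD n] := by
  have h : ∀ l : ℕ, (n : ℝ) * ((n : ℝ) ^ l * θ) - θ = ((n : ℝ) ^ (l + 1) - 1) * θ := fun l => by
    ring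
  rw [nu, nu, lts, lts, lt, lt, h, h, ZMod.intCast_eq_intCast_iff]

theorem main {n : ℕ} (hn : 2 ≤ n) (hPEAK : St_PEAK n) (hMOD : St_MOD n) (hCST : St_CST n)
    (hM2 : St_MISS2 n) (hI : St_IMP n) (hF : St_FIN n) (hSEP : St_SEP n) (hG : St_GROW n)
    (hEND : St_END n) : ∀ c ∈ multibrotSet n, Function.Injective (fun j => (F n c)^[j] 0) →
    ∀ Φ, L.Bot n c 1 Φ → c ∈ closure (Φ '' {w | 1 < ‖w‖}) →
    ∃ θ : ℝ, MapClusterPt c (𝓝[{w | 1 < ‖w‖}] exp (2 * π * I * θ)) Φ ∧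
      ((∃ᶠ d : ℕ in atTop, ∀ i : ℕ, 1 ≤ i → i ≤ d ^ 29 → ∃ x < d,
        ¬ ⌊((n : ℝ) ^ (i + x + 1) - 1) * θ⌋ ≡ ⌊((n : ℝ) ^ (x + 1) - 1) * θ⌋ [ZMOD n]) →
      c ∈ closure {c | ∃ m z, IsAttractingCycle (fun z ↦ z ^ n + c) m z}) := by
  intro c hc hinj Φ hB hcl
  obtain ⟨θ, hP, hM⟩ := hPEAK c hc Φ hB hcl
  obtain ⟨C, hC, hQ⟩ := qq hI hF
  obtain ⟨R, r₀, hK⟩ := hCST c hc Φ hB
  refine ⟨θ, hM, fun h => hEND c hc R r₀ C hK.one hK.pos hC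
    ((h.and_eventually (eventually_ge_atTop (n + 3))).mono fun d hd => ?_)⟩
  obtain ⟨h1, h2⟩ := hd
  have h3 : (NN n d + 1) * ss d ≤ d ^ 28 := by
    have h4 : NN n d + 1 ≤ d ^ 5 := by
      have h5 : 4 * n + 1 ≤ d ^ 3 := by nlinarith [Nat.zero_le n, Nat.zero_le (d ^ 2)]
      calc NN n d + 1 ≤ (4 * n + 1) * d ^ 2 := by
            rw [NN, add_mul, one_mul]
            exact Nat.add_le_add_left (Nat.one_le_pow _ _ (by omega)) _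
        _ ≤ d ^ 3 * d ^ 2 := Nat.mul_le_mul_right _ h5
        _ = d ^ 5 := by ring
    have h6 : ss d ≤ d ^ 2 := by rw [ss]; nlinarith
    calc _ ≤ d ^ 5 * d ^ 2 := Nat.mul_le_mul h4 h6
      _ = d ^ 7 := by ring
      _ ≤ d ^ 28 := Nat.pow_le_pow_right (by omega) (by norm_num)
  have h7 : 3 * d ^ 28 ≤ d ^ 29 := by
    rw [pow_succ' d 28]
    exact Nat.mul_le_mul_right _ (by omega)
  obtain ⟨μ, rfl, rfl⟩ := hMOD c hc Φ hB hinj θ hP d (d ^ 28) (by omega) h3 fun i hi hi' => by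
    obtain ⟨x, hx, h8⟩ := h1 i hi (hi'.trans h7)
    exact ⟨x, hx, fun e => h8 ((nu_eq n θ _ _).mp e)⟩
  have hd0 : (0 : ℝ) < d := by exact_mod_cast μ.dpos
  refine ⟨fun k hk hk' => ?_, hG d _ μ R r₀ _ hK (by positivity) (hQ d _ μ)⟩
  exact hSEP d _ μ R r₀ _ hK (hQ d _ μ) 0 (Nat.zero_le _) (μ.S k) (μ.conn k (by omega))
    (μ.unb k (by omega)) (hM2 d _ μ k hk (by omega)) _ (μ.c_mem k)

end KR73
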