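import Pool.Agent.Lib.KN55.B_JAN
import Pool.Agent.Lib.KN55.B_ARC55
import Pool.Agent.Lib.KN55.B_PEAK
import Pool.Agent.Lib.KN55.B_SHORT
import Pool.Agent.Lib.KN55.B_SLIT
import Pool.Agent.Lib.KN55.B_BR
import Pool.Agent.Lib.KR73.B_C0
import Pool.Agent.Lib.KR73.B_C2
import Pool.Agent.Lib.KR73.B_C3
import Pool.Agent.Lib.KR73.B_C4
import Pool.Agent.Lib.KR73.B_C5
import Pool.Agent.Lib.KR73.B_C6
import Pool.Agent.Lib.KR73.B_LA
import Pool.Agent.Lib.KR73.B_GAP0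
import Pool.Agent.Lib.KR73.B_GAP
import Pool.Agent.Lib.KR73.B_CORN
import Pool.Agent.Lib.KR73.B_COL
import Pool.Agent.Lib.KR73.B_TOP
import Pool.Agent.Lib.KR73.B_MOD
import Pool.Agent.Lib.KR73.B_EXT
import Pool.Agent.Lib.KR73.B_CST
import Pool.Agent.Lib.KR73.B_LET
import Pool.Agent.Lib.KR73.B_BRW
import Pool.Agent.Lib.KR73.B_MISS
import Pool.Agent.Lib.KR73.B_ISO
import Pool.Agent.Lib.KR73.B_SER
import Pool.Agent.Lib.KR73.B_FRO1
import Pool.Agent.Lib.KR73.B_FRO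
import Pool.Agent.Lib.KR73.B_COLC
import Pool.Agent.Lib.KR73.B_BSUB
import Pool.Agent.Lib.KR73.B_BLOB
import Pool.Agent.Lib.KR73.B_IMP
import Pool.Agent.Lib.KR73.B_FIN
import Pool.Agent.Lib.KR73.B_SEP
import Pool.Agent.Lib.KR73.B_GROW
import Pool.Agent.Lib.KR73.B_END73
import Pool.Agent.Lib.KR73.FO
import Pool.Agent.Lib.KR73.Main

/-! All blocks of the recurrence bound. -/

set_option autoImplicit false

open Filter Topology Set Metric Complex Bornology MeasureTheory N62a1eb23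
open scoped Real ENNReal

namespace KR73

open Pool.Agent.Lib.MP_c35c17_an KN

theorem all {n : ℕ} (hn : 2 ≤ n) {c : ℂ} (hc : c ∈ multibrotSet n) {Φ : ℂ → ℂ}
    (hB : L.Bot n c 1 Φ) (hcl : c ∈ closure (Φ '' {w | 1 < ‖w‖})) :
    ∃ θ : ℝ, MapClusterPt c (𝓝[{w | 1 < ‖w‖}] exp (2 * π * I * θ)) Φ ∧
      ((∃ᶠ d : ℕ in atTop, ∀ i : ℕ, 1 ≤ i → i ≤ d ^ 29 → ∃ x < d,
        ¬ ⌊((n : ℝ) ^ (i + x + 1) - 1) * θ⌋ ≡ ⌊((n : ℝ) ^ (x + 1) - 1) * θ⌋ [ZMOD n]) →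
      c ∈ closure {c | ∃ m z, IsAttractingCycle (fun z ↦ z ^ n + c) m z}) := by
  have hPEAK : St_PEAK n := st_PEAK hn
  by_cases hinj : Function.Injective fun j => (F n c)^[j] 0
  swap
  · obtain ⟨θ, -, h⟩ := hPEAK c hc Φ hB hcl
    exact ⟨θ, h, fun _ => finite_orbit hn hc hinj⟩
  have hMOD : St_MOD n := st_MOD hn st_JAN ARC55.st (st_SLIT hn (st_SHORT hn)) (st_BR hn)
  have hCOL : St_COL := st_COL (st_GAP st_GAP0)
  have hEXT : St_EXT n := st_EXT hn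
  have hCST : St_CST n := st_CST hn hEXT
  have hLET : St_LET n := st_LET hn
  have hBRW : St_BRW n := st_BRW hn
  have hMISS : St_MISS n := st_MISS hn
  have hM2 : St_MISS2 n := st_MISS2 hn
  have hSER : St_SER n := st_SER hn st_C2 st_C4 (st_ISO hn hEXT hBRW hMISS) hEXT
  have hFRO : St_FRO n := st_FRO hn hEXT hLET st_TOP (st_FRO1 hn)
  have hCOLC : St_COLC n := st_COLC hn st_C0 st_C2 hCOL hLET
  have hBSUB : St_BSUB n := st_BSUB hn hEXT hBRW hM2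
  have hBLOB : St_BLOB n := st_BLOB hn hEXT st_C2 (st_C3 hn) hSER hBSUB
  have hSEP : St_SEP n := st_SEP hn st_LA1
  exact main hn hPEAK hMOD hCST hM2
    (st_IMP hn st_C5 st_C6 hEXT hCST st_CORN hFRO hCOLC hBLOB)
    (st_FIN hn st_C0 hEXT hCST hFRO hCOLC hBSUB) hSEP
    (st_GROW hn hEXT st_LA2 hBRW hMISS hSER hSEP) (END73.st hn) c hc hinj Φ hB hcl

end KR73
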