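import Pool.Agent.Lib.KR73.Kit

/-! The frontier of a truncated cylinder is covered by collars and blobs. -/

set_option autoImplicit false

open Filter Topology Set Metric Complex Bornology MeasureTheory N62a1eb23
open scoped Real ENNReal

namespace KR73

open Pool.Agent.Lib.MP_c35c17_an KN

theorem st_FRO {n : ℕ} (hn : 2 ≤ n) (hEXT : St_EXT n) (hLET : St_LET n) (hTOP : St_TOP)
    (hFRO1 : St_FRO1 n) : St_FRO n := by
  intro d T μ i hi z hz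
  obtain ⟨-, E2, E3⟩ := hEXT μ.c μ.hc μ.Φ μ.bot
  rw [(μ.Ph_open hEXT _ _ _).frontier_eq] at hz
  have p := npow_pos hn
  have hs := μ.ss_le
  have hN := μ.Ns_le
  have es : ss d = ee d + 2 := rfl
  have hq : ∀ q, q ≤ NN n d * ss d + ss d → q ≤ (NN n d + 1) * ss d := fun q h => by
    rwa [add_mul, one_mul]
  have top : ∀ ζ : ℂ, Bc μ.Φ ζ = z → ζ.re ≤ ((n : ℝ) ^ ee d)⁻¹ := fun ζ e => not_lt.mp fun h => by
    obtain ⟨y, ⟨ζ', h1, rfl⟩, h2⟩ :=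
      mem_closure_iff.mp hz.1 _ (E2 _ (inv_pos.mpr (p (ee d))).le) ⟨ζ, h, e⟩
    exact h2.2 ⟨ζ', (show ((n : ℝ) ^ ee d)⁻¹ < ζ'.re from h1).le, rfl⟩
  have low : ∀ (q : ℕ) (t : ℝ), q ≤ 2 * T → ((n : ℝ) ^ q)⁻¹ ≤ t → μ.g < t := fun q t h1 h2 => by
    have h3 := μ.g_lt (l := 0) (q := q) (by omega)
    rw [pow_zero, one_mul] at h3
    linarith [inv_pos.mpr (p q)]
  by_cases hP : z ∈ μ.P i (ss d)
  · obtain ⟨ζ, h1, e⟩ : z ∈ Ext μ.Φ ((n : ℝ) ^ ee d)⁻¹ := by_contra fun h => hz.2 ⟨hP, h⟩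
    have h2 : (n : ℝ) ^ ee d * ζ.re = 1 := by
      rw [le_antisymm (top ζ e) h1, mul_inv_cancel₀ (p _).ne']
    rw [← e] at hP
    obtain ⟨α, h3, h4⟩ := hTOP n μ.ϑ d (2 * T) i ζ.im hn μ.nr (by omega) fun y hy =>
      ((hLET d T μ i (ss d) ζ.re ζ.im (low _ _ (by omega) h1)).mp hP y hy).2
    refine Or.inl ⟨α, ee d, h3, le_rfl, hq _ (by omega), ζ, ⟨h2.ge, ?_, ?_⟩, e⟩
    · rw [h2]
      linarith [ntwo hn]
    · have h5 : 0 ≤ (n : ℝ) ^ ee d * |ζ.im - α| := mul_nonneg (p _).le (abs_nonneg _)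
      have h6 : (4 : ℝ) ≤ (n : ℝ) ^ 2 := by nlinarith [ntwo hn]
      rw [es, pow_add, mul_right_comm] at h4
      nlinarith
  obtain ⟨x, x1, x2, x3, x4⟩ := hFRO1 d T μ i hi z (closure_mono sdiff_subset hz.1) hP
  by_cases hb : (F n μ.c)^[x + 1] z ∈ Ext μ.Φ ((n : ℝ) ^ (NN n d * ss d))⁻¹
  swap
  · refine Or.inr ⟨x, x1, x2, (F n μ.c)^[x] z, ?_, μ.P_back x3⟩
    rw [Function.iterate_succ_apply'] at x4 hb
    exact ⟨μ.S_P (by omega) x4, hb⟩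
  obtain ⟨ζ, h1, e⟩ := (E3 ((n : ℝ) ^ (NN n d * ss d + (x + 1)))⁻¹ (inv_pos.mpr (p _)) (x + 1)
    z).mp (by
      rwa [pow_add _ (NN n d * ss d), mul_inv, mul_left_comm, mul_inv_cancel₀ (p _).ne', mul_one])
  have h2 := low _ _ (by omega) h1
  have h3 := μ.gpos.trans h2
  have h4 := top ζ e
  rw [← e] at x3 x4
  have h5 : Cg ((n : ℝ) ^ (x + 1) * ζ.im) μ.ϑ := by
    rw [show Bc μ.Φ ζ = Bc μ.Φ ⟨ζ.re, ζ.im⟩ from rfl, Bc_iter' hn μ.cj h3] at x4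
    simpa using μ.off (by
      rw [pow_zero, one_mul]
      exact h2.trans_le (le_mul_of_one_le_left h3.le (one_le_npow hn _))) x4
  have ex : 1 ≤ (n : ℝ) ^ (NN n d * ss d + (x + 1)) * ζ.re := by
    rwa [mem_ofPred_eq, inv_le_iff_one_le_mul₀' (p _)] at h1
  have ex' : ∃ q, 1 ≤ (n : ℝ) ^ q * ζ.re := ⟨_, ex⟩
  have h6 : ee d ≤ Nat.find ex' := (Nat.le_find_iff ex' _).mpr fun m hm => not_le.mpr (by
    refine (mul_le_mul_of_nonneg_left h4 (p m).le).trans_lt ?_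
    rw [← div_eq_mul_inv, div_lt_one (p _)]
    exact pow_lt_pow_right₀ (by linarith [ntwo hn]) hm)
  refine Or.inl ⟨ζ.im, Nat.find ex', ⟨x, x1, x2, h5, fun y hy =>
    ((hLET d T μ i x ζ.re ζ.im h2).mp x3 y hy).2⟩, h6, hq _ ((Nat.find_min' ex' ex).trans
      (by omega)), ζ, ⟨Nat.find_spec ex', ?_, by simp⟩, e⟩
  obtain ⟨q, e1⟩ : ∃ q, Nat.find ex' = q + 1 := ⟨Nat.find ex' - 1, by rw [ee] at h6; omega⟩
  have h7 := not_le.mp (Nat.find_min ex' (m := q) (by omega))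
  rw [e1, pow_succ', mul_assoc]
  exact mul_le_of_le_one_right (npos hn).le h7.le

end KR73
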