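import Pool.Agent.Lib.KR73.Kit

/-! Block GAP0: an angle close to a periodic angle repeats its first letters. -/

set_option autoImplicit false

open Filter Topology Set Metric Complex Bornology MeasureTheory N62a1eb23
open scoped Real ENNReal

namespace KR73

open Pool.Agent.Lib.MP_c35c17_an KN

namespace XGAP0

theorem floor_eq {q : ℕ} (hq : 0 < q) {A B : ℝ} (h : ⌊(q : ℝ) * A⌋ = ⌊(q : ℝ) * B⌋) :
    ⌊A⌋ = ⌊B⌋ := by
  have h0 : (q : ℝ) ≠ 0 := by exact_mod_cast hq.ne'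
  rw [← mul_div_cancel_left₀ A h0, ← mul_div_cancel_left₀ B h0, Int.floor_div_natCast,
    Int.floor_div_natCast, h]

theorem floor_small (a : ℤ) {ε u v : ℝ} (hu : 0 < u) (huv : u ≤ v) (h : v * |ε| < 1) :
    ⌊(a : ℝ) + u * ε⌋ = ⌊(a : ℝ) + v * ε⌋ := by
  rcases le_or_gt 0 ε with h0 | h0
  · rw [abs_of_nonneg h0] at h
    have h1 : ⌊(a : ℝ) + u * ε⌋ = a := Int.floor_eq_iff.mpr ⟨by nlinarith, by nlinarith⟩
    have h2 : ⌊(a : ℝ) + v * ε⌋ = a := Int.floor_eq_iff.mpr ⟨by nlinarith, by nlinarith⟩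
    rw [h1, h2]
  · rw [abs_of_neg h0] at h
    have h1 : ⌊(a : ℝ) + u * ε⌋ = a - 1 :=
      Int.floor_eq_iff.mpr ⟨by push_cast; nlinarith, by push_cast; nlinarith⟩
    have h2 : ⌊(a : ℝ) + v * ε⌋ = a - 1 :=
      Int.floor_eq_iff.mpr ⟨by push_cast; nlinarith, by push_cast; nlinarith⟩
    rw [h1, h2]

end XGAP0

open XGAP0 in
theorem st_GAP0 : St_GAP0 := by
  rintro n θ d j m hn hj hjd ⟨x, hx, hne⟩
  by_contra hlt
  rw [not_le] at hlt
  apply hne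
  set ε := ((n : ℝ) ^ j - 1) * θ - m with hε
  have h2 : (2 : ℝ) ≤ n := by exact_mod_cast hn
  have hN : (2 : ℝ) ≤ (n : ℝ) ^ (x + 1) := h2.trans (le_self_pow₀ (by linarith) (by omega))
  have hJ : (1 : ℝ) ≤ (n : ℝ) ^ j := one_le_pow₀ (by linarith)
  have hq : 1 < n ^ j := Nat.one_lt_pow (by omega) (by omega)
  have hc : ((n ^ j - 1 : ℕ) : ℝ) = (n : ℝ) ^ j - 1 := by
    rw [Nat.cast_sub hq.le, Nat.cast_pow, Nat.cast_one]
  have hD : (n : ℝ) ^ j * (n : ℝ) ^ (x + 1) ≤ (n : ℝ) ^ (2 * d) := by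
    rw [← pow_add]
    exact pow_le_pow_right₀ (by linarith) (by omega)
  have hP : (0 : ℝ) < (n : ℝ) ^ (2 * d) := by positivity
  have hs : ((n : ℝ) ^ j * (n : ℝ) ^ (x + 1) - 1) * |ε| < 1 := by
    have h3 : (n : ℝ) ^ (2 * d) * |ε| < 1 / 2 := by
      have := mul_lt_mul_of_pos_left hlt hP
      rwa [← mul_div_assoc, mul_inv_cancel₀ hP.ne'] at this
    nlinarith [abs_nonneg ε]
  have key : ⌊((n : ℝ) ^ (x + 1) - 1) * θ⌋ =
      ⌊((n : ℝ) ^ (x + 1) - 1) * θ + (n : ℝ) ^ (x + 1) * ε⌋ := by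
    refine floor_eq (q := n ^ j - 1) (by omega) ?_
    have := floor_small (((n : ℤ) ^ (x + 1) - 1) * m) (u := (n : ℝ) ^ (x + 1) - 1) (by linarith)
      (by nlinarith) hs
    rw [hc]
    refine Eq.trans ?_ (this.trans ?_)
    · congr 1
      rw [hε]; push_cast; ring
    · congr 1
      rw [hε]; push_cast; ring
  have e1 : (n : ℝ) * ((n : ℝ) ^ (j + x) * θ) - θ = ((n : ℝ) ^ (x + 1) - 1) * θ +
      (n : ℝ) ^ (x + 1) * ε + (((n : ℤ) ^ (x + 1) * m : ℤ) : ℝ) := by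
    rw [hε]; push_cast; ring
  have e2 : (n : ℝ) * ((n : ℝ) ^ x * θ) - θ = ((n : ℝ) ^ (x + 1) - 1) * θ := by ring
  simp only [nu, lts, KN.lt]
  rw [e1, e2, Int.floor_add_intCast, ← key]
  push_cast
  rw [ZMod.natCast_self, zero_pow x.succ_ne_zero, zero_mul, add_zero]

end KR73
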