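import Pool.Agent.Lib.KR73.Kit

/-! Oscillation of a test function on a circle. -/

set_option autoImplicit false

open Filter Topology Set Metric Complex Bornology MeasureTheory N62a1eb23
open scoped Real ENNReal

namespace KR73

open Pool.Agent.Lib.MP_c35c17_an KN

namespace XOSC

theorem cs {N : ℝ → ℝ} (hN : Continuous N) :
    (∫ φ in (-π)..π, N φ) ^ 2 ≤ 2 * π * ∫ φ in (-π)..π, N φ ^ 2 := by
  have hp := Real.pi_pos
  set S := ∫ φ in (-π)..π, N φ with hS
  have h0 : 0 ≤ ∫ φ in (-π)..π, (2 * π * N φ - S) ^ 2 :=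
    intervalIntegral.integral_nonneg (by linarith) fun _ _ => sq_nonneg _
  have e : ∀ φ, (2 * π * N φ - S) ^ 2 = (2 * π) ^ 2 * N φ ^ 2 - 4 * π * S * N φ + S ^ 2 :=
    fun φ => by ring
  simp only [e] at h0
  rw [intervalIntegral.integral_add (Continuous.intervalIntegrable (by fun_prop) _ _)
      (Continuous.intervalIntegrable (by fun_prop) _ _),
    intervalIntegral.integral_sub (Continuous.intervalIntegrable (by fun_prop) _ _)
      (Continuous.intervalIntegrable (by fun_prop) _ _),
    intervalIntegral.integral_const_mul, intervalIntegral.integral_const_mul,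
    intervalIntegral.integral_const, ← hS, smul_eq_mul] at h0
  refine le_of_mul_le_mul_left ?_ (by positivity : 0 < 2 * π)
  nlinarith

theorem arc {u : ℂ → ℝ} (hu : ContDiff ℝ 1 u) (x : ℂ) {r a b : ℝ} (hr : 0 < r) (ha : -π ≤ a)
    (hab : a ≤ b) (hb : b ≤ π) :
    |u (x + r * exp (b * I)) - u (x + r * exp (a * I))| ≤
      r * ∫ φ in (-π)..π, ‖fderiv ℝ u (x + r * exp (φ * I))‖ := by
  have hc := hu.continuous_fderiv one_ne_zero
  have hd : ∀ φ : ℝ, HasDerivAt (fun φ : ℝ => u (x + r * exp (φ * I)))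
      (fderiv ℝ u (x + r * exp (φ * I)) (r * (exp (φ * I) * I))) φ := fun φ => by
    have h1 : HasDerivAt (fun φ : ℝ => x + r * exp (φ * I)) (r * (exp (φ * I) * I)) φ := by
      have h2 : HasDerivAt (fun φ : ℝ => (φ : ℂ) * I) I φ := by
        simpa using (ofRealCLM.hasDerivAt (x := φ)).mul_const I
      exact (h2.cexp.const_mul (r : ℂ)).const_add x
    exact (hu.differentiable one_ne_zero _).hasFDerivAt.comp_hasDerivAt φ h1
  have hN : Continuous fun φ : ℝ => ‖fderiv ℝ u (x + r * exp (φ * I))‖ := by fun_prop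
  rw [← intervalIntegral.integral_eq_sub_of_hasDerivAt (fun φ _ => hd φ)
    (Continuous.intervalIntegrable (by fun_prop) _ _), ← intervalIntegral.integral_const_mul,
    ← Real.norm_eq_abs]
  refine (intervalIntegral.norm_integral_le_of_norm_le hab (g := fun φ : ℝ =>
    r * ‖fderiv ℝ u (x + r * exp (φ * I))‖) (.of_forall fun φ _ => ?_)
    (Continuous.intervalIntegrable (by fun_prop) _ _)).trans ?_
  · refine (ContinuousLinearMap.le_opNorm _ _).trans (le_of_eq ?_)
    rw [norm_mul, norm_mul, norm_exp_ofReal_mul_I, norm_I, norm_real, Real.norm_of_nonneg hr.le]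
    ring
  · exact intervalIntegral.integral_mono_interval ha hab hb
      (.of_forall fun φ => by positivity) (Continuous.intervalIntegrable (by fun_prop) _ _)

end XOSC

open XOSC in
theorem st_OSC : St_OSC := by
  intro u x p p' r hu hr hp hp'
  have hc := hu.continuous_fderiv one_ne_zero
  have e : ∀ q : ℂ, ‖q - x‖ = r → q = x + r * exp (arg (q - x) * I) := fun q hq => by
    rw [← hq, norm_mul_exp_arg_mul_I]; ring
  have h1 : |u p - u p'| ≤ r * ∫ φ in (-π)..π, ‖fderiv ℝ u (x + r * exp (φ * I))‖ := by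
    rcases le_total (arg (p - x)) (arg (p' - x)) with h | h
    · have := arc hu x hr (neg_pi_lt_arg _).le h (arg_le_pi _)
      rwa [← e p hp, ← e p' hp', abs_sub_comm] at this
    · have := arc hu x hr (neg_pi_lt_arg _).le h (arg_le_pi _)
      rwa [← e p hp, ← e p' hp'] at this
  have h2 := cs (N := fun φ : ℝ => ‖fderiv ℝ u (x + r * exp (φ * I))‖) (by fun_prop)
  have h3 := pow_le_pow_left₀ (abs_nonneg _) h1 2
  rw [sq_abs, mul_pow] at h3
  refine h3.trans ?_
  have h4 := mul_le_mul_of_nonneg_left h2 (sq_nonneg r)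
  unfold Jp
  linarith

end KR73
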