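import Pool.Agent.Lib.KR73.Kit

/-! The energy of a test function in polar coordinates around a point. -/

set_option autoImplicit false

open Filter Topology Set Metric Complex Bornology MeasureTheory N62a1eb23
open scoped Real ENNReal

namespace KR73

open Pool.Agent.Lib.MP_c35c17_an KN

namespace XPOL

/-- the energy as an integral over the polar chart centred at `x` -/
theorem dir_eq (u : ℂ → ℝ) (x : ℂ) :
    Dir u = ∫⁻ p in Ioi (0 : ℝ) ×ˢ Ioo (-π) π,
      ENNReal.ofReal p.1 * ENNReal.ofReal (Jp u x p.1 p.2) := by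
  have h1 : Dir u = ∫⁻ z : ℂ, ENNReal.ofReal (‖fderiv ℝ u (x + z)‖ ^ 2) :=
    (lintegral_add_left_eq_self (fun z : ℂ => ENNReal.ofReal (‖fderiv ℝ u z‖ ^ 2)) x).symm
  rw [h1, ← Complex.lintegral_comp_polarCoord_symm]
  refine lintegral_congr fun p => ?_
  rw [smul_eq_mul, Complex.polarCoord_symm_apply, Jp, exp_mul_I, ofReal_cos, ofReal_sin]

end XPOL

theorem st_POL : St_POL := by
  intro u x w a b hu hD ha hab
  have hc : Continuous fun p : ℝ × ℝ => p.1 * Jp u x p.1 p.2 :=
    continuous_fst.mul (continuous_Jp hu x)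
  have hi : IntegrableOn (fun p : ℝ × ℝ => p.1 * Jp u x p.1 p.2) (Ioc a b ×ˢ Ioo (-π) π)
      ((volume : Measure ℝ).prod volume) :=
    (hc.continuousOn.integrableOn_compact
      ((isCompact_Icc (a := a) (b := b)).prod (isCompact_Icc (a := -π) (b := π)))).mono_set
      (prod_mono Ioc_subset_Icc_self Ioo_subset_Icc_self)
  have hπ : -π ≤ π := by linarith [Real.pi_pos]
  have e1 : ∫ r in a..b, r * ∫ φ in (-π)..π, Jp u x r φ
      = ∫ p in Ioc a b ×ˢ Ioo (-π) π, p.1 * Jp u x p.1 p.2 ∂((volume : Measure ℝ).prod volume) := by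
    rw [setIntegral_prod _ hi, intervalIntegral.integral_of_le hab]
    refine integral_congr_ae (Eventually.of_forall fun r => ?_)
    simp only
    rw [intervalIntegral.integral_of_le hπ, integral_Ioc_eq_integral_Ioo, integral_const_mul]
  have hm : MeasurableSet (Ioc a b ×ˢ Ioo (-π) π) := measurableSet_Ioc.prod measurableSet_Ioo
  have hnn : 0 ≤ᵐ[((volume : Measure ℝ).prod volume).restrict (Ioc a b ×ˢ Ioo (-π) π)]
      fun p : ℝ × ℝ => p.1 * Jp u x p.1 p.2 := by
    refine (ae_restrict_iff' hm).2 (Eventually.of_forall fun p hp => ?_)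
    exact mul_nonneg (ha.trans hp.1.1).le (sq_nonneg _)
  rw [e1, ← ENNReal.ofReal_le_ofReal_iff (sq_nonneg w), ofReal_integral_eq_lintegral_ofReal hi hnn]
  refine le_trans ?_ hD
  rw [XPOL.dir_eq u x]
  refine le_trans (le_of_eq ?_)
    (lintegral_mono_set (prod_mono (fun r (hr : r ∈ Ioc a b) => ha.trans hr.1) subset_rfl))
  refine setLIntegral_congr_fun hm fun p hp => ?_
  exact ENNReal.ofReal_mul (ha.trans hp.1.1).le

end KR73
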