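import Pool.Agent.Lib.KR73.Defs

/-! Statements of the blocks of the recurrence bound. -/

set_option autoImplicit false

open Filter Topology Set Metric Complex Bornology MeasureTheory N62a1eb23
open scoped Real ENNReal

namespace KR73

open Pool.Agent.Lib.MP_c35c17_an KN

/-! ### capacity -/

def St_C0 : Prop := ∀ K O : Set ℂ, IsCompact K → IsOpen O → K ⊆ O → ∃ w > 0, Cap K O w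

def St_C2 : Prop := ∀ (K O : Set ℂ) (w : ℝ) (h : ℂ → ℂ), IsOpen O → DifferentiableOn ℂ h O →
  InjOn h O → Cap K O w → Cap (h '' K) (h '' O) w

def St_C3 (n : ℕ) : Prop := ∀ (c : ℂ) (K O : Set ℂ) (w : ℝ), Cap K O w →
  Cap (F n c ⁻¹' K) (F n c ⁻¹' O) (√n * w)

def St_C4 : Prop := ∀ (K O : ℕ → Set ℂ) (M : ℕ) (w : ℝ), (∀ q ≤ M, Cap (K q) (O q) w) →
  (∀ q < M, O (q + 1) ⊆ K q) → Cap (K M) (O 0) (w / √(M + 1))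

def St_C5 : Prop := ∀ (K K' O : Set ℂ) (w w' : ℝ), 0 < w → 0 < w' → Cap K O w → Cap K' O w' →
  Cap (K ∪ K') O (w + w')

def St_C6 : Prop := ∀ (P O : Set ℂ) (w : ℝ), IsOpen P → IsBounded P → P ⊆ O →
  Cap (frontier P) O w → Cap P O w

def St_POL : Prop := ∀ (u : ℂ → ℝ) (x : ℂ) (w a b : ℝ), ContDiff ℝ 1 u →
  Dir u ≤ ENNReal.ofReal (w ^ 2) → 0 < a → a ≤ b →
    ∫ r in a..b, r * ∫ φ in (-π)..π, Jp u x r φ ≤ w ^ 2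

def St_OSC : Prop := ∀ (u : ℂ → ℝ) (x p p' : ℂ) (r : ℝ), ContDiff ℝ 1 u → 0 < r → ‖p - x‖ = r →
  ‖p' - x‖ = r → (u p - u p') ^ 2 ≤ 2 * π * r ^ 2 * ∫ φ in (-π)..π, Jp u x r φ

def St_RAD : Prop := ∀ (u : ℂ → ℝ) (x : ℂ) (a b φ : ℝ), ContDiff ℝ 1 u → 0 < a → a ≤ b →
  (u (x + b * exp (φ * I)) - u (x + a * exp (φ * I))) ^ 2 ≤
    Real.log (b / a) * ∫ r in a..b, r * Jp u x r φ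

def St_LA1 : Prop := ∀ (K O E E' : Set ℂ) (w : ℝ) (x : ℂ) (r₁ r₂ : ℝ), Cap K O w → E ⊆ K →
  Disjoint E' O → IsPreconnected E → IsPreconnected E' → 0 < r₁ → r₁ ≤ r₂ →
  (∃ p ∈ E, ‖p - x‖ ≤ r₁) → (∃ p ∈ E, r₂ ≤ ‖p - x‖) → (∃ p ∈ E', ‖p - x‖ ≤ r₁) →
  (∃ p ∈ E', r₂ ≤ ‖p - x‖) → Real.log (r₂ / r₁) ≤ 2 * π * w ^ 2

def St_LA2 : Prop := ∀ (K E : Set ℂ) (R w : ℝ) (x y : ℂ), Cap K (ball 0 R) w → 0 < w →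
  w ≤ 1 / 10 → E ⊆ K → IsPreconnected E → x ∈ E → y ∈ E →
    ‖y - x‖ ≤ 4 * R * Real.exp (-(1 / w ^ 2))

/-! ### angles -/

def St_GAP0 : Prop := ∀ (n : ℕ) (θ : ℝ) (d j : ℕ) (m : ℤ), 2 ≤ n → 1 ≤ j → j ≤ d →
  (∃ x < d, nu n θ (j + x) ≠ nu n θ x) → ((n : ℝ) ^ (2 * d))⁻¹ / 2 ≤ |((n : ℝ) ^ j - 1) * θ - m|

def St_GAP : Prop := ∀ (n : ℕ) (θ : ℝ) (d : ℕ) (b : ℝ) (m : ℤ), 2 ≤ n → NR n θ d d →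
  (∃ x < d, lts n θ b x ≠ nu n θ x) → ((n : ℝ) ^ (3 * d))⁻¹ / 2 ≤ |b - θ - m|

def St_CORN : Prop := ∀ (n : ℕ) (θ : ℝ) (d i : ℕ), 2 ≤ n → ∃ A : Finset ℝ, A.card ≤ n * d ∧
  (∀ α ∈ A, Cor n θ d i α) ∧ ∀ α, Cor n θ d i α → ∃ α' ∈ A, Cg α α'

def St_COL : Prop := ∀ (n : ℕ) (θ : ℝ) (d T i : ℕ) (α ξ : ℝ), 2 ≤ n → NR n θ d T → i + ss d ≤ T →
  Cor n θ d i α → (n : ℝ) ^ ee d * |ξ - α| < 1 / 2 →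
    ∀ y < d, ¬ Cg ((n : ℝ) ^ (y + 1) * ξ) θ ∧ lts n θ ξ y = nu n θ (i + y)

def St_TOP : Prop := ∀ (n : ℕ) (θ : ℝ) (d T i : ℕ) (ξ : ℝ), 2 ≤ n → NR n θ d T → i + ss d ≤ T →
  (∀ y < ss d, lts n θ ξ y = nu n θ (i + y)) →
    ∃ α, Cor n θ d i α ∧ (n : ℝ) ^ ss d * |ξ - α| ≤ 1

/-! ### the model -/

def St_MOD (n : ℕ) : Prop := ∀ c ∈ multibrotSet n, ∀ Φ, L.Bot n c 1 Φ →
  Function.Injective (fun j => (F n c)^[j] 0) → ∀ θ, Peak c Φ θ → ∀ d T : ℕ, 0 < d →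
  (NN n d + 1) * ss d ≤ T → NR n θ d (3 * T) → ∃ μ : Mo n d T, μ.c = c ∧ μ.Φ = Φ

def St_EXT (n : ℕ) : Prop := ∀ c ∈ multibrotSet n, ∀ Φ, L.Bot n c 1 Φ →
  (∀ τ > 0, IsClosed (Ext Φ τ)) ∧ (∀ τ ≥ 0, IsOpen (Bc Φ '' {ζ | τ < ζ.re})) ∧
    ∀ τ > 0, ∀ (j : ℕ) (z : ℂ), (F n c)^[j] z ∈ Ext Φ ((n : ℝ) ^ j * τ) ↔ z ∈ Ext Φ τ

def St_CST (n : ℕ) : Prop := ∀ c ∈ multibrotSet n, ∀ Φ, L.Bot n c 1 Φ → ∃ R r₀, Cst n c Φ R r₀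

def St_LET (n : ℕ) : Prop := ∀ (d T : ℕ) (μ : Mo n d T) (i s : ℕ) (t ξ : ℝ), μ.g < t →
  (Bc μ.Φ ⟨t, ξ⟩ ∈ μ.P i s ↔
    ∀ y < s, ¬ Cg ((n : ℝ) ^ (y + 1) * ξ) μ.ϑ ∧ lts n μ.ϑ ξ y = nu n μ.ϑ (i + y))

def St_BRW (n : ℕ) : Prop := ∀ (d T : ℕ) (μ : Mo n d T) (i x : ℕ) (U : Set ℂ), x ≤ 3 * T →
  (∀ i' y, i < i' → i' + y = i + x → (∀ j < y, nu n μ.ϑ (i' + j) = nu n μ.ϑ j) →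
    Disjoint U (μ.S y)) →
  DifferentiableOn ℂ (μ.Y i x) U ∧ (∀ z ∈ U, (F n μ.c)^[x] (μ.Y i x z) = z) ∧
    MapsTo (μ.Y i x) U (μ.P i x)

def St_MISS (n : ℕ) : Prop := ∀ (d T : ℕ) (μ : Mo n d T) (i' y : ℕ), 1 ≤ i' → i' ≤ 2 * T →
  (∀ j < y, nu n μ.ϑ (i' + j) = nu n μ.ϑ j) → Disjoint (μ.P (i' + y) d) (μ.S y)

def St_MISS2 (n : ℕ) : Prop := ∀ (d T : ℕ) (μ : Mo n d T) (k : ℕ), 1 ≤ k → k ≤ 2 * T →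
  Disjoint (μ.S k) (μ.P 0 d)

def St_ISO (n : ℕ) : Prop := ∀ (d T : ℕ) (μ : Mo n d T) (i x s q : ℕ), d ≤ s → i + x ≤ 2 * T →
  DifferentiableOn ℂ (μ.Y i x) (μ.Ph (i + x) s q) ∧ InjOn (μ.Y i x) (μ.Ph (i + x) s q) ∧
    μ.Y i x '' μ.Ph (i + x) s q = μ.Ph i (x + s) (q + x)

def St_SER (n : ℕ) : Prop := ∀ (d T : ℕ) (μ : Mo n d T) (w : ℝ) (j M : ℕ), μ.Q w →
  j + M * ss d ≤ T →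
    Cap (μ.Ph j ((M + 1) * ss d) ((M + 1) * ss d)) (μ.Ph j d 0) (w / √(M + 1))

def St_FRO1 (n : ℕ) : Prop := ∀ (d T : ℕ) (μ : Mo n d T), ∀ i ≤ T,
  ∀ z ∈ closure (μ.P i (ss d)), z ∉ μ.P i (ss d) →
    ∃ x, 3 * d + 4 ≤ x ∧ x < ss d ∧ z ∈ μ.P i x ∧ (F n μ.c)^[x + 1] z ∈ μ.S 0

def St_FRO (n : ℕ) : Prop := ∀ (d T : ℕ) (μ : Mo n d T), ∀ i ≤ T,
  ∀ z ∈ frontier (μ.Ph i (ss d) (ee d)),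
    (∃ α q, Cor n μ.ϑ d i α ∧ ee d ≤ q ∧ q ≤ (NN n d + 1) * ss d ∧ z ∈ Col n μ.Φ α q) ∨
      ∃ x, 3 * d + 4 ≤ x ∧ x < ss d ∧ z ∈ μ.Bl i x

def St_COLC (n : ℕ) : Prop := ∃ w₀ > 0, ∀ (d T : ℕ) (μ : Mo n d T), ∀ i ≤ T, ∀ (α : ℝ) (q : ℕ),
  Cor n μ.ϑ d i α → ee d ≤ q → q ≤ T → Cap (Col n μ.Φ α q) (μ.Ph i d 0) w₀

def St_BSUB (n : ℕ) : Prop := ∀ (d T : ℕ) (μ : Mo n d T) (i x : ℕ), d ≤ x → x ≤ T →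
  DifferentiableOn ℂ (μ.Y i x) (F n μ.c ⁻¹' μ.Ph 0 d 0) ∧
    InjOn (μ.Y i x) (F n μ.c ⁻¹' μ.Ph 0 d 0) ∧
      μ.Y i x '' (F n μ.c ⁻¹' μ.Ph 0 d 0) ⊆ μ.Ph i d 0

def St_BLOB (n : ℕ) : Prop := ∀ (d T : ℕ) (μ : Mo n d T) (w : ℝ) (i x : ℕ), 0 < w → μ.Q w →
  d ≤ x → x ≤ T → Cap (μ.Bl i x) (μ.Ph i d 0) (w / (2 * d))

def St_IMP (n : ℕ) : Prop := ∃ C > 0, ∀ (d T : ℕ) (μ : Mo n d T) (w : ℝ), 0 < w → μ.Q w →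
  μ.Q (C * (d : ℝ) ^ 4 + w / 2)

def St_FIN (n : ℕ) : Prop := ∀ (d T : ℕ) (μ : Mo n d T), ∃ w > 0, μ.Q w

def St_SEP (n : ℕ) : Prop := ∀ (d T : ℕ) (μ : Mo n d T) (R r₀ w : ℝ), Cst n μ.c μ.Φ R r₀ → μ.Q w →
  ∀ i ≤ T, ∀ E : Set ℂ, IsPreconnected E → ¬ IsBounded E → Disjoint E (μ.P i d) →
    ∀ p ∈ E, sep n d R r₀ w ≤ ‖p - (F n μ.c)^[i] μ.c‖

def St_GROW (n : ℕ) : Prop := ∀ (d T : ℕ) (μ : Mo n d T) (R r₀ w : ℝ), Cst n μ.c μ.Φ R r₀ →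
  0 < w → μ.Q w → ∀ m M : ℕ, m ≤ T → M * ss d ≤ m → 100 * w ^ 2 ≤ M →
    sep n d R r₀ w ≤ 8 * R * Real.exp (-(M / w ^ 2)) * ‖dF n μ.c m μ.c‖

def St_END (n : ℕ) : Prop := ∀ c ∈ multibrotSet n, ∀ R r₀ C : ℝ, 1 ≤ R → 0 < r₀ → 0 < C →
  (∃ᶠ d : ℕ in atTop,
    (∀ k, 1 ≤ k → k ≤ d ^ 28 → sep n d R r₀ (C * (d : ℝ) ^ 4) ≤ ‖(F n c)^[k] c - c‖) ∧
    ∀ m M : ℕ, m ≤ d ^ 28 → M * ss d ≤ m → 100 * (C * (d : ℝ) ^ 4) ^ 2 ≤ M →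
      sep n d R r₀ (C * (d : ℝ) ^ 4) ≤
        8 * R * Real.exp (-(M / (C * (d : ℝ) ^ 4) ^ 2)) * ‖dF n c m c‖) →
  c ∈ closure {c | ∃ m z, IsAttractingCycle (fun z ↦ z ^ n + c) m z}

end KR73
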