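import Pool.Agent.Lib.KN55.Kit3
import Pool.Agent.Lib.MP_c35c17_an.Cor

/-! Definitions for the recurrence bound of the kneading sequence. -/

set_option autoImplicit false

open Filter Topology Set Metric Complex Bornology MeasureTheory N62a1eb23
open scoped Real ENNReal

namespace KR73

open Pool.Agent.Lib.MP_c35c17_an KN

/-- Dirichlet energy of a real function -/
noncomputable def Dir (u : ℂ → ℝ) : ℝ≥0∞ := ∫⁻ z, ENNReal.ofReal (‖fderiv ℝ u z‖ ^ 2)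

/-- a test function equal to one near `K`, supported in `O`, of energy at most `w ^ 2` -/
def Cap (K O : Set ℂ) (w : ℝ) : Prop := ∃ u : ℂ → ℝ, ContDiff ℝ 1 u ∧ (∀ z, u z ∈ Icc (0 : ℝ) 1) ∧
  HasCompactSupport u ∧ tsupport u ⊆ O ∧ (∀ z ∈ K, u =ᶠ[𝓝 z] fun _ => 1) ∧
  Dir u ≤ ENNReal.ofReal (w ^ 2)

/-- squared gradient in polar coordinates about `x` -/
noncomputable def Jp (u : ℂ → ℝ) (x : ℂ) (r φ : ℝ) : ℝ := ‖fderiv ℝ u (x + r * exp (φ * I))‖ ^ 2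

/-- the first `d` letters do not come back before time `T` -/
def NR (n : ℕ) (θ : ℝ) (d T : ℕ) : Prop :=
  ∀ i, 1 ≤ i → i ≤ T → ∃ x < d, nu n θ (i + x) ≠ nu n θ x

def ee (d : ℕ) : ℕ := 4 * d + 2

def ss (d : ℕ) : ℕ := 4 * d + 4

def NN (n d : ℕ) : ℕ := 4 * n * d ^ 2

/-- points of potential at least `τ` -/
def Ext (Φ : ℂ → ℂ) (τ : ℝ) : Set ℂ := Bc Φ '' {ζ | τ ≤ ζ.re}

/-- corner angles of the cylinder at time `i` -/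
def Cor (n : ℕ) (θ : ℝ) (d i : ℕ) (α : ℝ) : Prop := ∃ x, 3 * d + 4 ≤ x ∧ x < ss d ∧
  Cg ((n : ℝ) ^ (x + 1) * α) θ ∧ ∀ y < x, lts n θ α y = nu n θ (i + y)

/-- a collar piece -/
def Col (n : ℕ) (Φ : ℂ → ℂ) (α : ℝ) (q : ℕ) : Set ℂ :=
  Bc Φ '' {ζ | 1 ≤ (n : ℝ) ^ q * ζ.re ∧ (n : ℝ) ^ q * ζ.re ≤ n ∧ (n : ℝ) ^ q * |ζ.im - α| ≤ 1 / 4}

/-- constants of the parameter -/
structure Cst (n : ℕ) (c : ℂ) (Φ : ℂ → ℂ) (R r₀ : ℝ) : Prop where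
  one : 1 ≤ R
  pos : 0 < r₀
  ball : (Ext Φ 1)ᶜ ⊆ ball 0 R
  far : ∀ j, ∀ p ∈ Ext Φ (1 / 2), r₀ ≤ ‖p - (F n c)^[j] c‖

/-- the separation constant -/
noncomputable def sep (n d : ℕ) (R r₀ w : ℝ) : ℝ :=
  r₀ / (n * R ^ (n - 1)) ^ ee d * Real.exp (-(2 * π * w ^ 2))

/-- the exact slit model -/
structure Mo (n d T : ℕ) where
  c : ℂ
  Φ : ℂ → ℂ
  ϑ : ℝ
  ε : ℝ
  g : ℝ
  G : ZMod n → ℂ → ℂ
  hn : 2 ≤ n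
  hc : c ∈ multibrotSet n
  bot : L.Bot n c 1 Φ
  εpos : 0 < ε
  gpos : 0 < g
  dpos : 0 < d
  big : (NN n d + 1) * ss d ≤ T
  small : 2 * g * (n : ℝ) ^ (2 * T) < 1
  nr : NR n ϑ d (2 * T)
  base : Bc Φ ⟨g, ϑ⟩ ∈ closedBall c ε
  top : ∀ (l : ℕ) (ζ : ℂ), 0 < ζ.re → Bc Φ ζ ∈ (F n c)^[l] '' closedBall c ε →
    ζ.re ≤ (n : ℝ) ^ l * g
  cl : ∀ l ≤ 3 * T, IsClosed (slit n c Φ ε g ϑ l)
  conn : ∀ l ≤ 3 * T, IsPreconnected (slit n c Φ ε g ϑ l)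
  unb : ∀ l ≤ 3 * T, ¬ IsBounded (slit n c Φ ε g ϑ l)
  diff : ∀ a, DifferentiableOn ℂ (G a) (slit n c Φ ε g ϑ 0)ᶜ
  inv : ∀ a, ∀ y ∉ slit n c Φ ε g ϑ 0, F n c (G a y) = y
  disj : ∀ a b, ∀ y ∉ slit n c Φ ε g ϑ 0, ∀ y' ∉ slit n c Φ ε g ϑ 0, G a y = G b y' → a = b
  surj : ∀ y, F n c y ∉ slit n c Φ ε g ϑ 0 → ∃ a, y = G a (F n c y)
  sect : ∀ l ≤ 3 * T, slit n c Φ ε g ϑ l ⊆ G (nu n ϑ l) '' (slit n c Φ ε g ϑ 0)ᶜ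
  chart : ∀ a, ∀ t x : ℝ, g < t → ¬ Cg x ϑ → G a (Bc Φ ⟨t, x⟩) = Bc Φ ⟨t / n, gh n ϑ a x⟩

namespace Mo

variable {n d T : ℕ} (μ : Mo n d T)

/-- slits -/
def S (l : ℕ) : Set ℂ := slit n μ.c μ.Φ μ.ε μ.g μ.ϑ l

/-- sectors -/
def V (a : ZMod n) : Set ℂ := μ.G a '' (μ.S 0)ᶜ

/-- cylinders -/
def P (i s : ℕ) : Set ℂ := {z | ∀ x < s, (F n μ.c)^[x] z ∈ μ.V (nu n μ.ϑ (i + x))}

/-- truncated cylinders -/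
def Ph (i s q : ℕ) : Set ℂ := μ.P i s \ Ext μ.Φ ((n : ℝ) ^ q)⁻¹

/-- branch along a factor of the kneading sequence -/
noncomputable def Y (i x : ℕ) : ℂ → ℂ := br μ.G (nu n μ.ϑ) i x

/-- a blob about a precritical point -/
def Bl (i x : ℕ) : Set ℂ := μ.Y i x '' (F n μ.c ⁻¹' μ.Ph 0 (NN n d * ss d) (NN n d * ss d))

/-- all base annuli have capacity at most `w ^ 2` -/
def Q (w : ℝ) : Prop := ∀ i ≤ T, Cap (μ.Ph i (ss d) (ee d)) (μ.Ph i d 0) w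

end Mo

end KR73
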