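import Pool.Agent.Lib.KR73.Blue
import Pool.Agent.Lib.KN55.B_MODEL

/-! Tools for the recurrence bound. -/

set_option autoImplicit false

open Filter Topology Set Metric Complex Bornology MeasureTheory N62a1eb23
open scoped Real ENNReal

namespace KR73

open Pool.Agent.Lib.MP_c35c17_an KN

section cap
variable {K K' O O' : Set ℂ} {w w' : ℝ}

theorem Cap.mono (h : Cap K O w) (hK : K' ⊆ K) (hO : O ⊆ O') : Cap K' O' w := by
  obtain ⟨u, h1, h2, h3, h4, h5, h6⟩ := h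
  exact ⟨u, h1, h2, h3, h4.trans hO, fun z hz => h5 z (hK hz), h6⟩

theorem Cap.le (h : Cap K O w) (h0 : 0 ≤ w) (hw : w ≤ w') : Cap K O w' := by
  obtain ⟨u, h1, h2, h3, h4, h5, h6⟩ := h
  exact ⟨u, h1, h2, h3, h4, h5, h6.trans (ENNReal.ofReal_le_ofReal (by gcongr))⟩

theorem Cap.subset (h : Cap K O w) : K ⊆ O := fun z hz => by
  obtain ⟨u, -, -, -, h4, h5, -⟩ := h
  refine h4 (subset_tsupport u ?_)
  rw [Function.mem_support, (h5 z hz).eq_of_nhds]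
  exact one_ne_zero

theorem cap_empty (O : Set ℂ) (w : ℝ) : Cap ∅ O w :=
  ⟨fun _ => 0, contDiff_const, fun _ => ⟨le_rfl, zero_le_one⟩, HasCompactSupport.zero,
    by rw [show (fun _ : ℂ => (0 : ℝ)) = 0 from rfl, tsupport_zero]; exact empty_subset _,
    fun _ h => h.elim, by simp [Dir]⟩

theorem cap_biUnion (h5 : St_C5) {ι : Type} (I : Finset ι) (A : ι → Set ℂ) (hw : 0 < w)
    (hw' : 0 < w') (h : ∀ i ∈ I, Cap (A i) O w) : Cap (⋃ i ∈ I, A i) O (w' + I.card * w) := by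
  classical
  induction I using Finset.induction_on with
  | empty => simpa using cap_empty O w'
  | insert a I ha ih =>
    rw [Finset.set_biUnion_insert, Finset.card_insert_of_notMem ha]
    have h1 := h5 _ _ _ _ _ hw (by positivity) (h a (Finset.mem_insert_self a I))
      (ih fun i hi => h i (Finset.mem_insert_of_mem hi))
    refine h1.le (by positivity) (le_of_eq ?_)
    push_cast
    ring

/-- the gradient vanishes where the function is locally one and off the support -/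
theorem fderiv_eq_zero_of_one {u : ℂ → ℝ} {z : ℂ} (h : u =ᶠ[𝓝 z] fun _ => 1) :
    fderiv ℝ u z = 0 := by
  rw [h.fderiv_eq]
  exact fderiv_const_apply 1

theorem fderiv_eq_zero_of_notMem {u : ℂ → ℝ} {z : ℂ} (h : z ∉ tsupport u) : fderiv ℝ u z = 0 :=
  Function.notMem_support.mp fun h1 => h (support_fderiv_subset ℝ h1)

theorem continuous_Jp {u : ℂ → ℝ} (hu : ContDiff ℝ 1 u) (x : ℂ) :
    Continuous fun p : ℝ × ℝ => Jp u x p.1 p.2 := by
  have h := hu.continuous_fderiv one_ne_zero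
  unfold Jp
  fun_prop

end cap

section ext
variable {n : ℕ} {c : ℂ} {Φ : ℂ → ℂ} {τ τ' t x : ℝ}

theorem Ext_mono (h : τ ≤ τ') : Ext Φ τ' ⊆ Ext Φ τ := image_mono fun _ hζ => h.trans hζ

theorem mem_Ext (h : L.Cj n c Φ) (hτ : 0 < τ) (ht : 0 < t) : Bc Φ ⟨t, x⟩ ∈ Ext Φ τ ↔ τ ≤ t := by
  refine ⟨?_, fun h1 => ⟨_, h1, rfl⟩⟩
  rintro ⟨ζ, h1, e⟩
  exact h1.trans_eq (Bc_inj (ζ' := ⟨t, x⟩) h (hτ.trans_le h1) ht e).1

theorem orbit_notMem (hn : 2 ≤ n) (hc : c ∈ multibrotSet n) (h : L.Bot n c 1 Φ) (j : ℕ) {ζ : ℂ}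
    (hζ : 0 < ζ.re) : Bc Φ ζ ≠ (F n c)^[j] c := by
  have h1 := h.ne_orbit hn hc le_rfl (chart_gt hζ) (j + 1)
  rwa [← orb_eq hn] at h1

theorem NR.mono {θ : ℝ} {d T T' : ℕ} (h : NR n θ d T) (hT : T' ≤ T) : NR n θ d T' :=
  fun i h1 h2 => h i h1 (h2.trans hT)

end ext

namespace Mo

variable {n d T : ℕ} (μ : Mo n d T) {z : ℂ} {a b : ZMod n} {i s s' q q' l : ℕ} {t x : ℝ}

theorem cj : L.Cj n μ.c μ.Φ := cj_of_bot μ.hn μ.hc μ.bot

include μ in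
theorem ss_le : ss d ≤ T := le_trans (Nat.le_mul_of_pos_left _ (Nat.succ_pos _)) μ.big

include μ in
theorem Ns_le : NN n d * ss d + ss d ≤ T := by
  have := μ.big
  rwa [add_mul, one_mul] at this

include μ in
theorem NN_pos : 0 < NN n d := by
  have h1 := μ.hn
  have h2 := μ.dpos
  rw [NN]
  positivity

/-- the potential of the tip is small -/
theorem g_lt (h : l + q ≤ 2 * T) : (n : ℝ) ^ l * μ.g < ((n : ℝ) ^ q)⁻¹ / 2 := by
  have h1 := npow_pos μ.hn q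
  have h2 := mul_le_mul_of_nonneg_left (npow_mono μ.hn h) μ.gpos.le
  have h3 := μ.small
  rw [lt_div_iff₀ two_pos, lt_inv_comm₀ (by have := μ.gpos; have := npow_pos μ.hn l; positivity) h1,
    lt_inv_comm₀ h1 (by have := μ.gpos; have := npow_pos μ.hn l; positivity), ← one_div,
    lt_div_iff₀ h1]
  rw [pow_add] at h2
  nlinarith

theorem S_map (hz : z ∈ μ.S l) : F n μ.c z ∈ μ.S (l + 1) := XMODEL.map μ.hn μ.cj μ.gpos l hz

theorem S_iter (hz : z ∈ μ.S l) (j : ℕ) : (F n μ.c)^[j] z ∈ μ.S (l + j) := by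
  induction j with
  | zero => exact hz
  | succ j ih => rw [Function.iterate_succ_apply']; exact μ.S_map ih

theorem c_mem (l : ℕ) : (F n μ.c)^[l] μ.c ∈ μ.S l := Or.inl ⟨μ.c, mem_closedBall_self μ.εpos.le, rfl⟩

theorem ray_mem (ht : (n : ℝ) ^ l * μ.g ≤ t) (hx : Cg x ((n : ℝ) ^ l * μ.ϑ)) :
    Bc μ.Φ ⟨t, x⟩ ∈ μ.S l := Or.inr ⟨t, ht, hx.Bc.symm⟩

theorem off (ht : (n : ℝ) ^ l * μ.g < t) (h : Bc μ.Φ ⟨t, x⟩ ∈ μ.S l) : Cg x ((n : ℝ) ^ l * μ.ϑ) :=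
  by_contra fun hx => XMODEL.off μ.hn μ.cj μ.gpos (μ.top l) ht hx h

theorem mem_V : z ∈ μ.V a ↔ F n μ.c z ∉ μ.S 0 ∧ μ.G a (F n μ.c z) = z := by
  refine ⟨?_, fun h => ⟨_, h.1, h.2⟩⟩
  rintro ⟨y, hy, rfl⟩
  rw [μ.inv a y hy]
  exact ⟨hy, rfl⟩

theorem V_uniq (ha : z ∈ μ.V a) (hb : z ∈ μ.V b) : a = b := by
  obtain ⟨y, hy, rfl⟩ := ha
  obtain ⟨y', hy', e⟩ := hb
  exact μ.disj a b y hy y' hy' e.symm

theorem exists_V (h : F n μ.c z ∉ μ.S 0) : ∃ a, z ∈ μ.V a := by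
  obtain ⟨a, e⟩ := μ.surj z h
  exact ⟨a, _, h, e.symm⟩

theorem V_open (a : ZMod n) : IsOpen (μ.V a) :=
  Q.isOpen_image_of_injOn (μ.cl 0 (Nat.zero_le _)).isOpen_compl (μ.diff a)
    (fun y hy y' hy' e => by rw [← μ.inv a y hy, e, μ.inv a y' hy']) _ Subset.rfl
    (μ.cl 0 (Nat.zero_le _)).isOpen_compl

theorem V_uniq' (ha : z ∈ μ.V a) (hb : z ∈ closure (μ.V b)) : a = b := by
  obtain ⟨y, h1, h2⟩ := mem_closure_iff.mp hb _ (μ.V_open a) ha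
  exact μ.V_uniq h1 h2

theorem S_V (hl : l ≤ 3 * T) (hz : z ∈ μ.S l) : z ∈ μ.V (nu n μ.ϑ l) := μ.sect l hl hz

theorem S_P (h : i + s ≤ 3 * T) : μ.S i ⊆ μ.P i s :=
  fun _ hz x hx => μ.S_V (by omega) (μ.S_iter hz x)

theorem P_open (i s : ℕ) : IsOpen (μ.P i s) := by
  have : μ.P i s = ⋂ x ∈ Iio s, (F n μ.c)^[x] ⁻¹' μ.V (nu n μ.ϑ (i + x)) := by
    ext; simp [P]
  exact this ▸ (finite_Iio s).isOpen_biInter fun x _ =>
    (μ.V_open _).preimage (differentiable_iter n μ.c x).continuous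

theorem P_mono (h : s ≤ s') : μ.P i s' ⊆ μ.P i s := fun _ hz x hx => hz x (hx.trans_le h)

theorem P_add {x : ℕ} : z ∈ μ.P i (x + s) ↔ z ∈ μ.P i x ∧ (F n μ.c)^[x] z ∈ μ.P (i + x) s := by
  refine ⟨fun h => ⟨μ.P_mono (Nat.le_add_right _ _) h, fun y hy => ?_⟩, fun h y hy => ?_⟩
  · rw [← Function.iterate_add_apply, add_comm y x, add_assoc]
    exact h _ (by omega)
  · rcases lt_or_ge y x with h1 | h1
    · exact h.1 y h1
    · obtain ⟨e, rfl⟩ := Nat.exists_eq_add_of_le h1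
      have h2 := h.2 e (by omega)
      rwa [← Function.iterate_add_apply, add_comm e x, add_assoc] at h2

theorem Y_succ {x : ℕ} : μ.Y i (x + 1) z = μ.G (nu n μ.ϑ i) (μ.Y (i + 1) x z) := br_succ

theorem P_back {x : ℕ} (h : z ∈ μ.P i x) : μ.Y i x ((F n μ.c)^[x] z) = z := by
  induction x generalizing i z with
  | zero => rfl
  | succ x ih =>
    rw [add_comm x 1, μ.P_add] at h
    rw [μ.Y_succ, Function.iterate_succ_apply, ih (z := F n μ.c z) h.2]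
    exact (μ.mem_V.mp (h.1 0 one_pos)).2

theorem Ph_mono (hs : s ≤ s') (hq : q ≤ q') : μ.Ph i s' q' ⊆ μ.Ph i s q := fun _ hz =>
  ⟨μ.P_mono hs hz.1, fun h => hz.2 (Ext_mono (inv_anti₀ (npow_pos μ.hn q) (npow_mono μ.hn hq)) h)⟩

theorem Ph_open (hE : St_EXT n) (i s q : ℕ) : IsOpen (μ.Ph i s q) :=
  (μ.P_open i s).sdiff ((hE μ.c μ.hc μ.Φ μ.bot).1 _ (inv_pos.mpr (npow_pos μ.hn q)))

theorem Ph_ball {R r₀ : ℝ} (h : Cst n μ.c μ.Φ R r₀) (i s q : ℕ) : μ.Ph i s q ⊆ ball 0 R :=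
  fun _ hz => h.ball fun h1 => (μ.Ph_mono le_rfl (Nat.zero_le q) hz).2 (by simpa using h1)

end Mo

end KR73
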